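import Mathlib

/-!
# The functions `ζ` and `Θ`
-/

namespace Pool.Agent.Slab3D

/-- `e^{κ D⁺} - 1` -/
noncomputable def zt (κ D : ℝ) : ℝ := Real.exp (κ * max D 0) - 1

/-- the primitive of `zt` -/
noncomputable def Th (κ D : ℝ) : ℝ := (Real.exp (κ * max D 0) - 1) / κ - max D 0

theorem zt_nonneg {κ : ℝ} (hκ : 0 < κ) (D : ℝ) : 0 ≤ zt κ D := by
  unfold zt
  have : 1 ≤ Real.exp (κ * max D 0) := Real.one_le_exp (mul_nonneg hκ.le (le_max_right _ _))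
  linarith

theorem zt_zero {κ D : ℝ} (hD : D ≤ 0) : zt κ D = 0 := by
  unfold zt
  rw [max_eq_right hD, mul_zero, Real.exp_zero, sub_self]

theorem Th_zero {κ D : ℝ} (hD : D ≤ 0) : Th κ D = 0 := by
  unfold Th
  rw [max_eq_right hD, mul_zero, Real.exp_zero, sub_self, zero_div, sub_self]

theorem Th_nonneg {κ : ℝ} (hκ : 0 < κ) (D : ℝ) : 0 ≤ Th κ D := by
  unfold Th
  have h1 := Real.add_one_le_exp (κ * max D 0)
  rw [sub_nonneg, le_div_iff₀ hκ]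
  linarith

theorem Th_conv {κ : ℝ} (hκ : 0 < κ) (a b : ℝ) : zt κ b * (a - b) ≤ Th κ a - Th κ b := by
  have hB := le_max_right b 0
  have h1 : Real.exp (κ * max b 0) * (κ * (max a 0 - max b 0)) ≤
      Real.exp (κ * max a 0) - Real.exp (κ * max b 0) := by
    have h2 := Real.add_one_le_exp (κ * (max a 0 - max b 0))
    have h3 : Real.exp (κ * max a 0) =
        Real.exp (κ * max b 0) * Real.exp (κ * (max a 0 - max b 0)) := by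
      rw [← Real.exp_add]; congr 1; ring
    rw [h3]
    nlinarith [Real.exp_pos (κ * max b 0)]
  have h4 : zt κ b * (max a 0 - max b 0) ≤ Th κ a - Th κ b := by
    unfold zt Th
    have h5 : (Real.exp (κ * max a 0) - 1) / κ - max a 0 -
        ((Real.exp (κ * max b 0) - 1) / κ - max b 0) =
        (Real.exp (κ * max a 0) - Real.exp (κ * max b 0)) / κ - (max a 0 - max b 0) := by
      field_simp; ring
    rw [h5]
    have h6 : Real.exp (κ * max b 0) * (max a 0 - max b 0) ≤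
        (Real.exp (κ * max a 0) - Real.exp (κ * max b 0)) / κ := by
      rw [le_div_iff₀ hκ]
      linarith
    linarith
  refine le_trans ?_ h4
  by_cases hb : b ≤ 0
  · rw [zt_zero hb]; simp
  · push Not at hb
    apply mul_le_mul_of_nonneg_left _ (zt_nonneg hκ b)
    rw [max_eq_left hb.le]
    linarith [le_max_left a 0]

theorem zt_lip {κ Λ : ℝ} (hκ : 0 < κ) (hΛ : 0 ≤ Λ) (h1 : κ * Λ ≤ 1) {a b : ℝ}
    (hab : |a - b| ≤ Λ) : |zt κ a - zt κ b| ≤ 2 * κ * Λ * (zt κ b + 1) := by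
  have hm : |max a 0 - max b 0| ≤ Λ := by
    refine le_trans ?_ hab
    have := abs_max_sub_max_le_abs a b 0
    simpa using this
  have h2 : zt κ a - zt κ b = Real.exp (κ * max b 0) *
      (Real.exp (κ * (max a 0 - max b 0)) - 1) := by
    unfold zt
    rw [mul_sub, ← Real.exp_add, mul_one]
    have : κ * max b 0 + κ * (max a 0 - max b 0) = κ * max a 0 := by ring
    rw [this]; ring
  have h3 : |Real.exp (κ * (max a 0 - max b 0)) - 1| ≤ 2 * κ * Λ := by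
    have hx : |κ * (max a 0 - max b 0)| ≤ κ * Λ := by
      rw [abs_mul, abs_of_pos hκ]
      exact mul_le_mul_of_nonneg_left hm hκ.le
    have h4 := Real.abs_exp_sub_one_le (x := κ * (max a 0 - max b 0)) (hx.trans h1)
    linarith
  rw [h2, abs_mul, abs_of_pos (Real.exp_pos _)]
  have h5 : zt κ b + 1 = Real.exp (κ * max b 0) := by unfold zt; ring
  rw [h5]
  nlinarith [Real.exp_pos (κ * max b 0)]

theorem Th_taylor {κ Λ : ℝ} (hκ : 0 < κ) (hΛ : 0 ≤ Λ) (h1 : κ * Λ ≤ 1) {a b : ℝ}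
    (hab : |a - b| ≤ Λ) : |Th κ a - Th κ b - zt κ b * (a - b)| ≤
      2 * κ * Λ ^ 2 * (zt κ b + 1) := by
  have h2 := Th_conv hκ a b
  have h3 := Th_conv hκ b a
  have h4 := zt_lip hκ hΛ h1 hab
  have h5 : Th κ a - Th κ b - zt κ b * (a - b) ≤ (zt κ a - zt κ b) * (a - b) := by linarith
  rw [abs_of_nonneg (by linarith)]
  refine h5.trans ((le_abs_self _).trans ?_)
  rw [abs_mul]
  calc _ ≤ (2 * κ * Λ * (zt κ b + 1)) * Λ :=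
        mul_le_mul h4 hab (abs_nonneg _) ((abs_nonneg _).trans h4)
    _ = _ := by ring

/-- exponentials dominate polynomials, uniformly -/
theorem poly_exp (C : ℝ) (hC : 0 ≤ C) (q p : ℕ) (L : ℝ) (hL : 0 < L) : ∃ A0 : ℕ, 1 ≤ A0 ∧
    ∀ A : ℕ, A0 ≤ A → ∀ j : ℕ, 1 ≤ j →
      C * (A:ℝ) ^ q * (j:ℝ) ^ p ≤ Real.exp ((A:ℝ) * j / L) := by
  set n := max p (q + 1) with hn
  obtain ⟨A0, hA0⟩ := exists_nat_ge (C * L ^ n * n.factorial)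
  refine ⟨max 1 A0, le_max_left _ _, fun A hA j hj => ?_⟩
  have hA1 : (1:ℝ) ≤ A := by exact_mod_cast (le_max_left _ _).trans hA
  have hA2 : C * L ^ n * n.factorial ≤ A := by
    refine hA0.trans ?_
    exact_mod_cast (le_max_right _ _).trans hA
  have hj1 : (1:ℝ) ≤ j := by exact_mod_cast hj
  refine le_trans ?_ (Real.pow_div_factorial_le_exp _ (by positivity) n)
  rw [div_pow, mul_pow, div_div, le_div_iff₀ (by positivity)]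
  have h1 : (j:ℝ) ^ p ≤ (j:ℝ) ^ n := pow_le_pow_right₀ hj1 (le_max_left _ _)
  have h2 : (A:ℝ) ^ (q + 1) ≤ (A:ℝ) ^ n := pow_le_pow_right₀ hA1 (le_max_right _ _)
  calc C * (A:ℝ) ^ q * (j:ℝ) ^ p * (L ^ n * n.factorial)
      = (C * L ^ n * n.factorial) * (A:ℝ) ^ q * (j:ℝ) ^ p := by ring
    _ ≤ A * (A:ℝ) ^ q * (j:ℝ) ^ n := by gcongr
    _ = (A:ℝ) ^ (q + 1) * (j:ℝ) ^ n := by ring
    _ ≤ (A:ℝ) ^ n * (j:ℝ) ^ n := by gcongr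

/-- the choice of the height `t = A j³` of the cap -/
theorem exists_t (N : ℕ) (hN : 1 ≤ N) : ∃ A : ℕ, 1 ≤ A ∧ ∀ j : ℕ, 1 ≤ j → ∀ κ : ℝ,
    κ = 1 / (16 * N * ((j:ℝ) + 1) ^ 2) →
    32 * ((j * (4 * N * (A * j ^ 3) + 7) ^ 2 : ℕ) : ℝ) ^ 3 *
      ((2 * N * (A * j ^ 3) + 3 : ℕ) : ℝ) < Th κ ((A * j ^ 3 : ℕ) : ℝ) ∧
    ((j * (4 * N * (A * j ^ 3) + 7) ^ 2 : ℕ) : ℝ) ^ 2 <
      2 * Real.exp (κ * ((A * j ^ 3 : ℕ) : ℝ)) := by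
  have hN' : (1:ℝ) ≤ N := by exact_mod_cast hN
  obtain ⟨A, hA1, hA⟩ := poly_exp (160 * 121 ^ 3 * (N:ℝ) ^ 7 + 121 ^ 2 * (N:ℝ) ^ 4 + 3)
    (by positivity) 7 24 (64 * N) (by positivity)
  refine ⟨A, hA1, fun j hj κ hκ => ?_⟩
  have hE := hA A le_rfl j hj
  have hA1' : (1:ℝ) ≤ A := by exact_mod_cast hA1
  have hj1 : (1:ℝ) ≤ j := by exact_mod_cast hj
  have hκ0 : 0 < κ := by rw [hκ]; positivity
  set t : ℕ := A * j ^ 3 with ht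
  have ht' : (t:ℝ) = A * (j:ℝ) ^ 3 := by rw [ht]; push_cast; ring
  have hj3 : (1:ℝ) ≤ (j:ℝ) ^ 3 := one_le_pow₀ hj1
  have ht1 : (1:ℝ) ≤ t := by rw [ht']; exact one_le_mul_of_one_le_of_one_le hA1' hj3
  have hexp : Real.exp ((A:ℝ) * j / (64 * N)) ≤ Real.exp (κ * t) := by
    apply Real.exp_le_exp.2
    rw [hκ, ht', div_mul_eq_mul_div, one_mul, div_le_div_iff₀ (by positivity) (by positivity)]
    have h1 : ((j:ℝ) + 1) ^ 2 ≤ 4 * (j:ℝ) ^ 2 := by nlinarith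
    calc (A:ℝ) * j * (16 * N * ((j:ℝ) + 1) ^ 2) ≤ (A:ℝ) * j * (16 * N * (4 * (j:ℝ) ^ 2)) := by
          gcongr
      _ = _ := by ring
  have hEE := hE.trans hexp
  have h1 : ((4 * N * t + 7 : ℕ) : ℝ) ≤ 11 * N * t := by
    push_cast
    nlinarith [mul_le_mul hN' ht1 zero_le_one (by positivity)]
  have h2 : ((2 * N * t + 3 : ℕ) : ℝ) ≤ 5 * N * t := by
    push_cast
    nlinarith [mul_le_mul hN' ht1 zero_le_one (by positivity)]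
  have h3 : ((j * (4 * N * t + 7) ^ 2 : ℕ) : ℝ) ≤ 121 * (N:ℝ) ^ 2 * (A:ℝ) ^ 2 * (j:ℝ) ^ 7 := by
    have : ((j * (4 * N * t + 7) ^ 2 : ℕ) : ℝ) = (j:ℝ) * ((4 * N * t + 7 : ℕ) : ℝ) ^ 2 := by
      push_cast; ring
    rw [this]
    calc (j:ℝ) * ((4 * N * t + 7 : ℕ) : ℝ) ^ 2 ≤ (j:ℝ) * (11 * N * t) ^ 2 := by gcongr
      _ = _ := by rw [ht']; ring
  have h2' : ((2 * N * t + 3 : ℕ) : ℝ) ≤ 5 * N * A * (j:ℝ) ^ 3 := by
    calc _ ≤ 5 * N * (t:ℝ) := h2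
      _ = _ := by rw [ht']; ring
  have hA7 : (A:ℝ) ≤ (A:ℝ) ^ 7 := le_self_pow₀ hA1' (by norm_num)
  have hA47 : (A:ℝ) ^ 4 ≤ (A:ℝ) ^ 7 := pow_le_pow_right₀ hA1' (by norm_num)
  have hj24 : (j:ℝ) ^ 3 ≤ (j:ℝ) ^ 24 := pow_le_pow_right₀ hj1 (by norm_num)
  have hj14 : (j:ℝ) ^ 14 ≤ (j:ℝ) ^ 24 := pow_le_pow_right₀ hj1 (by norm_num)
  have h4 : 32 * ((j * (4 * N * t + 7) ^ 2 : ℕ) : ℝ) ^ 3 * ((2 * N * t + 3 : ℕ) : ℝ) ≤
      160 * 121 ^ 3 * (N:ℝ) ^ 7 * ((A:ℝ) ^ 7 * (j:ℝ) ^ 24) := by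
    calc _ ≤ 32 * (121 * (N:ℝ) ^ 2 * (A:ℝ) ^ 2 * (j:ℝ) ^ 7) ^ 3 * (5 * N * A * (j:ℝ) ^ 3) := by
          gcongr
      _ = _ := by ring
  have h5 : ((j * (4 * N * t + 7) ^ 2 : ℕ) : ℝ) ^ 2 ≤
      121 ^ 2 * (N:ℝ) ^ 4 * ((A:ℝ) ^ 7 * (j:ℝ) ^ 24) := by
    calc _ ≤ (121 * (N:ℝ) ^ 2 * (A:ℝ) ^ 2 * (j:ℝ) ^ 7) ^ 2 := by gcongr
      _ = 121 ^ 2 * (N:ℝ) ^ 4 * ((A:ℝ) ^ 4 * (j:ℝ) ^ 14) := by ring
      _ ≤ _ := by gcongr
  have h6 : (t:ℝ) + 2 ≤ 3 * ((A:ℝ) ^ 7 * (j:ℝ) ^ 24) := by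
    have : (t:ℝ) ≤ (A:ℝ) ^ 7 * (j:ℝ) ^ 24 := by
      rw [ht']; gcongr
    linarith
  have h7 : 0 ≤ 160 * 121 ^ 3 * (N:ℝ) ^ 7 * ((A:ℝ) ^ 7 * (j:ℝ) ^ 24) := by positivity
  have h8 : 0 ≤ 121 ^ 2 * (N:ℝ) ^ 4 * ((A:ℝ) ^ 7 * (j:ℝ) ^ 24) := by positivity
  have h9 : (160 * 121 ^ 3 * (N:ℝ) ^ 7 + 121 ^ 2 * (N:ℝ) ^ 4 + 3) * (A:ℝ) ^ 7 * (j:ℝ) ^ 24 =
      160 * 121 ^ 3 * (N:ℝ) ^ 7 * ((A:ℝ) ^ 7 * (j:ℝ) ^ 24) +
      121 ^ 2 * (N:ℝ) ^ 4 * ((A:ℝ) ^ 7 * (j:ℝ) ^ 24) + 3 * ((A:ℝ) ^ 7 * (j:ℝ) ^ 24) := by ring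
  rw [h9] at hEE
  set E := Real.exp (κ * t) with hEdef
  have hEp : 0 < E := Real.exp_pos _
  constructor
  · have hTh : Th κ t = (E - 1) / κ - t := by
      unfold Th
      rw [max_eq_left (by positivity : (0:ℝ) ≤ (t:ℝ))]
    have hE1 : 1 ≤ E := by
      rw [hEdef]; exact Real.one_le_exp (by positivity)
    have hκ1 : κ ≤ 1 := by
      rw [hκ, div_le_one (by positivity)]
      nlinarith [mul_le_mul hN' hj1 zero_le_one (by positivity)]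
    have h10 : E - 1 ≤ (E - 1) / κ := by
      rw [le_div_iff₀ hκ0]
      nlinarith
    rw [hTh]
    linarith
  · linarith

end Pool.Agent.Slab3D
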