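import Mathlib

/-!
# Rounding almost nonnegative doubly stochastic matrices to permutations
-/

namespace Pool.Agent.Slab3D

open Finset

private theorem birk_core {I : Type*} [Fintype I] [DecidableEq I] (Z : I → I → ℝ)
    (hr : ∀ i, ∑ k, Z i k = 1) (hc : ∀ k, ∑ i, Z i k = 1)
    (η : ℝ) (hη : ∑ i, ∑ k, max 0 (-(Z i k)) ≤ η) :
    0 ≤ η ∧ ∃ (w : Equiv.Perm I → ℝ) (E : I → I → ℝ), (∀ π, 0 ≤ w π) ∧ ∑ π, w π = 1 ∧
      (∀ i k, 0 ≤ E i k) ∧ (∑ i, ∑ k, E i k ≤ Fintype.card I * η) ∧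
      ∀ ℓ : I → I → ℝ, (1 + η) * ∑ π, w π * ∑ i, ℓ i (π i) =
        ∑ i, ∑ k, (Z i k + max 0 (-(Z i k)) + E i k) * ℓ i k := by
  set R : I → ℝ := fun i => ∑ k, max 0 (-(Z i k)) with hR
  set Cc : I → ℝ := fun k => ∑ i, max 0 (-(Z i k)) with hCc
  have hR0 : ∀ i, 0 ≤ R i := fun i => Finset.sum_nonneg (fun k _ => le_max_left _ _)
  have hC0 : ∀ k, 0 ≤ Cc k := fun k => Finset.sum_nonneg (fun i _ => le_max_left _ _)
  have hη0 : 0 ≤ η := (Finset.sum_nonneg (fun i _ => hR0 i)).trans hη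
  have hsum : ∑ k, Cc k = ∑ i, R i := Finset.sum_comm
  have hRη : ∀ i, R i ≤ η := fun i =>
    (Finset.single_le_sum (fun i _ => hR0 i) (Finset.mem_univ i)).trans hη
  have hCη : ∀ k, Cc k ≤ η := fun k =>
    ((Finset.single_le_sum (fun k _ => hC0 k) (Finset.mem_univ k)).trans hsum.le).trans hη
  set S : ℝ := ∑ i, (η - R i) with hS
  have hS2 : ∑ k, (η - Cc k) = S := by
    rw [hS, Finset.sum_sub_distrib, Finset.sum_sub_distrib, hsum]
  have hS0 : 0 ≤ S := Finset.sum_nonneg (fun i _ => sub_nonneg.mpr (hRη i))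
  set E : I → I → ℝ := fun i k => (η - R i) * (η - Cc k) / S with hE
  have hE0 : ∀ i k, 0 ≤ E i k := fun i k =>
    div_nonneg (mul_nonneg (sub_nonneg.mpr (hRη i)) (sub_nonneg.mpr (hCη k))) hS0
  have hErow : ∀ i, ∑ k, E i k = η - R i := by
    intro i
    rw [hE]
    simp only []
    rw [← Finset.sum_div, ← Finset.mul_sum, hS2]
    by_cases h : S = 0
    · have h1 : η - R i = 0 :=
        (Finset.sum_eq_zero_iff_of_nonneg (fun i _ => sub_nonneg.mpr (hRη i))).mp h i
          (Finset.mem_univ i)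
      rw [h1, zero_mul, zero_div]
    · exact mul_div_cancel_right₀ _ h
  have hEcol : ∀ k, ∑ i, E i k = η - Cc k := by
    intro k
    rw [hE]
    simp only []
    rw [← Finset.sum_div, ← Finset.sum_mul, ← hS]
    by_cases h : S = 0
    · have h2 : ∑ k, (η - Cc k) = 0 := hS2.trans h
      have h1 : η - Cc k = 0 :=
        (Finset.sum_eq_zero_iff_of_nonneg (fun k _ => sub_nonneg.mpr (hCη k))).mp h2 k
          (Finset.mem_univ k)
      rw [h1, mul_zero, zero_div]
    · exact mul_div_cancel_left₀ _ h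
  have h1η : 0 < 1 + η := by linarith
  have hpos : ∀ i k, 0 ≤ Z i k + max 0 (-(Z i k)) := by
    intro i k
    have := le_max_right 0 (-(Z i k))
    linarith
  set M : Matrix I I ℝ := fun i k => (Z i k + max 0 (-(Z i k)) + E i k) / (1 + η) with hM
  have hMds : M ∈ doublyStochastic ℝ I := by
    rw [mem_doublyStochastic_iff_sum]
    refine ⟨?_, ?_, ?_⟩
    · intro i k
      exact div_nonneg (add_nonneg (hpos i k) (hE0 i k)) h1η.le
    · intro i
      rw [hM]
      simp only []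
      rw [← Finset.sum_div, Finset.sum_add_distrib, Finset.sum_add_distrib, hr, hErow]
      rw [div_eq_one_iff_eq h1η.ne']
      simp only [hR]
      ring
    · intro k
      rw [hM]
      simp only []
      rw [← Finset.sum_div, Finset.sum_add_distrib, Finset.sum_add_distrib, hc, hEcol]
      rw [div_eq_one_iff_eq h1η.ne']
      simp only [hCc]
      ring
  obtain ⟨w, hw0, hw1, hwM⟩ := exists_eq_sum_perm_of_mem_doublyStochastic hMds
  refine ⟨hη0, w, E, hw0, hw1, hE0, ?_, ?_⟩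
  · rw [Finset.sum_congr rfl (fun i _ => hErow i)]
    calc ∑ i, (η - R i) ≤ ∑ _i : I, η := Finset.sum_le_sum (fun i _ => by linarith [hR0 i])
      _ = Fintype.card I * η := by rw [Finset.sum_const, Finset.card_univ, nsmul_eq_mul]
  · intro ℓ
    have h1 : ∀ i k, Z i k + max 0 (-(Z i k)) + E i k =
        (1 + η) * ∑ π : Equiv.Perm I, w π * (if π i = k then 1 else 0) := by
      intro i k
      have h2 : M i k = ∑ π : Equiv.Perm I, w π * (if π i = k then 1 else 0) := by
        rw [← hwM, Matrix.sum_apply]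
        refine Finset.sum_congr rfl (fun π _ => ?_)
        rw [Matrix.smul_apply, smul_eq_mul]
        congr 1
        rw [Equiv.Perm.permMatrix, PEquiv.toMatrix_apply, Equiv.toPEquiv_apply]
        simp
      rw [← h2, hM]
      simp only []
      field_simp
    simp only [h1]
    have h3 : ∀ i, ∑ k, (1 + η) * (∑ π : Equiv.Perm I, w π * (if π i = k then 1 else 0)) * ℓ i k =
        (1 + η) * ∑ π : Equiv.Perm I, w π * ℓ i (π i) := by
      intro i
      simp only [mul_assoc, Finset.sum_mul]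
      rw [← Finset.mul_sum, Finset.sum_comm]
      congr 1
      refine Finset.sum_congr rfl (fun π _ => ?_)
      rw [← Finset.mul_sum]
      congr 1
      simp
    rw [Finset.sum_congr rfl (fun i _ => h3 i), ← Finset.mul_sum, Finset.sum_comm]
    congr 1
    refine Finset.sum_congr rfl (fun π _ => ?_)
    rw [Finset.mul_sum]

/-- the mass of the permutations using a nonpositive entry -/
private theorem birk_bad {I : Type*} [Fintype I] [DecidableEq I] (Z : I → I → ℝ)
    (η : ℝ) (hη0 : 0 ≤ η) (w : Equiv.Perm I → ℝ) (E : I → I → ℝ) (hw0 : ∀ π, 0 ≤ w π)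
    (hE0 : ∀ i k, 0 ≤ E i k) (hE : ∑ i, ∑ k, E i k ≤ Fintype.card I * η)
    (hid : ∀ ℓ : I → I → ℝ, (1 + η) * ∑ π, w π * ∑ i, ℓ i (π i) =
        ∑ i, ∑ k, (Z i k + max 0 (-(Z i k)) + E i k) * ℓ i k) :
    ∑ π ∈ Finset.univ.filter (fun π : Equiv.Perm I => ¬ ∀ i, 0 < Z i (π i)), w π ≤
      Fintype.card I * η := by
  classical
  have h1 := hid (fun i k => if Z i k ≤ 0 then 1 else 0)
  have h2 : ∑ i, ∑ k, (Z i k + max 0 (-(Z i k)) + E i k) * (if Z i k ≤ 0 then (1:ℝ) else 0) ≤
      Fintype.card I * η := by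
    refine le_trans (Finset.sum_le_sum (fun i _ => Finset.sum_le_sum (fun k _ => ?_))) hE
    split_ifs with h
    · rw [max_eq_right (by linarith)]
      linarith
    · rw [mul_zero]
      exact hE0 i k
  have h3 : ∑ π ∈ Finset.univ.filter (fun π : Equiv.Perm I => ¬ ∀ i, 0 < Z i (π i)), w π ≤
      ∑ π : Equiv.Perm I, w π * ∑ i, (if Z i (π i) ≤ 0 then (1:ℝ) else 0) := by
    rw [Finset.sum_filter]
    refine Finset.sum_le_sum (fun π _ => ?_)
    by_cases h : ∀ i, 0 < Z i (π i)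
    · rw [if_neg (not_not.mpr h)]
      exact mul_nonneg (hw0 π) (Finset.sum_nonneg (fun i _ => by split_ifs <;> norm_num))
    · rw [if_pos h]
      push Not at h
      obtain ⟨i, hi⟩ := h
      have h4 : (1:ℝ) ≤ ∑ i, (if Z i (π i) ≤ 0 then (1:ℝ) else 0) := by
        calc (1:ℝ) = (if Z i (π i) ≤ 0 then (1:ℝ) else 0) := by rw [if_pos hi]
          _ ≤ _ := Finset.single_le_sum (f := fun i => if Z i (π i) ≤ 0 then (1:ℝ) else 0)
            (fun i _ => by split_ifs <;> norm_num) (Finset.mem_univ i)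
      calc w π = w π * 1 := (mul_one _).symm
        _ ≤ _ := mul_le_mul_of_nonneg_left h4 (hw0 π)
  have h5 : 0 ≤ ∑ π : Equiv.Perm I, w π * ∑ i, (if Z i (π i) ≤ 0 then (1:ℝ) else 0) :=
    Finset.sum_nonneg (fun π _ => mul_nonneg (hw0 π)
      (Finset.sum_nonneg (fun i _ => by split_ifs <;> norm_num)))
  nlinarith

/-- Let `Z` be a real square matrix with row and column sums `1` and total negative part at most
`η`, where `N η < 1`, `N` at least the size of the matrix.  If the linear cost `ℓ` (with entries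
at most `A` in absolute value) of `Z` is smaller than `∑ ℓ i i - 8 N² A η`, then there is a permutation
using only positive entries of `Z` whose cost is
smaller than `∑ ℓ i i`. -/
theorem birk_round {I : Type*} [Fintype I] [DecidableEq I] (Z : I → I → ℝ)
    (hr : ∀ i, ∑ k, Z i k = 1) (hc : ∀ k, ∑ i, Z i k = 1)
    (η : ℝ) (hη : ∑ i, ∑ k, max 0 (-(Z i k)) ≤ η)
    (N : ℕ) (hN : Fintype.card I ≤ N) (hNη : N * η < 1)
    (ℓ : I → I → ℝ) (A : ℝ) (hA : 0 ≤ A) (hℓ : ∀ i k, |ℓ i k| ≤ A)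
    (hcost : ∑ i, ∑ k, Z i k * ℓ i k < ∑ i, ℓ i i - 8 * (N:ℝ)^2 * A * η) :
    ∃ π : Equiv.Perm I, (∀ i, 0 < Z i (π i)) ∧ ∑ i, ℓ i (π i) < ∑ i, ℓ i i := by
  classical
  obtain ⟨hη0, w, E, hw0, hw1, hE0, hE, hid⟩ := birk_core Z hr hc η hη
  have hbad := birk_bad Z η hη0 w E hw0 hE0 hE hid
  by_contra hno
  push Not at hno
  set c : ℝ := (Fintype.card I : ℝ) with hcdef
  set τ : ℝ := ∑ i, ℓ i i with hτ
  have hc0 : 0 ≤ c := Nat.cast_nonneg _
  have hcN : c ≤ N := by rw [hcdef]; exact_mod_cast hN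
  have hL : ∀ π : Equiv.Perm I, |∑ i, ℓ i (π i)| ≤ c * A := by
    intro π
    refine (Finset.abs_sum_le_sum_abs _ _).trans ?_
    refine (Finset.sum_le_sum (fun i _ => hℓ i (π i))).trans ?_
    rw [Finset.sum_const, Finset.card_univ, nsmul_eq_mul]
  have hτA : |τ| ≤ c * A := hL 1
  -- lower bound of the average
  set B := Finset.univ.filter (fun π : Equiv.Perm I => ¬ ∀ i, 0 < Z i (π i)) with hB
  set β : ℝ := ∑ π ∈ B, w π with hβ
  have hβ0 : 0 ≤ β := Finset.sum_nonneg (fun π _ => hw0 π)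
  have hlow : τ - 2 * c * A * β ≤ ∑ π, w π * ∑ i, ℓ i (π i) := by
    have h1 : ∀ π, w π * τ - (if π ∈ B then w π * (2 * c * A) else 0) ≤ w π * ∑ i, ℓ i (π i) := by
      intro π
      split_ifs with h
      · rw [← mul_sub]
        refine mul_le_mul_of_nonneg_left ?_ (hw0 π)
        have h2 := abs_le.mp (hL π)
        have h3 := abs_le.mp hτA
        linarith [h2.1, h3.2]
      · rw [sub_zero]
        refine mul_le_mul_of_nonneg_left ?_ (hw0 π)
        apply hno
        by_contra hcon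
        exact h (Finset.mem_filter.mpr ⟨Finset.mem_univ _, hcon⟩)
    have h2 := Finset.sum_le_sum (s := Finset.univ) (fun π _ => h1 π)
    rw [Finset.sum_sub_distrib, ← Finset.sum_mul, hw1, one_mul, ← Finset.sum_filter] at h2
    have h3 : ∑ π ∈ Finset.univ.filter (fun π => π ∈ B), w π * (2 * c * A) = 2 * c * A * β := by
      rw [← Finset.sum_mul, hβ, mul_comm]
      congr 2
      ext π
      simp
    rw [h3] at h2
    exact h2
  -- upper bound
  have hup : (1 + η) * ∑ π, w π * ∑ i, ℓ i (π i) ≤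
      ∑ i, ∑ k, Z i k * ℓ i k + A * η + A * (c * η) := by
    rw [hid]
    have h1 : ∀ i k, (Z i k + max 0 (-(Z i k)) + E i k) * ℓ i k ≤
        Z i k * ℓ i k + A * max 0 (-(Z i k)) + A * E i k := by
      intro i k
      have h2 := (abs_le.mp (hℓ i k)).2
      have h3 : max 0 (-(Z i k)) * ℓ i k ≤ max 0 (-(Z i k)) * A :=
        mul_le_mul_of_nonneg_left h2 (le_max_left _ _)
      have h4 : E i k * ℓ i k ≤ E i k * A := mul_le_mul_of_nonneg_left h2 (hE0 i k)
      nlinarith
    refine (Finset.sum_le_sum (fun i _ => Finset.sum_le_sum (fun k _ => h1 i k))).trans ?_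
    simp only [Finset.sum_add_distrib, ← Finset.mul_sum]
    have h5 := mul_le_mul_of_nonneg_left hη hA
    have h6 := mul_le_mul_of_nonneg_left hE hA
    linarith
  rcases Nat.eq_zero_or_pos (Fintype.card I) with h0 | hpos
  · have hI : IsEmpty I := Fintype.card_eq_zero_iff.mp h0
    rw [hτ] at hcost
    simp only [Finset.univ_eq_empty, Finset.sum_empty] at hcost
    have : 0 ≤ 8 * (N:ℝ) ^ 2 * A * η := by positivity
    linarith
  · have hc1 : 1 ≤ c := by rw [hcdef]; exact_mod_cast hpos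
    have hη1 : η ≤ 1 := by nlinarith
    have hAη : 0 ≤ A * η := mul_nonneg hA hη0
    have h1 : τ - 2 * c * A * (c * η) ≤ ∑ π, w π * ∑ i, ℓ i (π i) := by
      refine le_trans ?_ hlow
      have : 2 * c * A * β ≤ 2 * c * A * (c * η) := mul_le_mul_of_nonneg_left hbad (by positivity)
      linarith
    have h2 : (1 + η) * (τ - 2 * c * A * (c * η)) ≤
        ∑ i, ∑ k, Z i k * ℓ i k + A * η + A * (c * η) :=
      (mul_le_mul_of_nonneg_left h1 (by linarith)).trans hup
    have h3 : -(c * A) * η ≤ τ * η :=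
      mul_le_mul_of_nonneg_right (by linarith [(abs_le.mp hτA).1]) hη0
    have h4 : (c ^ 2) * (A * η) ≤ (N:ℝ) ^ 2 * (A * η) :=
      mul_le_mul_of_nonneg_right (by nlinarith) hAη
    have h5 : c * (A * η) ≤ c ^ 2 * (A * η) := mul_le_mul_of_nonneg_right (by nlinarith) hAη
    have h6 : A * η ≤ c ^ 2 * (A * η) := by nlinarith
    have h7 : η * (c ^ 2 * (A * η)) ≤ 1 * (c ^ 2 * (A * η)) :=
      mul_le_mul_of_nonneg_right hη1 (by positivity)
    nlinarith

/-- the version without cost -/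
theorem birk_round0 {I : Type*} [Fintype I] [DecidableEq I] (Z : I → I → ℝ)
    (hr : ∀ i, ∑ k, Z i k = 1) (hc : ∀ k, ∑ i, Z i k = 1)
    (η : ℝ) (hη : ∑ i, ∑ k, max 0 (-(Z i k)) ≤ η)
    (N : ℕ) (hN : Fintype.card I ≤ N) (hNη : N * η < 1) :
    ∃ π : Equiv.Perm I, ∀ i, 0 < Z i (π i) := by
  classical
  obtain ⟨hη0, w, E, hw0, hw1, hE0, hE, hid⟩ := birk_core Z hr hc η hη
  have hbad := birk_bad Z η hη0 w E hw0 hE0 hE hid
  by_contra hno
  push Not at hno
  have h1 : Finset.univ.filter (fun π : Equiv.Perm I => ¬ ∀ i, 0 < Z i (π i)) = Finset.univ := by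
    rw [Finset.filter_eq_self]
    intro π _
    push Not
    exact hno π
  rw [h1, hw1] at hbad
  have h2 : (Fintype.card I : ℝ) * η ≤ N * η :=
    mul_le_mul_of_nonneg_right (by exact_mod_cast hN) hη0
  linarith

end Pool.Agent.Slab3D
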