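import Pool.Agent.Slab3D.RefY

/-!
# The reference family in the planar case `j = 1`, `n` even
-/

namespace Pool.Agent.Slab3D

open Pool.Agent.Dimer3D Finset

/-- the profile `2k+2` for `x < x0`, `2k` for `x ≥ x0` -/
def prof (k : ℕ) (x0 x : ℤ) : ℤ := if x < x0 then 2 * k + 2 else 2 * k

section
variable (m n : ℕ) (h : ℤ → ℤ)

/-- the rectangles `{x,x+1} × {y,...,y+3}` -/
def RefP_PR (e c : ℤ) (v : V) : Prop :=
  v.1 = 1 ∧ (dom m n h v.2.1 (RefY_blk c v.2.2) ∧ dom m n h v.2.1 (RefY_blk c v.2.2 + 3)) ∧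
    (dom m n h (RefY_pr e v.2.1) (RefY_blk c v.2.2) ∧
      dom m n h (RefY_pr e v.2.1) (RefY_blk c v.2.2 + 3))

/-- flip map of the 8-cycles -/
def RefP_aR (e c : ℤ) (v : V) : V :=
  if (v.2.2 - c) % 4 = 0 ∨ (v.2.2 - c) % 4 = 3 then (v.1, RefY_pr e v.2.1, v.2.2)
  else (v.1, v.2.1, if (v.2.2 - c) % 4 = 1 then v.2.2 + 1 else v.2.2 - 1)

end

section
variable {j m n : ℕ} {h : ℤ → ℤ}

lemma RefP_PX_ok (hj : 1 ≤ j) (hn : Even n) (h0 : ∀ x, 0 ≤ h x) (hev : ∀ x, Even (h x)) (e : ℤ) :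
    OK j m n (sigY j m n) h (RefY_flip (RefY_PX m n h e) (RefY_aX e) (sigY j m n)) := by
  have hmemb : ∀ v, RefY_PX m n h e v → v ∈ boxF j m n := by
    rintro ⟨z, x, y⟩ ⟨h1, h2, h3⟩
    simp only at h1 h2 h3
    rw [RefY_mem]
    unfold dom at h2
    have := h0 x
    omega
  refine ⟨RefY_flip_tiling (sigY_tiling j m n hn) hmemb ?_ ?_ ?_ ?_, ?_⟩
  · rintro ⟨z, x, y⟩ hP
    have hb := hmemb _ hP
    rw [RefY_sig hb]
    obtain ⟨h1, h2, h3⟩ := hP
    exact ⟨h1, RefY_dom_sig hn hev h2, RefY_dom_sig hn hev h3⟩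
  · rintro ⟨z, x, y⟩ ⟨h1, h2, h3⟩
    refine ⟨h1, h3, ?_⟩
    simp only [RefY_aX, RefY_pr_pr]
    exact h2
  · rintro ⟨z, x, y⟩ _
    right; left
    exact ⟨rfl, RefY_pr_abs e x, rfl⟩
  · rintro ⟨z, x, y⟩ _
    simp only [RefY_aX, RefY_pr_pr]
  · intro v _ hnd
    unfold RefY_flip
    rw [if_neg (fun hP => hnd hP.2.1)]

lemma RefP_ht_PX (hj : 1 ≤ j) (hn : Even n) (h0 : ∀ x, 0 ≤ h x) (hev : ∀ x, Even (h x))
    (e a b : ℤ) :
    |ht j (tf (sigY j m n) - tf (RefY_flip (RefY_PX m n h e) (RefY_aX e) (sigY j m n))) a b|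
      ≤ 1 := by
  classical
  set R := RefY_flip (RefY_PX m n h e) (RefY_aX e) (sigY j m n) with hR
  have hval : ∀ z y : ℤ, tf R 1 z a y =
      if z = 1 ∧ ((a + e) % 2 = 1 ∧ dom m n h a y ∧ dom m n h (a + 1) y) then eps (1, a, y)
      else 0 := by
    intro z y
    unfold tf
    by_cases hc : z = 1 ∧ ((a + e) % 2 = 1 ∧ dom m n h a y ∧ dom m n h (a + 1) y)
    · rw [if_pos hc]
      obtain ⟨rfl, c1, c2, c3⟩ := hc
      have hpr : RefY_pr e a = a + 1 := by unfold RefY_pr; rw [if_pos c1]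
      have hP : RefY_PX m n h e (1, a, y) := ⟨rfl, c2, by simp only [hpr]; exact c3⟩
      rw [if_pos]
      rw [hR]
      unfold RefY_flip
      rw [if_pos hP]
      simp only [RefY_aX, nx, hpr]
    · rw [if_neg hc, if_neg]
      intro hcon
      rw [hR] at hcon
      unfold RefY_flip at hcon
      by_cases hP : RefY_PX m n h e (z, a, y)
      · rw [if_pos hP] at hcon
        simp only [RefY_aX, nx, Prod.mk.injEq, true_and, and_true] at hcon
        apply hc
        obtain ⟨p1, p2, p3⟩ := hP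
        simp only at p1 p2 p3
        rw [hcon] at p3
        refine ⟨p1, ?_, p2, p3⟩
        unfold RefY_pr at hcon
        by_contra hne
        rw [if_neg hne] at hcon
        omega
      · rw [if_neg hP] at hcon
        have h1 := RefY_sig_x (j := j) (m := m) (n := n) (z, a, y)
        rw [hcon] at h1
        simp only [nx] at h1
        omega
  have hsum : ht j (tf (sigY j m n) - tf R) a b =
      - ∑ y ∈ Icc 1 b, (if (a + e) % 2 = 1 ∧ dom m n h a y ∧ dom m n h (a + 1) y then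
        eps (1, a, y) else 0) := by
    unfold ht
    rw [← Finset.sum_neg_distrib]
    refine Finset.sum_congr rfl (fun y _ => ?_)
    have h1 : ∀ z ∈ Icc (1 : ℤ) (j : ℤ), (tf (sigY j m n) - tf R) 1 z a y =
        if z = 1 then -(if (a + e) % 2 = 1 ∧ dom m n h a y ∧ dom m n h (a + 1) y then
          eps (1, a, y) else 0) else 0 := by
      intro z _
      simp only [Pi.sub_apply]
      rw [RefY_tf1_zero RefY_sig_x, hval]
      by_cases hz : z = 1
      · subst hz
        simp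
      · rw [if_neg hz, if_neg (fun hc => hz hc.1)]; ring
    rw [Finset.sum_congr rfl h1, Finset.sum_ite_eq' (Icc (1 : ℤ) (j : ℤ)) 1, if_pos]
    rw [Finset.mem_Icc]
    omega
  rw [hsum, abs_neg]
  by_cases hc : (a + e) % 2 = 1 ∧ 1 ≤ a ∧ a + 1 ≤ m
  · rcases lt_or_ge b 0 with hb | hb
    · rw [Finset.Icc_eq_empty (by omega)]
      simp
    · obtain ⟨k, rfl⟩ := Int.eq_ofNat_of_zero_le hb
      have hn2 := Nat.even_iff.mp hn
      have hh1 := Int.even_iff.mp (hev a)
      have hh2 := Int.even_iff.mp (hev (a + 1))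
      have e1 : ∀ y ∈ Icc (1 : ℤ) (k : ℤ),
          (if (a + e) % 2 = 1 ∧ dom m n h a y ∧ dom m n h (a + 1) y then eps (1, a, y) else 0) =
          if max (h a) (h (a + 1)) < y ∧ y ≤ (n : ℤ) then eps (1, a, y) else 0 := by
        intro y _
        refine if_congr ?_ rfl rfl
        unfold dom
        constructor
        · rintro ⟨_, ⟨_, _, c1, c2⟩, _, _, c3, _⟩
          exact ⟨max_lt c1 c3, c2⟩
        · rintro ⟨c1, c2⟩
          have c3 := max_lt_iff.mp c1
          refine ⟨hc.1, ⟨hc.2.1, by omega, c3.1, c2⟩, by omega, hc.2.2, c3.2, c2⟩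
      rw [Finset.sum_congr rfl e1, RefY_alt a (max (h a) (h (a + 1))) n
        (le_max_of_le_left (h0 a)) (by rcases max_choice (h a) (h (a + 1)) with hm | hm <;>
          rw [hm] <;> assumption) (by omega) k]
      split_ifs
      · exact RefY_eps_abs _
      · norm_num
  · have : ∑ y ∈ Icc 1 b, (if (a + e) % 2 = 1 ∧ dom m n h a y ∧ dom m n h (a + 1) y then
        eps (1, a, y) else 0) = 0 := by
      refine Finset.sum_eq_zero (fun y _ => ?_)
      rw [if_neg]
      rintro ⟨c1, c2, c3⟩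
      unfold dom at c2 c3
      exact hc ⟨c1, c2.1, c3.2.1⟩
    rw [this]; norm_num


lemma RefP_PR_ok (hj : 1 ≤ j) (hn : Even n) (h0 : ∀ x, 0 ≤ h x) (e : ℤ) {c : ℤ}
    (hc : c % 2 = 1) :
    OK j m n (sigY j m n) h (RefY_flip (RefP_PR m n h e c) (RefP_aR e c) (sigY j m n)) := by
  have hmemb : ∀ v, RefP_PR m n h e c v → v ∈ boxF j m n := by
    rintro ⟨z, x, y⟩ ⟨h1, ⟨h2, h3⟩, h4, h5⟩
    simp only [RefY_blk] at h1 h2 h3
    rw [RefY_mem]
    unfold dom at h2 h3
    have := h0 x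
    omega
  refine ⟨RefY_flip_tiling (sigY_tiling j m n hn) hmemb ?_ ?_ ?_ ?_, ?_⟩
  · rintro ⟨z, x, y⟩ hP
    have hb := hmemb _ hP
    rw [RefY_sig hb]
    have e1 : RefY_blk c (if y % 2 = 1 then y + 1 else y - 1) = RefY_blk c y := by
      unfold RefY_blk
      split_ifs <;> omega
    unfold RefP_PR at hP ⊢
    simp only at hP ⊢
    rw [e1]
    exact hP
  · rintro ⟨z, x, y⟩ hP
    unfold RefP_PR at hP
    obtain ⟨h1, h2, h3⟩ := hP
    simp only at h1 h2 h3
    unfold RefP_aR
    simp only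
    by_cases hy : (y - c) % 4 = 0 ∨ (y - c) % 4 = 3
    · rw [if_pos hy]
      refine ⟨h1, h3, ?_⟩
      simp only [RefY_pr_pr]
      exact h2
    · rw [if_neg hy]
      have e1 : RefY_blk c (if (y - c) % 4 = 1 then y + 1 else y - 1) = RefY_blk c y := by
        unfold RefY_blk
        split_ifs <;> omega
      refine ⟨h1, ?_, ?_⟩
      · simp only [e1]; exact h2
      · simp only [e1]; exact h3
  · rintro ⟨z, x, y⟩ _
    unfold RefP_aR
    simp only
    by_cases hy : (y - c) % 4 = 0 ∨ (y - c) % 4 = 3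
    · rw [if_pos hy]
      right; left
      exact ⟨rfl, RefY_pr_abs e x, rfl⟩
    · rw [if_neg hy]
      right; right
      refine ⟨rfl, rfl, ?_⟩
      simp only
      split_ifs
      · have : y - (y + 1) = -1 := by ring
        rw [this]; norm_num
      · have : y - (y - 1) = 1 := by ring
        rw [this]; norm_num
  · rintro ⟨z, x, y⟩ _
    unfold RefP_aR
    simp only
    by_cases hy : (y - c) % 4 = 0 ∨ (y - c) % 4 = 3
    · rw [if_pos hy]
      simp only
      rw [if_pos hy, RefY_pr_pr]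
    · rw [if_neg hy]
      simp only
      by_cases hy1 : (y - c) % 4 = 1
      · rw [if_pos hy1, if_neg (by omega), if_neg (by omega)]
        simp
      · rw [if_neg hy1, if_neg (by omega), if_pos (by omega)]
        simp
  · rintro ⟨z, x, y⟩ _ hnd
    unfold RefY_flip
    rw [if_neg]
    rintro ⟨h1, ⟨h2, h3⟩, _⟩
    apply hnd
    simp only at h1 h2 h3 ⊢
    unfold dom RefY_blk at *
    omega

lemma RefP_eps3 (z x y : ℤ) : eps (z, x, y + 3) = - eps (z, x, y) := by
  have e : y + 3 = ((y + 1) + 1) + 1 := by ring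
  rw [e, RefY_eps_succ, RefY_eps_succ, RefY_eps_succ]; ring

/-- alternating sums in the rectangles -/
lemma RefP_alt (a H n c : ℤ) (hH0 : 0 ≤ H) (k : ℕ) :
    ∑ y ∈ Icc (1 : ℤ) k, (if ((y - c) % 4 = 0 ∨ (y - c) % 4 = 3) ∧ H < RefY_blk c y ∧
        RefY_blk c y + 3 ≤ n then eps (1, a, y) else 0) =
      if (k - c) % 4 ≠ 3 ∧ H < RefY_blk c k ∧ RefY_blk c k + 3 ≤ n then
        eps (1, a, RefY_blk c k) else 0 := by
  induction k with
  | zero =>
    rw [if_neg (by unfold RefY_blk; push_cast; omega)]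
    simp
  | succ k ih =>
    have e : Icc (1 : ℤ) ((k + 1 : ℕ) : ℤ) = insert ((k : ℤ) + 1) (Icc (1 : ℤ) k) := by
      ext t
      simp only [Finset.mem_Icc, Finset.mem_insert]
      push_cast
      omega
    rw [e, Finset.sum_insert (by simp), ih]
    push_cast
    have hcase : ((k : ℤ) + 1 - c) % 4 = 0 ∨ ((k : ℤ) + 1 - c) % 4 = 1 ∨
      ((k : ℤ) + 1 - c) % 4 = 2 ∨ ((k : ℤ) + 1 - c) % 4 = 3 := by omega
    rcases hcase with h4 | h4 | h4 | h4
    · have e1 : RefY_blk c ((k : ℤ) + 1) = (k : ℤ) + 1 := by unfold RefY_blk; omega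
      rw [if_neg (c := ((k : ℤ) - c) % 4 ≠ 3 ∧ _) (by omega), add_zero, e1]
      refine if_congr ?_ rfl rfl
      omega
    · have e1 : RefY_blk c ((k : ℤ) + 1) = RefY_blk c (k : ℤ) := by unfold RefY_blk; omega
      rw [if_neg (c := (_ ∨ _) ∧ _) (by omega), zero_add, e1]
      refine if_congr ?_ rfl rfl
      omega
    · have e1 : RefY_blk c ((k : ℤ) + 1) = RefY_blk c (k : ℤ) := by unfold RefY_blk; omega
      rw [if_neg (c := (_ ∨ _) ∧ _) (by omega), zero_add, e1]
      refine if_congr ?_ rfl rfl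
      omega
    · have e1 : RefY_blk c ((k : ℤ) + 1) = RefY_blk c (k : ℤ) := by unfold RefY_blk; omega
      have e2 : (k : ℤ) + 1 = RefY_blk c (k : ℤ) + 3 := by unfold RefY_blk; omega
      rw [e1]
      by_cases hG : H < RefY_blk c (k : ℤ) ∧ RefY_blk c (k : ℤ) + 3 ≤ n
      · rw [if_pos (by omega), if_pos (by omega), if_neg (by omega), e2, RefP_eps3]
        ring
      · rw [if_neg (by omega), if_neg (by omega), if_neg (by omega)]
        ring

lemma RefP_ht_PR (hj : 1 ≤ j) (h0 : ∀ x, 0 ≤ h x) (e c a b : ℤ) :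
    |ht j (tf (sigY j m n) -
      tf (RefY_flip (RefP_PR m n h e c) (RefP_aR e c) (sigY j m n))) a b| ≤ 1 := by
  classical
  set R := RefY_flip (RefP_PR m n h e c) (RefP_aR e c) (sigY j m n) with hR
  have hval : ∀ z y : ℤ, tf R 1 z a y =
      if z = 1 ∧ ((a + e) % 2 = 1 ∧ ((y - c) % 4 = 0 ∨ (y - c) % 4 = 3) ∧
        (dom m n h a (RefY_blk c y) ∧ dom m n h a (RefY_blk c y + 3)) ∧
        (dom m n h (a + 1) (RefY_blk c y) ∧ dom m n h (a + 1) (RefY_blk c y + 3))) then
        eps (1, a, y) else 0 := by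
    intro z y
    unfold tf
    by_cases hc : z = 1 ∧ ((a + e) % 2 = 1 ∧ ((y - c) % 4 = 0 ∨ (y - c) % 4 = 3) ∧
        (dom m n h a (RefY_blk c y) ∧ dom m n h a (RefY_blk c y + 3)) ∧
        (dom m n h (a + 1) (RefY_blk c y) ∧ dom m n h (a + 1) (RefY_blk c y + 3)))
    · rw [if_pos hc]
      obtain ⟨rfl, c1, c2, c3, c4⟩ := hc
      have hpr : RefY_pr e a = a + 1 := by unfold RefY_pr; rw [if_pos c1]
      have hP : RefP_PR m n h e c (1, a, y) := ⟨rfl, c3, by simp only [hpr]; exact c4⟩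
      rw [if_pos]
      rw [hR]
      unfold RefY_flip
      rw [if_pos hP]
      simp only [RefP_aR, if_pos c2, nx, hpr]
    · rw [if_neg hc, if_neg]
      intro hcon
      rw [hR] at hcon
      unfold RefY_flip at hcon
      by_cases hP : RefP_PR m n h e c (z, a, y)
      · rw [if_pos hP] at hcon
        unfold RefP_aR at hcon
        simp only at hcon
        by_cases hy : (y - c) % 4 = 0 ∨ (y - c) % 4 = 3
        · rw [if_pos hy] at hcon
          simp only [nx, Prod.mk.injEq, true_and, and_true] at hcon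
          apply hc
          obtain ⟨p1, p2, p3⟩ := hP
          simp only at p1 p2 p3
          rw [hcon] at p3
          refine ⟨p1, ?_, hy, p2, p3⟩
          unfold RefY_pr at hcon
          by_contra hne
          rw [if_neg hne] at hcon
          omega
        · rw [if_neg hy] at hcon
          simp only [nx, Prod.mk.injEq, true_and] at hcon
          omega
      · rw [if_neg hP] at hcon
        have h1 := RefY_sig_x (j := j) (m := m) (n := n) (z, a, y)
        rw [hcon] at h1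
        simp only [nx] at h1
        omega
  have hsum : ht j (tf (sigY j m n) - tf R) a b =
      - ∑ y ∈ Icc 1 b, (if ((a + e) % 2 = 1 ∧ ((y - c) % 4 = 0 ∨ (y - c) % 4 = 3) ∧
        (dom m n h a (RefY_blk c y) ∧ dom m n h a (RefY_blk c y + 3)) ∧
        (dom m n h (a + 1) (RefY_blk c y) ∧ dom m n h (a + 1) (RefY_blk c y + 3))) then
        eps (1, a, y) else 0) := by
    unfold ht
    rw [← Finset.sum_neg_distrib]
    refine Finset.sum_congr rfl (fun y _ => ?_)
    have h1 : ∀ z ∈ Icc (1 : ℤ) (j : ℤ), (tf (sigY j m n) - tf R) 1 z a y =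
        if z = 1 then -(if ((a + e) % 2 = 1 ∧ ((y - c) % 4 = 0 ∨ (y - c) % 4 = 3) ∧
          (dom m n h a (RefY_blk c y) ∧ dom m n h a (RefY_blk c y + 3)) ∧
          (dom m n h (a + 1) (RefY_blk c y) ∧ dom m n h (a + 1) (RefY_blk c y + 3))) then
          eps (1, a, y) else 0) else 0 := by
      intro z _
      simp only [Pi.sub_apply]
      rw [RefY_tf1_zero RefY_sig_x, hval]
      by_cases hz : z = 1
      · subst hz
        simp
      · rw [if_neg hz, if_neg (fun hc => hz hc.1)]; ring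
    rw [Finset.sum_congr rfl h1, Finset.sum_ite_eq' (Icc (1 : ℤ) (j : ℤ)) 1, if_pos]
    rw [Finset.mem_Icc]
    omega
  rw [hsum, abs_neg]
  by_cases hc : (a + e) % 2 = 1 ∧ 1 ≤ a ∧ a + 1 ≤ m
  · rcases lt_or_ge b 0 with hb | hb
    · rw [Finset.Icc_eq_empty (by omega)]
      simp
    · obtain ⟨k, rfl⟩ := Int.eq_ofNat_of_zero_le hb
      have e1 : ∀ y ∈ Icc (1 : ℤ) (k : ℤ),
          (if ((a + e) % 2 = 1 ∧ ((y - c) % 4 = 0 ∨ (y - c) % 4 = 3) ∧
            (dom m n h a (RefY_blk c y) ∧ dom m n h a (RefY_blk c y + 3)) ∧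
            (dom m n h (a + 1) (RefY_blk c y) ∧ dom m n h (a + 1) (RefY_blk c y + 3))) then
            eps (1, a, y) else 0) =
          if ((y - c) % 4 = 0 ∨ (y - c) % 4 = 3) ∧ max (h a) (h (a + 1)) < RefY_blk c y ∧
            RefY_blk c y + 3 ≤ (n : ℤ) then eps (1, a, y) else 0 := by
        intro y _
        refine if_congr ?_ rfl rfl
        unfold dom
        constructor
        · rintro ⟨_, c0, ⟨⟨_, _, c1, _⟩, _, _, _, c2⟩, ⟨_, _, c3, _⟩, _⟩
          exact ⟨c0, max_lt c1 c3, c2⟩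
        · rintro ⟨c0, c1, c2⟩
          have c3 := max_lt_iff.mp c1
          refine ⟨hc.1, c0, ⟨⟨hc.2.1, by omega, c3.1, by omega⟩, hc.2.1, by omega,
            by omega, c2⟩, ⟨by omega, hc.2.2, c3.2, by omega⟩, by omega, hc.2.2, by omega, c2⟩
      rw [Finset.sum_congr rfl e1, RefP_alt a (max (h a) (h (a + 1))) n c
        (le_max_of_le_left (h0 a)) k]
      split_ifs
      · exact RefY_eps_abs _
      · norm_num
  · have : ∑ y ∈ Icc 1 b, (if ((a + e) % 2 = 1 ∧ ((y - c) % 4 = 0 ∨ (y - c) % 4 = 3) ∧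
        (dom m n h a (RefY_blk c y) ∧ dom m n h a (RefY_blk c y + 3)) ∧
        (dom m n h (a + 1) (RefY_blk c y) ∧ dom m n h (a + 1) (RefY_blk c y + 3))) then
        eps (1, a, y) else 0) = 0 := by
      refine Finset.sum_eq_zero (fun y _ => ?_)
      rw [if_neg]
      rintro ⟨c1, _, c2, c3⟩
      unfold dom at c2 c3
      exact hc ⟨c1, c2.1.1, c3.1.2.1⟩
    rw [this]; norm_num

end

/-- Tilings: `sigY` itself (for `pos2`, `y` odd), the flips in direction `x` of the pairs
`(x,x+1)`, `x` odd / `x` even (for `pos1`; these are as in `RefY`), and the 8-cycles around the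
rectangles `{x,x+1} × {2l-1,...,2l+2}` in the domain with `x` in a class mod 2 and `l` in a class
mod 2 (four tilings, for `pos2`, `y = 2l`; if `x < m` use the rectangle at `x,x+1`, if `x = m` the
rectangle at `m-1,m`). `pos0` is empty for `j = 1`. -/
theorem exists_refP (m n : ℕ) (hm : 2 ≤ m) (hn : Even n) (k : ℕ) (hk : 2 * k + 2 ≤ n) (x0 : ℤ)
    (h1 : 1 ≤ x0) (h2 : x0 ≤ (m:ℤ) - 1) :
    ∃ R : Fin 7 → V → V, Ref 7 1 m n (sigY 1 m n) (prof k x0) R := by
  have hn2 := Nat.even_iff.mp hn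
  set h := prof k x0 with hh
  have h0 : ∀ x, 0 ≤ h x := by
    intro x
    rw [hh]
    unfold prof
    split_ifs <;> omega
  have hev : ∀ x, Even (h x) := by
    intro x
    rw [Int.even_iff, hh]
    unfold prof
    split_ifs <;> omega
  have hanti : ∀ x, h (x + 1) ≤ h x := by
    intro x
    rw [hh]
    unfold prof
    split_ifs <;> omega
  have hlast : h ((m : ℤ) - 1) = h m := by
    rw [hh]
    unfold prof
    rw [if_neg (by omega), if_neg (by omega)]
  refine ⟨![sigY 1 m n,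
    RefY_flip (RefY_PX m n h 0) (RefY_aX 0) (sigY 1 m n),
    RefY_flip (RefY_PX m n h 1) (RefY_aX 1) (sigY 1 m n),
    RefY_flip (RefP_PR m n h 0 1) (RefP_aR 0 1) (sigY 1 m n),
    RefY_flip (RefP_PR m n h 1 1) (RefP_aR 1 1) (sigY 1 m n),
    RefY_flip (RefP_PR m n h 0 3) (RefP_aR 0 3) (sigY 1 m n),
    RefY_flip (RefP_PR m n h 1 3) (RefP_aR 1 3) (sigY 1 m n)], ?_, ?_, ?_, ?_, ?_⟩
  · intro i
    fin_cases i
    · exact ⟨sigY_tiling 1 m n hn, fun _ _ _ => rfl⟩
    · exact RefP_PX_ok le_rfl hn h0 hev 0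
    · exact RefP_PX_ok le_rfl hn h0 hev 1
    · exact RefP_PR_ok le_rfl hn h0 0 (c := 1) (by norm_num)
    · exact RefP_PR_ok le_rfl hn h0 1 (c := 1) (by norm_num)
    · exact RefP_PR_ok le_rfl hn h0 0 (c := 3) (by norm_num)
    · exact RefP_PR_ok le_rfl hn h0 1 (c := 3) (by norm_num)
  · -- pos1
    intro x y hd hd'
    have key : ∀ e : ℤ, (x + e) % 2 = 1 →
        RefY_flip (RefY_PX m n h e) (RefY_aX e) (sigY 1 m n) (1, x, y) = (1, x + 1, y) := by
      intro e he
      have hpr : RefY_pr e x = x + 1 := by unfold RefY_pr; rw [if_pos he]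
      have hP : RefY_PX m n h e (1, x, y) := ⟨rfl, hd, by simp only [hpr]; exact hd'⟩
      unfold RefY_flip
      rw [if_pos hP]
      simp only [RefY_aX, hpr]
    rcases Int.emod_two_eq_zero_or_one x with hx | hx
    · exact ⟨2, key 1 (by omega)⟩
    · exact ⟨1, key 0 (by omega)⟩
  · -- pos2
    intro x y hd hd'
    have hbox : ((1, x, y) : V) ∈ boxF 1 m n := by
      rw [RefY_mem]
      unfold dom at hd
      have := h0 x
      omega
    rcases Int.emod_two_eq_zero_or_one y with hy | hy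
    · have hhx := Int.even_iff.mp (hev x)
      -- the two corners of the rectangle in the column `x`
      have hc1 : ∀ c : ℤ, (y - c) % 4 = 1 → c % 2 = 1 →
          dom m n h x (RefY_blk c y) ∧ dom m n h x (RefY_blk c y + 3) := by
        intro c hc hc2
        unfold dom RefY_blk at *
        omega
      have key : ∀ e c : ℤ, (y - c) % 4 = 1 → c % 2 = 1 → h (RefY_pr e x) ≤ h x →
          1 ≤ RefY_pr e x → RefY_pr e x ≤ m →
          RefY_flip (RefP_PR m n h e c) (RefP_aR e c) (sigY 1 m n) (1, x, y) =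
            (1, x, y + 1) := by
        intro e c hc hc2 hp1 hp2 hp3
        have hP : RefP_PR m n h e c (1, x, y) := by
          refine ⟨rfl, hc1 c hc hc2, ?_⟩
          have := hc1 c hc hc2
          simp only
          unfold dom at this ⊢
          omega
        unfold RefY_flip
        rw [if_pos hP]
        unfold RefP_aR
        simp only
        rw [if_neg (by omega), if_pos hc]
      -- the choice of the pairing
      have hch : ∃ e : ℤ, (e = 0 ∨ e = 1) ∧ h (RefY_pr e x) ≤ h x ∧ 1 ≤ RefY_pr e x ∧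
          RefY_pr e x ≤ m := by
        unfold dom at hd
        by_cases hxm : x < m
        · refine ⟨(x + 1) % 2, by omega, ?_⟩
          have hpr : RefY_pr ((x + 1) % 2) x = x + 1 := by
            unfold RefY_pr; rw [if_pos (by omega)]
          rw [hpr]
          exact ⟨hanti x, by omega, by omega⟩
        · have hxm' : x = m := by omega
          refine ⟨x % 2, by omega, ?_⟩
          have hpr : RefY_pr (x % 2) x = x - 1 := by
            unfold RefY_pr; rw [if_neg (by omega)]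
          rw [hpr, hxm', hlast]
          exact ⟨le_rfl, by omega, by omega⟩
      obtain ⟨e, he, hp1, hp2, hp3⟩ := hch
      have h4 : y % 4 = 2 ∨ y % 4 = 0 := by omega
      rcases h4 with h4 | h4 <;> rcases he with rfl | rfl
      · exact ⟨3, key 0 1 (by omega) (by norm_num) hp1 hp2 hp3⟩
      · exact ⟨4, key 1 1 (by omega) (by norm_num) hp1 hp2 hp3⟩
      · exact ⟨5, key 0 3 (by omega) (by norm_num) hp1 hp2 hp3⟩
      · exact ⟨6, key 1 3 (by omega) (by norm_num) hp1 hp2 hp3⟩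
    · refine ⟨0, ?_⟩
      change sigY 1 m n (1, x, y) = (1, x, y + 1)
      rw [RefY_sig hbox, if_pos hy]
  · -- pos0
    intro z x y hz1 hzj hd _
    exfalso
    push_cast at hzj
    omega
  · -- hb
    intro i a b
    fin_cases i
    · exact RefY_ht_zero RefY_sig_x a b
    · exact RefP_ht_PX le_rfl hn h0 hev 0 a b
    · exact RefP_ht_PX le_rfl hn h0 hev 1 a b
    · exact RefP_ht_PR le_rfl h0 0 1 a b
    · exact RefP_ht_PR le_rfl h0 1 1 a b
    · exact RefP_ht_PR le_rfl h0 0 3 a b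
    · exact RefP_ht_PR le_rfl h0 1 3 a b

end Pool.Agent.Slab3D
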