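import Pool.Agent.Slab3D.Defs

/-!
# The reference family when `n` is even (bricks in direction `y`)
-/

namespace Pool.Agent.Slab3D

open Pool.Agent.Dimer3D Finset

/-- bricks `{(z,x,2k-1),(z,x,2k)}` -/
noncomputable def sigY (j m n : ℕ) (v : V) : V :=
  if v ∈ boxF j m n then (v.1, v.2.1, if Odd v.2.2 then v.2.2 + 1 else v.2.2 - 1) else v

lemma RefY_mem {j m n : ℕ} {z x y : ℤ} : ((z, x, y) : V) ∈ boxF j m n ↔
    (1 ≤ z ∧ z ≤ j) ∧ (1 ≤ x ∧ x ≤ m) ∧ (1 ≤ y ∧ y ≤ n) := by
  simp [boxF, Finset.mem_product, Finset.mem_Icc]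

lemma RefY_sig {j m n : ℕ} {z x y : ℤ} (hv : ((z, x, y) : V) ∈ boxF j m n) :
    sigY j m n (z, x, y) = (z, x, if y % 2 = 1 then y + 1 else y - 1) := by
  unfold sigY
  rw [if_pos hv]
  simp only [Int.odd_iff]

theorem sigY_tiling (j m n : ℕ) (hn : Even n) : IsTiling Adj3 (boxF j m n) (sigY j m n) := by
  have hn2 : (n : ℤ) % 2 = 0 := by
    have := Nat.even_iff.mp hn
    omega
  have hmem : ∀ z x y : ℤ, ((z, x, y) : V) ∈ boxF j m n →
      ((z, x, if y % 2 = 1 then y + 1 else y - 1) : V) ∈ boxF j m n := by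
    intro z x y hv
    rw [RefY_mem] at hv ⊢
    refine ⟨hv.1, hv.2.1, ?_⟩
    split_ifs <;> omega
  refine ⟨?_, ?_, ?_, ?_⟩
  · rintro ⟨z, x, y⟩ hv
    rw [RefY_sig hv]
    exact hmem z x y hv
  · rintro ⟨z, x, y⟩ hv
    rw [RefY_sig hv]
    right; right
    refine ⟨rfl, rfl, ?_⟩
    simp only
    split_ifs
    · have : y - (y + 1) = -1 := by ring
      rw [this]; norm_num
    · have : y - (y - 1) = 1 := by ring
      rw [this]; norm_num
  · rintro ⟨z, x, y⟩ hv
    rw [RefY_sig hv, RefY_sig (hmem z x y hv)]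
    refine Prod.ext rfl (Prod.ext rfl ?_)
    simp only
    split_ifs <;> omega
  · intro v hv
    unfold sigY
    rw [if_neg hv]

open Classical in
/-- the tiling which is `α` on `P` and `σ` elsewhere -/
noncomputable def RefY_flip (P : V → Prop) (α σ : V → V) : V → V :=
  fun v => if P v then α v else σ v

lemma RefY_flip_tiling {A : Finset V} {σ α : V → V} {P : V → Prop}
    (hσ : IsTiling Adj3 A σ) (hPA : ∀ v, P v → v ∈ A) (hPσ : ∀ v, P v → P (σ v))
    (hPα : ∀ v, P v → P (α v)) (hadj : ∀ v, P v → Adj3 v (α v))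
    (hinv : ∀ v, P v → α (α v) = v) :
    IsTiling Adj3 A (RefY_flip P α σ) := by
  refine ⟨?_, ?_, ?_, ?_⟩
  · intro v hv
    unfold RefY_flip
    split_ifs with h
    · exact hPA _ (hPα v h)
    · exact hσ.mem v hv
  · intro v hv
    unfold RefY_flip
    split_ifs with h
    · exact hadj v h
    · exact hσ.adj v hv
  · intro v hv
    unfold RefY_flip
    by_cases h : P v
    · rw [if_pos h, if_pos (hPα v h), hinv v h]
    · have h2 : ¬ P (σ v) := by
        intro h3
        have h4 := hPσ _ h3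
        rw [hσ.inv v hv] at h4
        exact h h4
      rw [if_neg h, if_neg h2, hσ.inv v hv]
  · intro v hv
    unfold RefY_flip
    rw [if_neg (fun h => hv (hPA v h)), hσ.out v hv]

/-- partner in a pairing of the integers -/
def RefY_pr (e t : ℤ) : ℤ := if (t + e) % 2 = 1 then t + 1 else t - 1

lemma RefY_pr_pr (e t : ℤ) : RefY_pr e (RefY_pr e t) = t := by
  unfold RefY_pr
  split_ifs <;> omega

lemma RefY_pr_abs (e t : ℤ) : |t - RefY_pr e t| = 1 := by
  unfold RefY_pr
  split_ifs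
  · have : t - (t + 1) = -1 := by ring
    rw [this]; norm_num
  · have : t - (t - 1) = 1 := by ring
    rw [this]; norm_num

/-- start of the block of four rows -/
def RefY_blk (c y : ℤ) : ℤ := y - (y - c) % 4

section
variable (j m n : ℕ) (h : ℤ → ℤ)

/-- flips in direction `x` in layer `1` -/
def RefY_PX (e : ℤ) (v : V) : Prop :=
  v.1 = 1 ∧ dom m n h v.2.1 v.2.2 ∧ dom m n h (RefY_pr e v.2.1) v.2.2

/-- flips in direction `z` -/
def RefY_PZ (e : ℤ) (v : V) : Prop :=
  dom m n h v.2.1 v.2.2 ∧ (1 ≤ v.1 ∧ v.1 ≤ j) ∧ (1 ≤ RefY_pr e v.1 ∧ RefY_pr e v.1 ≤ j)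

/-- the long cycles -/
def RefY_PF (c : ℤ) (v : V) : Prop :=
  (v.1 = 1 ∨ v.1 = 2) ∧ dom m n h v.2.1 (RefY_blk c v.2.2) ∧
    dom m n h v.2.1 (RefY_blk c v.2.2 + 3)

/-- flip map in direction `x` -/
def RefY_aX (e : ℤ) (v : V) : V := (v.1, RefY_pr e v.2.1, v.2.2)
/-- flip map in direction `z` -/
def RefY_aZ (e : ℤ) (v : V) : V := (RefY_pr e v.1, v.2.1, v.2.2)
/-- flip map of the long cycles -/
def RefY_aF (c : ℤ) (v : V) : V :=
  if (v.2.2 - c) % 4 = 0 ∨ (v.2.2 - c) % 4 = 3 then (3 - v.1, v.2.1, v.2.2)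
  else (v.1, v.2.1, if (v.2.2 - c) % 4 = 1 then v.2.2 + 1 else v.2.2 - 1)

end

section
variable {j m n : ℕ} {h : ℤ → ℤ}

lemma RefY_dom_sig (hn : Even n) (hev : ∀ x, Even (h x)) {x y : ℤ} (hd : dom m n h x y) :
    dom m n h x (if y % 2 = 1 then y + 1 else y - 1) := by
  unfold dom at hd ⊢
  have hn2 := Nat.even_iff.mp hn
  have hh := Int.even_iff.mp (hev x)
  refine ⟨hd.1, hd.2.1, ?_, ?_⟩ <;> split_ifs <;> omega

lemma RefY_PX_ok (hj : 2 ≤ j) (hn : Even n) (h0 : ∀ x, 0 ≤ h x) (hev : ∀ x, Even (h x)) (e : ℤ) :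
    OK j m n (sigY j m n) h (RefY_flip (RefY_PX m n h e) (RefY_aX e) (sigY j m n)) := by
  have hmemb : ∀ v, RefY_PX m n h e v → v ∈ boxF j m n := by
    rintro ⟨z, x, y⟩ ⟨h1, h2, h3⟩
    simp only at h1 h2 h3
    rw [RefY_mem]
    unfold dom at h2
    have := h0 x
    omega
  refine ⟨RefY_flip_tiling (sigY_tiling j m n hn) hmemb ?_ ?_ ?_ ?_, ?_⟩
  · rintro ⟨z, x, y⟩ hP
    have hb := hmemb _ hP
    rw [RefY_sig hb]
    obtain ⟨h1, h2, h3⟩ := hP
    exact ⟨h1, RefY_dom_sig hn hev h2, RefY_dom_sig hn hev h3⟩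
  · rintro ⟨z, x, y⟩ ⟨h1, h2, h3⟩
    refine ⟨h1, h3, ?_⟩
    simp only [RefY_aX, RefY_pr_pr]
    exact h2
  · rintro ⟨z, x, y⟩ _
    right; left
    exact ⟨rfl, RefY_pr_abs e x, rfl⟩
  · rintro ⟨z, x, y⟩ _
    simp only [RefY_aX, RefY_pr_pr]
  · intro v _ hnd
    unfold RefY_flip
    rw [if_neg (fun hP => hnd hP.2.1)]

lemma RefY_PZ_ok (hn : Even n) (h0 : ∀ x, 0 ≤ h x) (hev : ∀ x, Even (h x)) (e : ℤ) :
    OK j m n (sigY j m n) h (RefY_flip (RefY_PZ j m n h e) (RefY_aZ e) (sigY j m n)) := by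
  have hmemb : ∀ v, RefY_PZ j m n h e v → v ∈ boxF j m n := by
    rintro ⟨z, x, y⟩ ⟨h1, h2, h3⟩
    simp only at h1 h2 h3
    rw [RefY_mem]
    unfold dom at h1
    have := h0 x
    omega
  refine ⟨RefY_flip_tiling (sigY_tiling j m n hn) hmemb ?_ ?_ ?_ ?_, ?_⟩
  · rintro ⟨z, x, y⟩ hP
    have hb := hmemb _ hP
    rw [RefY_sig hb]
    obtain ⟨h1, h2, h3⟩ := hP
    exact ⟨RefY_dom_sig hn hev h1, h2, h3⟩
  · rintro ⟨z, x, y⟩ ⟨h1, h2, h3⟩
    refine ⟨h1, h3, ?_⟩
    simp only [RefY_aZ, RefY_pr_pr]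
    exact h2
  · rintro ⟨z, x, y⟩ _
    left
    exact ⟨RefY_pr_abs e z, rfl, rfl⟩
  · rintro ⟨z, x, y⟩ _
    simp only [RefY_aZ, RefY_pr_pr]
  · intro v _ hnd
    unfold RefY_flip
    rw [if_neg (fun hP => hnd hP.1)]

lemma RefY_PF_ok (hj : 2 ≤ j) (hn : Even n) (h0 : ∀ x, 0 ≤ h x) {c : ℤ} (hc : c % 2 = 1) :
    OK j m n (sigY j m n) h (RefY_flip (RefY_PF m n h c) (RefY_aF c) (sigY j m n)) := by
  have hmemb : ∀ v, RefY_PF m n h c v → v ∈ boxF j m n := by
    rintro ⟨z, x, y⟩ ⟨h1, h2, h3⟩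
    simp only [RefY_blk] at h1 h2 h3
    rw [RefY_mem]
    unfold dom at h2 h3
    have := h0 x
    omega
  refine ⟨RefY_flip_tiling (sigY_tiling j m n hn) hmemb ?_ ?_ ?_ ?_, ?_⟩
  · rintro ⟨z, x, y⟩ hP
    have hb := hmemb _ hP
    rw [RefY_sig hb]
    obtain ⟨h1, h2, h3⟩ := hP
    have e1 : RefY_blk c (if y % 2 = 1 then y + 1 else y - 1) = RefY_blk c y := by
      unfold RefY_blk
      split_ifs <;> omega
    refine ⟨h1, ?_, ?_⟩
    · simp only [e1]; exact h2
    · simp only [e1]; exact h3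
  · rintro ⟨z, x, y⟩ ⟨h1, h2, h3⟩
    simp only at h1 h2 h3
    unfold RefY_aF
    simp only
    by_cases hy : (y - c) % 4 = 0 ∨ (y - c) % 4 = 3
    · rw [if_pos hy]
      refine ⟨?_, h2, h3⟩
      simp only
      omega
    · rw [if_neg hy]
      have e1 : RefY_blk c (if (y - c) % 4 = 1 then y + 1 else y - 1) = RefY_blk c y := by
        unfold RefY_blk
        split_ifs <;> omega
      refine ⟨h1, ?_, ?_⟩
      · simp only [e1]; exact h2
      · simp only [e1]; exact h3
  · rintro ⟨z, x, y⟩ ⟨h1, h2, h3⟩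
    simp only at h1
    unfold RefY_aF
    simp only
    by_cases hy : (y - c) % 4 = 0 ∨ (y - c) % 4 = 3
    · rw [if_pos hy]
      left
      refine ⟨?_, rfl, rfl⟩
      simp only
      rcases h1 with rfl | rfl <;> norm_num
    · rw [if_neg hy]
      right; right
      refine ⟨rfl, rfl, ?_⟩
      simp only
      split_ifs
      · have : y - (y + 1) = -1 := by ring
        rw [this]; norm_num
      · have : y - (y - 1) = 1 := by ring
        rw [this]; norm_num
  · rintro ⟨z, x, y⟩ _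
    unfold RefY_aF
    simp only
    by_cases hy : (y - c) % 4 = 0 ∨ (y - c) % 4 = 3
    · rw [if_pos hy]
      simp only
      rw [if_pos hy]
      simp
    · rw [if_neg hy]
      simp only
      by_cases hy1 : (y - c) % 4 = 1
      · rw [if_pos hy1, if_neg (by omega), if_neg (by omega)]
        simp
      · rw [if_neg hy1, if_neg (by omega), if_pos (by omega)]
        simp
  · rintro ⟨z, x, y⟩ _ hnd
    unfold RefY_flip
    rw [if_neg]
    rintro ⟨h1, h2, h3⟩
    apply hnd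
    simp only at h1 h2 h3 ⊢
    unfold dom RefY_blk at *
    omega

lemma RefY_tf1_zero {M : V → V} (hM : ∀ v, (M v).2.1 = v.2.1) (z x y : ℤ) :
    tf M 1 z x y = 0 := by
  unfold tf
  rw [if_neg]
  intro hc
  have h1 := hM (z, x, y)
  rw [hc] at h1
  simp only [nx] at h1
  omega

lemma RefY_sig_x (v : V) : (sigY j m n v).2.1 = v.2.1 := by
  unfold sigY
  split_ifs <;> rfl

lemma RefY_ht_zero {M : V → V} (hM : ∀ v, (M v).2.1 = v.2.1) (a b : ℤ) :
    |ht j (tf (sigY j m n) - tf M) a b| ≤ 1 := by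
  have : ht j (tf (sigY j m n) - tf M) a b = 0 := by
    unfold ht
    refine Finset.sum_eq_zero (fun y _ => Finset.sum_eq_zero (fun z _ => ?_))
    simp only [Pi.sub_apply]
    rw [RefY_tf1_zero RefY_sig_x, RefY_tf1_zero hM, sub_zero]
  rw [this]; norm_num

lemma RefY_eps_succ (z x y : ℤ) : eps (z, x, y + 1) = - eps (z, x, y) := by
  unfold eps
  simp only
  have e : z + x + (y + 1) = (z + x + y) + 1 := by ring
  rw [e]
  by_cases hh : Even (z + x + y)
  · rw [if_pos hh, if_neg (by rw [Int.even_add_one]; exact not_not.mpr hh)]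
  · rw [if_neg hh, if_pos (by rw [Int.even_add_one]; exact hh)]; ring

lemma RefY_eps_abs (v : V) : |eps v| ≤ 1 := by
  unfold eps
  split_ifs <;> norm_num

/-- alternating sums -/
lemma RefY_alt (a H n : ℤ) (hH0 : 0 ≤ H) (hH : H % 2 = 0) (hn : n % 2 = 0) (k : ℕ) :
    ∑ y ∈ Icc (1 : ℤ) k, (if H < y ∧ y ≤ n then eps (1, a, y) else 0) =
      if H < (k : ℤ) ∧ (k : ℤ) < n ∧ (k : ℤ) % 2 = 1 then eps (1, a, (k : ℤ)) else 0 := by
  induction k with
  | zero =>
    rw [if_neg (by push_cast; omega)]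
    simp
  | succ k ih =>
    have e : Icc (1 : ℤ) ((k + 1 : ℕ) : ℤ) = insert ((k : ℤ) + 1) (Icc (1 : ℤ) k) := by
      ext t
      simp only [Finset.mem_Icc, Finset.mem_insert]
      push_cast
      omega
    rw [e, Finset.sum_insert (by simp), ih]
    push_cast
    by_cases c1 : H < (k : ℤ) + 1 ∧ (k : ℤ) + 1 ≤ n
    · rw [if_pos c1]
      by_cases c2 : (k : ℤ) % 2 = 1
      · rw [if_pos (by omega), if_neg (by omega), RefY_eps_succ]; ring
      · rw [if_neg (by omega), if_pos (by omega), add_zero]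
    · rw [if_neg c1, if_neg (by omega), if_neg (by omega), add_zero]

lemma RefY_ht_PX (hj : 2 ≤ j) (hn : Even n) (h0 : ∀ x, 0 ≤ h x) (hev : ∀ x, Even (h x))
    (e a b : ℤ) :
    |ht j (tf (sigY j m n) - tf (RefY_flip (RefY_PX m n h e) (RefY_aX e) (sigY j m n))) a b|
      ≤ 1 := by
  classical
  set R := RefY_flip (RefY_PX m n h e) (RefY_aX e) (sigY j m n) with hR
  have hval : ∀ z y : ℤ, tf R 1 z a y =
      if z = 1 ∧ ((a + e) % 2 = 1 ∧ dom m n h a y ∧ dom m n h (a + 1) y) then eps (1, a, y)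
      else 0 := by
    intro z y
    unfold tf
    by_cases hc : z = 1 ∧ ((a + e) % 2 = 1 ∧ dom m n h a y ∧ dom m n h (a + 1) y)
    · rw [if_pos hc]
      obtain ⟨rfl, c1, c2, c3⟩ := hc
      have hpr : RefY_pr e a = a + 1 := by unfold RefY_pr; rw [if_pos c1]
      have hP : RefY_PX m n h e (1, a, y) := ⟨rfl, c2, by simp only [hpr]; exact c3⟩
      rw [if_pos]
      rw [hR]
      unfold RefY_flip
      rw [if_pos hP]
      simp only [RefY_aX, nx, hpr]
    · rw [if_neg hc, if_neg]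
      intro hcon
      rw [hR] at hcon
      unfold RefY_flip at hcon
      by_cases hP : RefY_PX m n h e (z, a, y)
      · rw [if_pos hP] at hcon
        simp only [RefY_aX, nx, Prod.mk.injEq, true_and, and_true] at hcon
        apply hc
        obtain ⟨p1, p2, p3⟩ := hP
        simp only at p1 p2 p3
        rw [hcon] at p3
        refine ⟨p1, ?_, p2, p3⟩
        unfold RefY_pr at hcon
        by_contra hne
        rw [if_neg hne] at hcon
        omega
      · rw [if_neg hP] at hcon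
        have h1 := RefY_sig_x (j := j) (m := m) (n := n) (z, a, y)
        rw [hcon] at h1
        simp only [nx] at h1
        omega
  have hsum : ht j (tf (sigY j m n) - tf R) a b =
      - ∑ y ∈ Icc 1 b, (if (a + e) % 2 = 1 ∧ dom m n h a y ∧ dom m n h (a + 1) y then
        eps (1, a, y) else 0) := by
    unfold ht
    rw [← Finset.sum_neg_distrib]
    refine Finset.sum_congr rfl (fun y _ => ?_)
    have h1 : ∀ z ∈ Icc (1 : ℤ) (j : ℤ), (tf (sigY j m n) - tf R) 1 z a y =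
        if z = 1 then -(if (a + e) % 2 = 1 ∧ dom m n h a y ∧ dom m n h (a + 1) y then
          eps (1, a, y) else 0) else 0 := by
      intro z _
      simp only [Pi.sub_apply]
      rw [RefY_tf1_zero RefY_sig_x, hval]
      by_cases hz : z = 1
      · subst hz
        simp
      · rw [if_neg hz, if_neg (fun hc => hz hc.1)]; ring
    rw [Finset.sum_congr rfl h1, Finset.sum_ite_eq' (Icc (1 : ℤ) (j : ℤ)) 1, if_pos]
    rw [Finset.mem_Icc]
    omega
  rw [hsum, abs_neg]
  by_cases hc : (a + e) % 2 = 1 ∧ 1 ≤ a ∧ a + 1 ≤ m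
  · rcases lt_or_ge b 0 with hb | hb
    · rw [Finset.Icc_eq_empty (by omega)]
      simp
    · obtain ⟨k, rfl⟩ := Int.eq_ofNat_of_zero_le hb
      have hn2 := Nat.even_iff.mp hn
      have hh1 := Int.even_iff.mp (hev a)
      have hh2 := Int.even_iff.mp (hev (a + 1))
      have e1 : ∀ y ∈ Icc (1 : ℤ) (k : ℤ),
          (if (a + e) % 2 = 1 ∧ dom m n h a y ∧ dom m n h (a + 1) y then eps (1, a, y) else 0) =
          if max (h a) (h (a + 1)) < y ∧ y ≤ (n : ℤ) then eps (1, a, y) else 0 := by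
        intro y _
        refine if_congr ?_ rfl rfl
        unfold dom
        constructor
        · rintro ⟨_, ⟨_, _, c1, c2⟩, _, _, c3, _⟩
          exact ⟨max_lt c1 c3, c2⟩
        · rintro ⟨c1, c2⟩
          have c3 := max_lt_iff.mp c1
          refine ⟨hc.1, ⟨hc.2.1, by omega, c3.1, c2⟩, by omega, hc.2.2, c3.2, c2⟩
      rw [Finset.sum_congr rfl e1, RefY_alt a (max (h a) (h (a + 1))) n
        (le_max_of_le_left (h0 a)) (by rcases max_choice (h a) (h (a + 1)) with hm | hm <;>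
          rw [hm] <;> assumption) (by omega) k]
      split_ifs
      · exact RefY_eps_abs _
      · norm_num
  · have : ∑ y ∈ Icc 1 b, (if (a + e) % 2 = 1 ∧ dom m n h a y ∧ dom m n h (a + 1) y then
        eps (1, a, y) else 0) = 0 := by
      refine Finset.sum_eq_zero (fun y _ => ?_)
      rw [if_neg]
      rintro ⟨c1, c2, c3⟩
      unfold dom at c2 c3
      exact hc ⟨c1, c2.1, c3.2.1⟩
    rw [this]; norm_num

lemma RefY_x_PZ (e : ℤ) (v : V) :
    (RefY_flip (RefY_PZ j m n h e) (RefY_aZ e) (sigY j m n) v).2.1 = v.2.1 := by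
  unfold RefY_flip
  split_ifs
  · rfl
  · exact RefY_sig_x v

lemma RefY_x_PF (c : ℤ) (v : V) :
    (RefY_flip (RefY_PF m n h c) (RefY_aF c) (sigY j m n) v).2.1 = v.2.1 := by
  unfold RefY_flip
  split_ifs
  · unfold RefY_aF
    split_ifs <;> rfl
  · exact RefY_sig_x v

end

theorem exists_refY (j m n : ℕ) (hj : 2 ≤ j) (hn : Even n) (h : ℤ → ℤ) (h0 : ∀ x, 0 ≤ h x)
    (hn' : ∀ x, h x ≤ n) (hev : ∀ x, Even (h x)) :
    ∃ R : Fin 7 → V → V, Ref 7 j m n (sigY j m n) h R := by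
  have hn2 := Nat.even_iff.mp hn
  refine ⟨![sigY j m n,
    RefY_flip (RefY_PX m n h 0) (RefY_aX 0) (sigY j m n),
    RefY_flip (RefY_PX m n h 1) (RefY_aX 1) (sigY j m n),
    RefY_flip (RefY_PZ j m n h 0) (RefY_aZ 0) (sigY j m n),
    RefY_flip (RefY_PZ j m n h 1) (RefY_aZ 1) (sigY j m n),
    RefY_flip (RefY_PF m n h 1) (RefY_aF 1) (sigY j m n),
    RefY_flip (RefY_PF m n h 3) (RefY_aF 3) (sigY j m n)], ?_, ?_, ?_, ?_, ?_⟩
  · intro i
    fin_cases i
    · exact ⟨sigY_tiling j m n hn, fun _ _ _ => rfl⟩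
    · exact RefY_PX_ok hj hn h0 hev 0
    · exact RefY_PX_ok hj hn h0 hev 1
    · exact RefY_PZ_ok hn h0 hev 0
    · exact RefY_PZ_ok hn h0 hev 1
    · exact RefY_PF_ok hj hn h0 (c := 1) (by norm_num)
    · exact RefY_PF_ok hj hn h0 (c := 3) (by norm_num)
  · -- pos1
    intro x y hd hd'
    have key : ∀ e : ℤ, (x + e) % 2 = 1 →
        RefY_flip (RefY_PX m n h e) (RefY_aX e) (sigY j m n) (1, x, y) = (1, x + 1, y) := by
      intro e he
      have hpr : RefY_pr e x = x + 1 := by unfold RefY_pr; rw [if_pos he]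
      have hP : RefY_PX m n h e (1, x, y) := ⟨rfl, hd, by simp only [hpr]; exact hd'⟩
      unfold RefY_flip
      rw [if_pos hP]
      simp only [RefY_aX, hpr]
    rcases Int.emod_two_eq_zero_or_one x with hx | hx
    · exact ⟨2, key 1 (by omega)⟩
    · exact ⟨1, key 0 (by omega)⟩
  · -- pos2
    intro x y hd hd'
    have hbox : ((1, x, y) : V) ∈ boxF j m n := by
      rw [RefY_mem]
      unfold dom at hd
      have := h0 x
      omega
    rcases Int.emod_two_eq_zero_or_one y with hy | hy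
    · have key : ∀ c : ℤ, (y - c) % 4 = 1 → c % 2 = 1 →
          RefY_flip (RefY_PF m n h c) (RefY_aF c) (sigY j m n) (1, x, y) = (1, x, y + 1) := by
        intro c hc hc2
        have hh := Int.even_iff.mp (hev x)
        have hP : RefY_PF m n h c (1, x, y) := by
          refine ⟨Or.inl rfl, ?_, ?_⟩
          · simp only
            unfold dom RefY_blk at *
            omega
          · simp only
            unfold dom RefY_blk at *
            omega
        unfold RefY_flip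
        rw [if_pos hP]
        unfold RefY_aF
        simp only
        rw [if_neg (by omega), if_pos hc]
      have h4 : y % 4 = 2 ∨ y % 4 = 0 := by omega
      rcases h4 with h4 | h4
      · exact ⟨5, key 1 (by omega) (by norm_num)⟩
      · exact ⟨6, key 3 (by omega) (by norm_num)⟩
    · refine ⟨0, ?_⟩
      change sigY j m n (1, x, y) = (1, x, y + 1)
      rw [RefY_sig hbox, if_pos hy]
  · -- pos0
    intro z x y hz1 hzj hd _
    have key : ∀ e : ℤ, (z + e) % 2 = 1 →
        RefY_flip (RefY_PZ j m n h e) (RefY_aZ e) (sigY j m n) (z, x, y) = (z + 1, x, y) := by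
      intro e he
      have hpr : RefY_pr e z = z + 1 := by unfold RefY_pr; rw [if_pos he]
      have hP : RefY_PZ j m n h e (z, x, y) := by
        refine ⟨hd, ⟨hz1, hzj.le⟩, ?_⟩
        simp only [hpr]
        omega
      unfold RefY_flip
      rw [if_pos hP]
      simp only [RefY_aZ, hpr]
    rcases Int.emod_two_eq_zero_or_one z with hz | hz
    · exact ⟨4, key 1 (by omega)⟩
    · exact ⟨3, key 0 (by omega)⟩
  · -- hb
    intro i a b
    fin_cases i
    · exact RefY_ht_zero RefY_sig_x a b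
    · exact RefY_ht_PX hj hn h0 hev 0 a b
    · exact RefY_ht_PX hj hn h0 hev 1 a b
    · exact RefY_ht_zero (RefY_x_PZ 0) a b
    · exact RefY_ht_zero (RefY_x_PZ 1) a b
    · exact RefY_ht_zero (RefY_x_PF 1) a b
    · exact RefY_ht_zero (RefY_x_PF 3) a b

end Pool.Agent.Slab3D
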