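import Pool.Agent.Slab3D.Defs

/-!
# The reference family when `j` is even (bricks in direction `z`)
-/

namespace Pool.Agent.Slab3D

open Pool.Agent.Dimer3D Finset

/-- bricks `{(2k-1,x,y),(2k,x,y)}` -/
noncomputable def sigZ (j m n : ℕ) (v : V) : V :=
  if v ∈ boxF j m n then (if Odd v.1 then v.1 + 1 else v.1 - 1, v.2.1, v.2.2) else v

private lemma RZ_mem {j m n : ℕ} {z x y : ℤ} :
    (z, x, y) ∈ boxF j m n ↔ (1 ≤ z ∧ z ≤ j) ∧ (1 ≤ x ∧ x ≤ m) ∧ (1 ≤ y ∧ y ≤ n) := by
  simp [boxF]

private lemma RZ_sig {j m n : ℕ} {z x y : ℤ} :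
    sigZ j m n (z, x, y) = if (1 ≤ z ∧ z ≤ j) ∧ (1 ≤ x ∧ x ≤ m) ∧ (1 ≤ y ∧ y ≤ n) then
      (if z % 2 = 1 then z + 1 else z - 1, x, y) else (z, x, y) := by
  unfold sigZ
  simp only [RZ_mem, Int.odd_iff]

theorem sigZ_tiling (j m n : ℕ) (hj : Even j) : IsTiling Adj3 (boxF j m n) (sigZ j m n) := by
  obtain ⟨l, hl⟩ := hj
  refine ⟨?_, ?_, ?_, ?_⟩
  · rintro ⟨z, x, y⟩ hv
    have hv' := RZ_mem.mp hv
    rw [RZ_sig, if_pos hv', RZ_mem]
    split_ifs <;> omega
  · rintro ⟨z, x, y⟩ hv
    have hv' := RZ_mem.mp hv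
    rw [RZ_sig, if_pos hv']
    unfold Adj3
    split_ifs with h1
    · left
      refine ⟨?_, rfl, rfl⟩
      simp
    · left
      refine ⟨?_, rfl, rfl⟩
      simp
  · rintro ⟨z, x, y⟩ hv
    have hv' := RZ_mem.mp hv
    have h2 : sigZ j m n (z, x, y) = (if z % 2 = 1 then z + 1 else z - 1, x, y) := by
      rw [RZ_sig, if_pos hv']
    rw [h2, RZ_sig, if_pos (by split_ifs <;> omega)]
    refine Prod.ext ?_ rfl
    simp only
    split_ifs <;> omega
  · intro v hv
    unfold sigZ
    rw [if_neg hv]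

/-- partner of a column -/
private def prt (p : ℕ) (x y : ℤ) : ℤ × ℤ :=
  if p = 0 then (if x % 2 = 1 then x + 1 else x - 1, y)
  else if p = 1 then (if x % 2 = 1 then x - 1 else x + 1, y)
  else if p = 2 then (x, if y % 2 = 1 then y + 1 else y - 1)
  else (x, if y % 2 = 1 then y - 1 else y + 1)

/-- active levels -/
private def act (t : ℕ) (j z : ℤ) : Prop :=
  if t = 0 then z = 1 ∨ z = 2
  else if t = 1 then 1 ≤ z - (z - 1) % 4 ∧ z - (z - 1) % 4 + 3 ≤ j
  else 1 ≤ z - (z - 3) % 4 ∧ z - (z - 3) % 4 + 3 ≤ j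

/-- vertical displacement on active levels -/
private def ver (t : ℕ) (z : ℤ) : ℤ :=
  if t = 0 then 0
  else if t = 1 then (if (z - 1) % 4 = 1 then 1 else if (z - 1) % 4 = 2 then -1 else 0)
  else (if (z - 3) % 4 = 1 then 1 else if (z - 3) % 4 = 2 then -1 else 0)

private lemma ver_zero (z : ℤ) : ver 0 z = 0 := by simp [ver]

private lemma prt_prt (p : ℕ) (x y : ℤ) : prt p (prt p x y).1 (prt p x y).2 = (x, y) := by
  unfold prt
  split_ifs <;> simp only at * <;> (refine Prod.ext ?_ ?_ <;> simp only <;> omega)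

private lemma prt_adj (p : ℕ) (z x y : ℤ) : Adj3 (z, x, y) (z, prt p x y) := by
  unfold prt Adj3
  split_ifs <;> simp

private lemma act_range {t : ℕ} {j : ℕ} (hj1 : 1 ≤ j) (hj : Even j) {z : ℤ} (h : act t j z) : 1 ≤ z ∧ z ≤ j := by
  obtain ⟨l, hl⟩ := hj
  unfold act at h
  split_ifs at h <;> omega

private lemma act_ver {t : ℕ} {j z : ℤ} (h : act t j z) : act t j (z + ver t z) := by
  unfold act ver at *
  split_ifs at * <;> omega

private lemma ver_ver {t : ℕ} {z : ℤ} (h : ver t z ≠ 0) : ver t (z + ver t z) ≠ 0 ∧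
    z + ver t z + ver t (z + ver t z) = z := by
  unfold ver at *
  split_ifs at * <;> omega

private lemma ver_abs {t : ℕ} {z : ℤ} (h : ver t z ≠ 0) : |z - (z + ver t z)| = 1 := by
  unfold ver at *
  split_ifs at * <;> first | omega | simp

private lemma act_up {t : ℕ} {j : ℕ} {z : ℤ} :
    act t j (if z % 2 = 1 then z + 1 else z - 1) ↔ act t j z := by
  unfold act
  split_ifs <;> omega

/-- the condition under which the reference tiling differs from `sigZ` -/
private def cnd (t p j m n : ℕ) (h : ℤ → ℤ) (v : V) : Prop :=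
  dom m n h v.2.1 v.2.2 ∧ dom m n h (prt p v.2.1 v.2.2).1 (prt p v.2.1 v.2.2).2 ∧ act t j v.1

open Classical in
private noncomputable def RZ (t p j m n : ℕ) (h : ℤ → ℤ) (v : V) : V :=
  if cnd t p j m n h v then
    (if ver t v.1 = 0 then (v.1, prt p v.2.1 v.2.2) else (v.1 + ver t v.1, v.2.1, v.2.2))
  else sigZ j m n v

private lemma cnd_box {t p j m n : ℕ} {h : ℤ → ℤ} (hj1 : 1 ≤ j) (hj : Even j) (h0 : ∀ x, 0 ≤ h x)
    {v : V} (hc : cnd t p j m n h v) : v ∈ boxF j m n := by
  obtain ⟨z, x, y⟩ := v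
  obtain ⟨h1, h2, h3⟩ := hc
  have := act_range hj1 hj h3
  have := h0 x
  unfold dom at h1
  rw [RZ_mem]
  simp only at *
  omega

private lemma cnd_hor {t p j m n : ℕ} {h : ℤ → ℤ} {z x y : ℤ}
    (hc : cnd t p j m n h (z, x, y)) : cnd t p j m n h (z, prt p x y) := by
  obtain ⟨h1, h2, h3⟩ := hc
  refine ⟨h2, ?_, h3⟩
  simp only [prt_prt]
  exact h1

private lemma cnd_ver {t p j m n : ℕ} {h : ℤ → ℤ} {z x y : ℤ}
    (hc : cnd t p j m n h (z, x, y)) : cnd t p j m n h (z + ver t z, x, y) := by
  obtain ⟨h1, h2, h3⟩ := hc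
  exact ⟨h1, h2, act_ver h3⟩

private lemma cnd_sig {t p j m n : ℕ} {h : ℤ → ℤ} {v : V} :
    cnd t p j m n h (sigZ j m n v) ↔ cnd t p j m n h v := by
  obtain ⟨z, x, y⟩ := v
  rw [RZ_sig]
  by_cases h1 : (1 ≤ z ∧ z ≤ j) ∧ (1 ≤ x ∧ x ≤ m) ∧ (1 ≤ y ∧ y ≤ n)
  · rw [if_pos h1]
    unfold cnd
    simp only [act_up]
  · rw [if_neg h1]

private lemma RZ_tiling {t p j m n : ℕ} {h : ℤ → ℤ} (hj1 : 1 ≤ j) (hj : Even j) (h0 : ∀ x, 0 ≤ h x) :
    IsTiling Adj3 (boxF j m n) (RZ t p j m n h) := by
  have hS := sigZ_tiling j m n hj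
  refine ⟨?_, ?_, ?_, ?_⟩
  · rintro ⟨z, x, y⟩ hv
    unfold RZ
    split_ifs with h1 h2
    · exact cnd_box hj1 hj h0 (cnd_hor h1)
    · exact cnd_box hj1 hj h0 (cnd_ver h1)
    · exact hS.mem _ hv
  · rintro ⟨z, x, y⟩ hv
    unfold RZ
    split_ifs with h1 h2
    · exact prt_adj p z x y
    · left
      exact ⟨ver_abs h2, rfl, rfl⟩
    · exact hS.adj _ hv
  · rintro ⟨z, x, y⟩ hv
    by_cases h1 : cnd t p j m n h (z, x, y)
    · by_cases h2 : ver t z = 0
      · have e1 : RZ t p j m n h (z, x, y) = (z, prt p x y) := by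
          unfold RZ
          rw [if_pos h1, if_pos h2]
        rw [e1]
        unfold RZ
        rw [if_pos (cnd_hor h1), if_pos h2]
        simp only [prt_prt]
      · have e1 : RZ t p j m n h (z, x, y) = (z + ver t z, x, y) := by
          unfold RZ
          rw [if_pos h1, if_neg h2]
        rw [e1]
        unfold RZ
        rw [if_pos (cnd_ver h1), if_neg (ver_ver h2).1]
        simp only [(ver_ver h2).2]
    · have e1 : RZ t p j m n h (z, x, y) = sigZ j m n (z, x, y) := by
        unfold RZ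
        rw [if_neg h1]
      rw [e1]
      unfold RZ
      rw [if_neg (by rw [cnd_sig]; exact h1)]
      exact hS.inv _ hv
  · intro v hv
    unfold RZ
    rw [if_neg (fun h1 => hv (cnd_box hj1 hj h0 h1))]
    exact hS.out _ hv

private lemma RZ_ok {t p j m n : ℕ} {h : ℤ → ℤ} (hj1 : 1 ≤ j) (hj : Even j) (h0 : ∀ x, 0 ≤ h x) :
    OK j m n (sigZ j m n) h (RZ t p j m n h) := by
  refine ⟨RZ_tiling hj1 hj h0, fun v _ hd => ?_⟩
  unfold RZ
  rw [if_neg (fun hc => hd hc.1)]

private lemma sig_tf (j m n : ℕ) (z a y : ℤ) : tf (sigZ j m n) 1 z a y = 0 := by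
  unfold tf
  rw [if_neg]
  intro h1
  rw [RZ_sig] at h1
  have h2 := congrArg (fun v : V => v.2.1) h1
  simp only [nx] at h2
  split_ifs at h2 <;> simp at h2

/-- horizontal levels -/
private def hor (t : ℕ) (j z : ℤ) : Prop := act t j z ∧ ver t z = 0

/-- the involution of the horizontal levels -/
private def flp (t : ℕ) (z : ℤ) : ℤ :=
  if t = 0 then 3 - z
  else if t = 1 then (if (z - 1) % 4 = 0 then z + 3 else z - 3)
  else (if (z - 3) % 4 = 0 then z + 3 else z - 3)

private lemma hor_flp {t : ℕ} {j z : ℤ} (h : hor t j z) :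
    hor t j (flp t z) ∧ flp t (flp t z) = z ∧ (flp t z - z) % 2 = 1 := by
  obtain ⟨h1, h2⟩ := h
  by_cases t0 : t = 0
  · subst t0
    simp only [act, if_true] at h1
    refine ⟨⟨?_, ver_zero _⟩, ?_, ?_⟩
    · simp only [act, flp, if_true]
      omega
    · simp only [flp, if_true]
      omega
    · simp only [flp, if_true]
      omega
  · by_cases t1 : t = 1
    · subst t1
      simp only [act, one_ne_zero, if_false, if_true] at h1
      simp only [ver, one_ne_zero, if_false, if_true] at h2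
      by_cases h3 : (z - 1) % 4 = 0
      · have e1 : flp 1 z = z + 3 := by simp [flp, h3]
        have e2 : (z + 3 - 1) % 4 = 3 := by omega
        have e3 : flp 1 (z + 3) = z := by simp [flp, e2]
        rw [e1, e3]
        refine ⟨⟨?_, ?_⟩, rfl, by omega⟩
        · simp only [act, one_ne_zero, if_false, if_true]
          omega
        · simp [ver, e2]
      · have e1 : flp 1 z = z - 3 := by simp [flp, h3]
        have e0 : (z - 1) % 4 = 3 := by
          split_ifs at h2 <;> omega
        have e2 : (z - 3 - 1) % 4 = 0 := by omega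
        have e3 : flp 1 (z - 3) = z := by simp [flp, e2]
        rw [e1, e3]
        refine ⟨⟨?_, ?_⟩, rfl, by omega⟩
        · simp only [act, one_ne_zero, if_false, if_true]
          omega
        · simp [ver, e2]
    · simp only [act, t0, t1, if_false] at h1
      simp only [ver, t0, t1, if_false] at h2
      by_cases h3 : (z - 3) % 4 = 0
      · have e1 : flp t z = z + 3 := by simp [flp, t0, t1, h3]
        have e2 : (z + 3 - 3) % 4 = 3 := by omega
        have e3 : flp t (z + 3) = z := by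
          simp only [flp, t0, t1, if_false, e2]
          norm_num
        rw [e1, e3]
        refine ⟨⟨?_, ?_⟩, rfl, by omega⟩
        · simp only [act, t0, t1, if_false]
          omega
        · simp only [ver, t0, t1, if_false, e2]
          norm_num
      · have e1 : flp t z = z - 3 := by simp [flp, t0, t1, h3]
        have e0 : (z - 3) % 4 = 3 := by
          split_ifs at h2 <;> omega
        have e2 : (z - 3 - 3) % 4 = 0 := by omega
        have e3 : flp t (z - 3) = z := by
          simp only [flp, t0, t1, if_false, e2]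
          norm_num
        rw [e1, e3]
        refine ⟨⟨?_, ?_⟩, rfl, by omega⟩
        · simp only [act, t0, t1, if_false]
          omega
        · simp only [ver, t0, t1, if_false, e2]
          norm_num

private lemma eps_flip {z z' a y : ℤ} (h : (z' - z) % 2 = 1) : eps (z', a, y) = - eps (z, a, y) := by
  unfold eps
  simp only [Int.even_iff]
  split_ifs <;> first | omega | simp

open Classical in
private lemma hor_sum {t j : ℕ} (hj1 : 1 ≤ j) (hj : Even j) (a y : ℤ) :
    ∑ z ∈ Icc 1 (j:ℤ), (if hor t j z then eps (z, a, y) else 0) = 0 := by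
  refine Finset.sum_involution (fun z _ => if hor t j z then flp t z else z) ?_ ?_ ?_ ?_
  · intro z _
    by_cases h1 : hor t j z
    · have h2 := hor_flp h1
      simp only [if_pos h1, if_pos h2.1]
      rw [eps_flip h2.2.2]
      ring
    · simp only [if_neg h1, add_zero]
  · intro z _ hne
    by_cases h1 : hor t j z
    · have h2 := hor_flp h1
      simp only [if_pos h1]
      intro h3
      rw [h3] at h2
      omega
    · simp [if_neg h1] at hne
  · intro z hz
    by_cases h1 : hor t j z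
    · have h2 := hor_flp h1
      simp only [if_pos h1]
      have := act_range hj1 hj h2.1.1
      rw [mem_Icc]
      exact this
    · simp only [if_neg h1]
      exact hz
  · intro z _
    by_cases h1 : hor t j z
    · have h2 := hor_flp h1
      simp only [if_pos h1, if_pos h2.1]
      exact h2.2.1
    · simp only [if_neg h1]

open Classical in
private lemma RZ_tf {t p j m n : ℕ} {h : ℤ → ℤ} (z a y : ℤ) :
    tf (RZ t p j m n h) 1 z a y =
      if (dom m n h a y ∧ dom m n h (prt p a y).1 (prt p a y).2 ∧ prt p a y = (a + 1, y)) then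
        (if hor t j z then eps (z, a, y) else 0) else 0 := by
  unfold tf
  have hs : ¬ sigZ j m n (z, a, y) = nx 1 (z, a, y) := by
    intro h1
    rw [RZ_sig] at h1
    have h2 := congrArg (fun v : V => v.2.1) h1
    simp only [nx] at h2
    split_ifs at h2 <;> simp at h2
  by_cases h1 : cnd t p j m n h (z, a, y)
  · obtain ⟨c1, c2, c3⟩ := id h1
    simp only at c1 c2 c3
    by_cases h2 : ver t z = 0
    · have e1 : RZ t p j m n h (z, a, y) = (z, prt p a y) := by
        unfold RZ
        rw [if_pos h1, if_pos h2]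
      have e2 : (RZ t p j m n h (z, a, y) = nx 1 (z, a, y)) ↔ prt p a y = (a + 1, y) := by
        rw [e1]
        simp only [nx, Prod.mk.injEq, true_and]
      by_cases h3 : prt p a y = (a + 1, y)
      · rw [if_pos (e2.mpr h3), if_pos ⟨c1, c2, h3⟩, if_pos ⟨c3, h2⟩]
      · rw [if_neg (fun h => h3 (e2.mp h)), if_neg (fun h => h3 h.2.2)]
    · have e1 : RZ t p j m n h (z, a, y) = (z + ver t z, a, y) := by
        unfold RZ
        rw [if_pos h1, if_neg h2]
      have e2 : ¬ RZ t p j m n h (z, a, y) = nx 1 (z, a, y) := by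
        rw [e1]
        intro h3
        have h4 := congrArg (fun v : V => v.2.1) h3
        simp [nx] at h4
      rw [if_neg e2]
      have e3 : ¬ hor t j z := fun h => h2 h.2
      rw [if_neg e3]
      simp
  · have e1 : RZ t p j m n h (z, a, y) = sigZ j m n (z, a, y) := by
      unfold RZ
      rw [if_neg h1]
    rw [e1, if_neg hs]
    by_cases h2 : dom m n h a y ∧ dom m n h (prt p a y).1 (prt p a y).2 ∧ prt p a y = (a + 1, y)
    · rw [if_pos h2, if_neg]
      intro h3
      exact h1 ⟨h2.1, h2.2.1, h3.1⟩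
    · rw [if_neg h2]

private lemma RZ_ht {t p j m n : ℕ} {h : ℤ → ℤ} (hj1 : 1 ≤ j) (hj : Even j) (a b : ℤ) :
    ht j (tf (sigZ j m n) - tf (RZ t p j m n h)) a b = 0 := by
  classical
  unfold ht
  refine Finset.sum_eq_zero fun y _ => ?_
  have h1 : ∀ z, (tf (sigZ j m n) - tf (RZ t p j m n h)) 1 z a y = - tf (RZ t p j m n h) 1 z a y := by
    intro z
    change tf (sigZ j m n) 1 z a y - tf (RZ t p j m n h) 1 z a y = _
    rw [sig_tf, zero_sub]
  simp only [h1, RZ_tf]
  by_cases h2 : dom m n h a y ∧ dom m n h (prt p a y).1 (prt p a y).2 ∧ prt p a y = (a + 1, y)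
  · simp only [if_pos h2, Finset.sum_neg_distrib, hor_sum hj1 hj, neg_zero]
  · simp only [if_neg h2, neg_zero, Finset.sum_const_zero]

theorem exists_refZ (j m n : ℕ) (hj1 : 1 ≤ j) (hj : Even j) (h : ℤ → ℤ) (h0 : ∀ x, 0 ≤ h x)
    (hn' : ∀ x, h x ≤ n) :
    ∃ R : Fin 13 → V → V, Ref 13 j m n (sigZ j m n) h R := by
  classical
  set R : Fin 13 → V → V := fun i =>
    if i.val = 0 then sigZ j m n else RZ ((i.val - 1) / 4) ((i.val - 1) % 4) j m n h with hR
  have hR0 : R 0 = sigZ j m n := rfl
  have hRt : ∀ t p : ℕ, t < 3 → p < 4 → ∃ i, R i = RZ t p j m n h := by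
    intro t p ht hp
    refine ⟨⟨4 * t + p + 1, by omega⟩, ?_⟩
    simp only [hR]
    rw [if_neg (by omega)]
    have e1 : (4 * t + p + 1 - 1) / 4 = t := by omega
    have e2 : (4 * t + p + 1 - 1) % 4 = p := by omega
    rw [e1, e2]
  have hev : (j : ℤ) % 2 = 0 := by
    obtain ⟨l, hl⟩ := hj
    omega
  refine ⟨R, ⟨?_, ?_, ?_, ?_, ?_⟩⟩
  · intro i
    simp only [hR]
    split_ifs with h1
    · exact ⟨sigZ_tiling j m n hj, fun v _ _ => rfl⟩
    · exact RZ_ok hj1 hj h0
  · intro x y hx hx'
    by_cases h1 : x % 2 = 1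
    · obtain ⟨i, hi⟩ := hRt 0 0 (by norm_num) (by norm_num)
      refine ⟨i, ?_⟩
      have e1 : prt 0 x y = (x + 1, y) := by simp [prt, h1]
      have hc : cnd 0 0 j m n h (1, x, y) := ⟨hx, by simp only [e1]; exact hx', Or.inl rfl⟩
      rw [hi]
      unfold RZ
      rw [if_pos hc, if_pos (ver_zero _)]
      simp only [e1]
    · obtain ⟨i, hi⟩ := hRt 0 1 (by norm_num) (by norm_num)
      refine ⟨i, ?_⟩
      have e1 : prt 1 x y = (x + 1, y) := by simp [prt, h1]
      have hc : cnd 0 1 j m n h (1, x, y) := ⟨hx, by simp only [e1]; exact hx', Or.inl rfl⟩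
      rw [hi]
      unfold RZ
      rw [if_pos hc, if_pos (ver_zero _)]
      simp only [e1]
  · intro x y hx hx'
    by_cases h1 : y % 2 = 1
    · obtain ⟨i, hi⟩ := hRt 0 2 (by norm_num) (by norm_num)
      refine ⟨i, ?_⟩
      have e1 : prt 2 x y = (x, y + 1) := by simp [prt, h1]
      have hc : cnd 0 2 j m n h (1, x, y) := ⟨hx, by simp only [e1]; exact hx', Or.inl rfl⟩
      rw [hi]
      unfold RZ
      rw [if_pos hc, if_pos (ver_zero _)]
      simp only [e1]
    · obtain ⟨i, hi⟩ := hRt 0 3 (by norm_num) (by norm_num)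
      refine ⟨i, ?_⟩
      have e1 : prt 3 x y = (x, y + 1) := by simp [prt, h1]
      have hc : cnd 0 3 j m n h (1, x, y) := ⟨hx, by simp only [e1]; exact hx', Or.inl rfl⟩
      rw [hi]
      unfold RZ
      rw [if_pos hc, if_pos (ver_zero _)]
      simp only [e1]
  · intro z x y hz hz' hx hor
    by_cases h1 : z % 2 = 1
    · refine ⟨0, ?_⟩
      rw [hR0, RZ_sig]
      have := h0 x
      unfold dom at hx
      rw [if_pos (by omega), if_pos h1]
    · -- `z` is even
      obtain ⟨p, hp, e1⟩ : ∃ p : ℕ, p < 4 ∧ dom m n h (prt p x y).1 (prt p x y).2 := by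
        rcases hor with h2 | h2
        · by_cases h3 : x % 2 = 1
          · exact ⟨1, by norm_num, by simpa [prt, h3] using h2⟩
          · exact ⟨0, by norm_num, by simpa [prt, h3] using h2⟩
        · by_cases h3 : y % 2 = 1
          · exact ⟨3, by norm_num, by simpa [prt, h3] using h2⟩
          · exact ⟨2, by norm_num, by simpa [prt, h3] using h2⟩
      obtain ⟨t, ht, e2, e3⟩ : ∃ t : ℕ, t < 3 ∧ act t j z ∧ ver t z = 1 := by
        by_cases h3 : z % 4 = 2
        · refine ⟨1, by norm_num, ?_, ?_⟩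
          · simp only [act]
            norm_num
            omega
          · simp only [ver]
            norm_num
            omega
        · refine ⟨2, by norm_num, ?_, ?_⟩
          · simp only [act]
            norm_num
            omega
          · simp only [ver]
            norm_num
            omega
      obtain ⟨i, hi⟩ := hRt t p ht hp
      refine ⟨i, ?_⟩
      have hc : cnd t p j m n h (z, x, y) := ⟨hx, e1, e2⟩
      rw [hi]
      unfold RZ
      rw [if_pos hc]
      simp only [e3]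
      norm_num
  · intro i a b
    simp only [hR]
    split_ifs with h1
    · rw [sub_self]
      simp [ht]
    · rw [RZ_ht hj1 hj]
      simp

end Pool.Agent.Slab3D
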