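import Pool.Agent.Slab3D.Induct
import Pool.Agent.Slab3D.RefY
import Pool.Agent.Slab3D.RefZ
import Pool.Agent.Slab3D.RefP

/-!
# The three cases
-/

namespace Pool.Agent.Slab3D

open Pool.Agent.Dimer3D Finset

theorem ok_of_tiling {j m n : ℕ} {σ M : V → V} {h : ℤ → ℤ} (hM : IsTiling Adj3 (boxF j m n) M)
    (hall : ∀ x y : ℤ, (1 ≤ x ∧ x ≤ m) → (1 ≤ y ∧ y ≤ n) → dom m n h x y) : OK j m n σ h M := by
  refine ⟨hM, ?_⟩
  rintro ⟨z, x, y⟩ hv hd
  rw [mem_boxF] at hv
  exact absurd (hall x y hv.2.1 hv.2.2) hd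

/-- `j` even -/
theorem caseZ : ∃ C : ℕ, ∀ j : ℕ, 1 ≤ j → Even j → ∀ (m n : ℕ) (M : V → V),
    IsTiling Adj3 (boxF j m n) M → Conn Adj3 (C * j ^ 31) (boxF j m n) M (sigZ j m n) := by
  obtain ⟨K, hK⟩ := induct 13 (by norm_num)
  refine ⟨K, fun j hj hj2 m n M hM => ?_⟩
  refine hK j hj m n (sigZ j m n) (sigZ_tiling j m n hj2)
    (fun h => (∀ x, 0 ≤ h x) ∧ ∀ x, h x ≤ n) (fun h hP => hP.1) ?_ ?_ (fun _ => 0)
    ⟨fun _ => le_rfl, fun _ => by positivity⟩ M (ok_of_tiling hM ?_)
  · intro h hP _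
    exact exists_refZ j m n hj hj2 h hP.1 hP.2
  · rintro h ⟨hP1, hP2⟩ ⟨x, y, hd⟩
    obtain ⟨h1, h2, h3, h4⟩ := hd
    refine ⟨Function.update h x (h x + 1), x, h x + 1, ⟨?_, ?_⟩, ?_, ?_, ?_⟩
    · intro x'
      by_cases hx : x' = x
      · subst hx; rw [Function.update_self]; have := hP1 x'; omega
      · rw [Function.update_of_ne hx]; exact hP1 x'
    · intro x'
      by_cases hx : x' = x
      · subst hx; rw [Function.update_self]; omega
      · rw [Function.update_of_ne hx]; exact hP2 x'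
    · rintro x' y' ⟨g1, g2, g3, g4⟩
      refine ⟨g1, g2, ?_, g4⟩
      by_cases hx : x' = x
      · subst hx; rw [Function.update_self] at g3; omega
      · rw [Function.update_of_ne hx] at g3; exact g3
    · refine ⟨x, h x + 1, ⟨h1, h2, by omega, by omega⟩, ?_⟩
      rintro ⟨-, -, g3, -⟩
      rw [Function.update_self] at g3
      omega
    · rintro x' y' ⟨g1, g2, g3, g4⟩ hnd
      by_cases hx : x' = x
      · subst hx
        have : y' ≤ h x' + 1 := by
          by_contra hcon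
          exact hnd ⟨g1, g2, by rw [Function.update_self]; omega, g4⟩
        rw [abs_le, abs_le]
        constructor <;> constructor <;> omega
      · exact absurd ⟨g1, g2, by rw [Function.update_of_ne hx]; exact g3, g4⟩ hnd
  · intro x y hx hy
    refine ⟨hx.1, hx.2, ?_, hy.2⟩
    show (0:ℤ) < y
    omega

/-- `n` even, `j ≥ 2` -/
theorem caseY : ∃ C : ℕ, ∀ j : ℕ, 2 ≤ j → ∀ (m n : ℕ), Even n → ∀ (M : V → V),
    IsTiling Adj3 (boxF j m n) M → Conn Adj3 (C * j ^ 31) (boxF j m n) M (sigY j m n) := by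
  obtain ⟨K, hK⟩ := induct 7 (by norm_num)
  refine ⟨K, fun j hj m n hn M hM => ?_⟩
  have hn' : Even (n:ℤ) := by exact_mod_cast hn
  refine hK j (by omega) m n (sigY j m n) (sigY_tiling j m n hn)
    (fun h => (∀ x, 0 ≤ h x) ∧ (∀ x, h x ≤ n) ∧ ∀ x, Even (h x)) (fun h hP => hP.1) ?_ ?_
    (fun _ => 0) ⟨fun _ => le_rfl, fun _ => by positivity, fun _ => Even.zero⟩ M
    (ok_of_tiling hM ?_)
  · intro h hP _
    exact exists_refY j m n hj hn h hP.1 hP.2.1 hP.2.2
  · rintro h ⟨hP1, hP2, hP3⟩ ⟨x, y, hd⟩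
    obtain ⟨h1, h2, h3, h4⟩ := hd
    have hlt : h x + 2 ≤ n := by
      have e1 := hP3 x
      obtain ⟨a, ha⟩ := e1
      obtain ⟨b, hb⟩ := hn'
      omega
    refine ⟨Function.update h x (h x + 2), x, h x + 1, ⟨?_, ?_, ?_⟩, ?_, ?_, ?_⟩
    · intro x'
      by_cases hx : x' = x
      · subst hx; rw [Function.update_self]; have := hP1 x'; omega
      · rw [Function.update_of_ne hx]; exact hP1 x'
    · intro x'
      by_cases hx : x' = x
      · subst hx; rw [Function.update_self]; omega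
      · rw [Function.update_of_ne hx]; exact hP2 x'
    · intro x'
      by_cases hx : x' = x
      · subst hx; rw [Function.update_self]; exact (hP3 x').add even_two
      · rw [Function.update_of_ne hx]; exact hP3 x'
    · rintro x' y' ⟨g1, g2, g3, g4⟩
      refine ⟨g1, g2, ?_, g4⟩
      by_cases hx : x' = x
      · subst hx; rw [Function.update_self] at g3; omega
      · rw [Function.update_of_ne hx] at g3; exact g3
    · refine ⟨x, h x + 1, ⟨h1, h2, by omega, by omega⟩, ?_⟩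
      rintro ⟨-, -, g3, -⟩
      rw [Function.update_self] at g3
      omega
    · rintro x' y' ⟨g1, g2, g3, g4⟩ hnd
      by_cases hx : x' = x
      · subst hx
        have : y' ≤ h x' + 2 := by
          by_contra hcon
          exact hnd ⟨g1, g2, by rw [Function.update_self]; omega, g4⟩
        rw [abs_le, abs_le]
        constructor <;> constructor <;> omega
      · exact absurd ⟨g1, g2, by rw [Function.update_of_ne hx]; exact g3, g4⟩ hnd
  · intro x y hx hy
    refine ⟨hx.1, hx.2, ?_, hy.2⟩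
    show (0:ℤ) < y
    omega

/-- `j = 1`, `n` even, `m ≥ 2` -/
theorem caseP : ∃ C : ℕ, ∀ (m n : ℕ), 2 ≤ m → Even n → ∀ (M : V → V),
    IsTiling Adj3 (boxF 1 m n) M → Conn Adj3 (C * 1 ^ 31) (boxF 1 m n) M (sigY 1 m n) := by
  obtain ⟨K, hK⟩ := induct 7 (by norm_num)
  refine ⟨K, fun m n hm hn M hM => ?_⟩
  have hm' : (2:ℤ) ≤ m := by exact_mod_cast hm
  refine hK 1 le_rfl m n (sigY 1 m n) (sigY_tiling 1 m n hn)
    (fun h => (h = fun _ => (n:ℤ)) ∨ ∃ (k : ℕ) (x0 : ℤ), 2 * k + 2 ≤ n ∧ 1 ≤ x0 ∧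
      x0 ≤ (m:ℤ) - 1 ∧ h = prof k x0) ?_ ?_ ?_
    (if 2 ≤ n then prof 0 1 else fun _ => (n:ℤ)) ?_ M
    (ok_of_tiling hM ?_)
  · rintro h (rfl | ⟨k, x0, -, -, -, rfl⟩) x
    · positivity
    · unfold prof; split_ifs <;> positivity
  · rintro h (rfl | ⟨k, x0, h1, h2, h3, rfl⟩) ⟨x, y, hd⟩
    · obtain ⟨g1, g2, g3, g4⟩ := hd
      have g3' : (n:ℤ) < y := g3
      omega
    · exact exists_refP m n hm hn k h1 x0 h2 h3
  · rintro h (rfl | ⟨k, x0, h1, h2, h3, rfl⟩) ⟨x, y, hd⟩
    · obtain ⟨g1, g2, g3, g4⟩ := hd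
      have g3' : (n:ℤ) < y := g3
      omega
    · have h1' : 2 * (k:ℤ) + 2 ≤ n := by exact_mod_cast h1
      by_cases hx0 : x0 < (m:ℤ) - 1
      · refine ⟨prof k (x0 + 1), x0, 2 * k + 1, Or.inr ⟨k, x0 + 1, h1, by omega, by omega, rfl⟩,
          ?_, ?_, ?_⟩
        · rintro x' y' ⟨g1, g2, g3, g4⟩
          refine ⟨g1, g2, ?_, g4⟩
          unfold prof at g3 ⊢
          split_ifs at g3 ⊢ <;> omega
        · refine ⟨x0, 2 * k + 1, ⟨by omega, by omega, ?_, by omega⟩, ?_⟩
          · unfold prof; rw [if_neg (lt_irrefl _)]; omega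
          · rintro ⟨-, -, g3, -⟩
            unfold prof at g3
            rw [if_pos (by omega)] at g3
            omega
        · rintro x' y' ⟨g1, g2, g3, g4⟩ hnd
          have g5 : ¬ (prof k (x0 + 1) x' < y') := fun g5 => hnd ⟨g1, g2, g5, g4⟩
          unfold prof at g3 g5
          rw [abs_le, abs_le]
          split_ifs at g3 g5 <;> omega
      · by_cases hk : 2 * k + 4 ≤ n
        · refine ⟨prof (k + 1) 1, x0, 2 * k + 1, Or.inr ⟨k + 1, 1, by omega, le_rfl, by omega, rfl⟩,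
            ?_, ?_, ?_⟩
          · rintro x' y' ⟨g1, g2, g3, g4⟩
            refine ⟨g1, g2, ?_, g4⟩
            unfold prof at g3 ⊢
            push_cast at g3
            split_ifs at g3 ⊢ <;> omega
          · refine ⟨x0, 2 * k + 1, ⟨by omega, by omega, ?_, by omega⟩, ?_⟩
            · unfold prof; rw [if_neg (lt_irrefl _)]; omega
            · rintro ⟨-, -, g3, -⟩
              unfold prof at g3
              push_cast at g3
              split_ifs at g3 <;> omega
          · rintro x' y' ⟨g1, g2, g3, g4⟩ hnd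
            have g5 : ¬ (prof (k + 1) 1 x' < y') := fun g5 => hnd ⟨g1, g2, g5, g4⟩
            unfold prof at g3 g5
            push_cast at g5
            rw [abs_le, abs_le]
            split_ifs at g3 g5 <;> omega
        · have hk' : n = 2 * k + 2 := by
            obtain ⟨a, ha⟩ := hn
            omega
          have hk'' : (n:ℤ) = 2 * k + 2 := by exact_mod_cast hk'
          refine ⟨fun _ => (n:ℤ), x0, 2 * k + 1, Or.inl rfl, ?_, ?_, ?_⟩
          · rintro x' y' ⟨g1, g2, g3, g4⟩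
            have g3' : (n:ℤ) < y' := g3
            omega
          · refine ⟨x0, 2 * k + 1, ⟨by omega, by omega, ?_, by omega⟩, ?_⟩
            · unfold prof; rw [if_neg (lt_irrefl _)]; omega
            · rintro ⟨-, -, g3, g4⟩
              have g3' : (n:ℤ) < 2 * k + 1 := g3
              omega
          · rintro x' y' ⟨g1, g2, g3, g4⟩ hnd
            unfold prof at g3
            rw [abs_le, abs_le]
            split_ifs at g3 <;> omega
  · by_cases h2 : 2 ≤ n
    · rw [if_pos h2]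
      exact Or.inr ⟨0, 1, by omega, le_rfl, by omega, rfl⟩
    · rw [if_neg h2]
      exact Or.inl rfl
  · intro x y hx hy
    have hn2 : 2 ≤ n := by
      obtain ⟨a, ha⟩ := hn
      omega
    rw [if_pos hn2]
    refine ⟨hx.1, hx.2, ?_, hy.2⟩
    unfold prof
    rw [if_neg (by omega)]
    push_cast
    omega

end Pool.Agent.Slab3D
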