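import Pool.Agent.Slab3D.Analytic

/-!
# The cut-off functions of Step 2
-/

namespace Pool.Agent.Slab3D

/-- the weight of the reference flow at distance `d` -/
noncomputable def gq (κ : ℝ) (T : ℕ) (d : ℤ) : ℝ :=
  if d ≤ 4 ∨ 2 * (T:ℤ) + 7 ≤ d then 0 else
    min 1 (min (Real.exp (κ * (d - 5 - T))) (Real.exp (κ * (T + 6 - d))))

/-- inner cut-off -/
noncomputable def xs (κ : ℝ) (T : ℕ) (d : ℤ) : ℝ := if d ≤ T + 5 then 1 - gq κ T d else 0

/-- outer cut-off -/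
noncomputable def xt (κ : ℝ) (T : ℕ) (d : ℤ) : ℝ := if d ≤ T + 5 then 0 else 1 - gq κ T d

variable {κ : ℝ} {T : ℕ}

theorem gq_nonneg (d : ℤ) : 0 ≤ gq κ T d := by
  unfold gq
  split_ifs
  · exact le_rfl
  · exact le_min zero_le_one (le_min (Real.exp_pos _).le (Real.exp_pos _).le)

theorem gq_le_one (d : ℤ) : gq κ T d ≤ 1 := by
  unfold gq
  split_ifs
  · exact zero_le_one
  · exact min_le_left _ _

theorem xs_nonneg (d : ℤ) : 0 ≤ xs κ T d := by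
  unfold xs
  split_ifs
  · linarith [gq_le_one (κ := κ) (T := T) d]
  · exact le_rfl

theorem xt_nonneg (d : ℤ) : 0 ≤ xt κ T d := by
  unfold xt
  split_ifs
  · exact le_rfl
  · linarith [gq_le_one (κ := κ) (T := T) d]

theorem xs_add_xt (d : ℤ) : xs κ T d + xt κ T d = 1 - gq κ T d := by
  unfold xs xt
  split_ifs <;> ring

theorem xs_near {d : ℤ} (hd : d ≤ 4) : xs κ T d = 1 ∧ xt κ T d = 0 := by
  have h1 : d ≤ (T:ℤ) + 5 := by omega
  have h2 : d ≤ 4 ∨ 2 * (T:ℤ) + 7 ≤ d := Or.inl hd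
  simp [xs, xt, gq, h1, h2]

theorem xs_far {d : ℤ} (hd : 2 * (T:ℤ) + 7 ≤ d) : xs κ T d = 0 ∧ xt κ T d = 1 := by
  have h1 : ¬ d ≤ (T:ℤ) + 5 := by omega
  have h2 : d ≤ 4 ∨ 2 * (T:ℤ) + 7 ≤ d := Or.inr hd
  simp [xs, xt, gq, h1, h2]

/-- the inner expression changes by a factor at most `e^κ` -/
theorem gq_factor (hκ : 0 ≤ κ) {d d' : ℤ} (hd : |d - d'| ≤ 1)
    (h1 : ¬ (d ≤ 4 ∨ 2 * (T:ℤ) + 7 ≤ d)) (h2 : ¬ (d' ≤ 4 ∨ 2 * (T:ℤ) + 7 ≤ d')) :
    gq κ T d' ≤ Real.exp κ * gq κ T d := by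
  unfold gq
  rw [if_neg h1, if_neg h2, mul_min_of_nonneg _ _ (Real.exp_pos κ).le,
    mul_min_of_nonneg _ _ (Real.exp_pos κ).le, mul_one, ← Real.exp_add, ← Real.exp_add]
  have h3 : |(d:ℝ) - d'| ≤ 1 := by exact_mod_cast hd
  rw [abs_le] at h3
  apply min_le_min (Real.one_le_exp hκ)
  apply min_le_min
  · apply Real.exp_le_exp.2
    nlinarith
  · apply Real.exp_le_exp.2
    nlinarith

theorem gq_edge5 (hκ : 0 ≤ κ) : gq κ T 5 ≤ Real.exp (-(κ * T)) := by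
  unfold gq
  split_ifs
  · exact (Real.exp_pos _).le
  · refine (min_le_right _ _).trans ((min_le_left _ _).trans ?_)
    apply Real.exp_le_exp.2
    push_cast
    nlinarith

theorem gq_edgeL (hκ : 0 ≤ κ) : gq κ T (2 * T + 6) ≤ Real.exp (-(κ * T)) := by
  unfold gq
  split_ifs
  · exact (Real.exp_pos _).le
  · refine (min_le_right _ _).trans ((min_le_right _ _).trans ?_)
    apply Real.exp_le_exp.2
    push_cast
    nlinarith

theorem gq_lip (hκ : 0 ≤ κ) (hκ1 : κ ≤ 1) {d d' : ℤ} (hd : |d - d'| ≤ 1) :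
    |gq κ T d - gq κ T d'| ≤ 2 * κ * gq κ T d + Real.exp (-(κ * T)) := by
  have he := (Real.exp_pos (-(κ * T))).le
  have hg := gq_nonneg (κ := κ) (T := T) d
  have hg' := gq_nonneg (κ := κ) (T := T) d'
  have h0 : 0 ≤ 2 * κ * gq κ T d := by positivity
  have hd2 := abs_le.1 hd
  by_cases h1 : d ≤ 4 ∨ 2 * (T:ℤ) + 7 ≤ d
  · have hgd : gq κ T d = 0 := by unfold gq; rw [if_pos h1]
    by_cases h2 : d' ≤ 4 ∨ 2 * (T:ℤ) + 7 ≤ d'
    · have hgd' : gq κ T d' = 0 := by unfold gq; rw [if_pos h2]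
      rw [hgd, hgd']; simp [he]
    · rw [hgd, zero_sub, abs_neg, abs_of_nonneg hg', mul_zero, zero_add]
      rcases h1 with h1 | h1
      · have : d' = 5 := by omega
        rw [this]; exact gq_edge5 hκ
      · have : d' = 2 * T + 6 := by omega
        rw [this]; exact gq_edgeL hκ
  · by_cases h2 : d' ≤ 4 ∨ 2 * (T:ℤ) + 7 ≤ d'
    · have hgd' : gq κ T d' = 0 := by unfold gq; rw [if_pos h2]
      rw [hgd', sub_zero, abs_of_nonneg hg]
      rcases h2 with h2 | h2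
      · have h3 : d = 5 := by omega
        have := gq_edge5 (T := T) hκ
        rw [← h3] at this
        linarith
      · have h3 : d = 2 * T + 6 := by omega
        have := gq_edgeL (T := T) hκ
        rw [← h3] at this
        linarith
    · have h3 := gq_factor hκ hd h1 h2
      have h4 := gq_factor hκ (by rwa [abs_sub_comm] at hd) h2 h1
      have h5 : Real.exp κ - 1 ≤ 2 * κ := by
        have := Real.abs_exp_sub_one_le (x := κ) (by rw [abs_of_nonneg hκ]; exact hκ1)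
        rw [abs_of_nonneg hκ] at this
        exact (le_abs_self _).trans this
      have h6 : gq κ T d' - gq κ T d ≤ 2 * κ * gq κ T d := by nlinarith
      have h7 : gq κ T d - gq κ T d' ≤ 2 * κ * gq κ T d := by
        have h8 : 1 - κ ≤ Real.exp (-κ) := by
          have := Real.add_one_le_exp (-κ); linarith
        have h9 : Real.exp (-κ) * gq κ T d ≤ gq κ T d' := by
          have h10 := mul_le_mul_of_nonneg_left h4 (Real.exp_pos (-κ)).le
          rw [← mul_assoc, ← Real.exp_add, neg_add_cancel, Real.exp_zero, one_mul] at h10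
          exact h10
        nlinarith
      rw [abs_le]
      constructor <;> linarith

theorem gq_mid (hκ : 0 ≤ κ) : gq κ T (T + 5) = 1 ∧ gq κ T (T + 6) = 1 := by
  constructor
  · unfold gq
    rw [if_neg (by omega)]
    apply min_eq_left
    apply le_min <;> apply Real.one_le_exp <;> push_cast <;> nlinarith
  · unfold gq
    rw [if_neg (by omega)]
    apply min_eq_left
    apply le_min <;> apply Real.one_le_exp <;> push_cast <;> nlinarith

theorem cut_lip (hκ : 0 ≤ κ) (hκ1 : κ ≤ 1) {d d' : ℤ} (hd : |d - d'| ≤ 1) :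
    |xs κ T d - xs κ T d'| + |xt κ T d - xt κ T d'| ≤
      2 * κ * gq κ T d + Real.exp (-(κ * T)) := by
  have h := gq_lip (T := T) hκ hκ1 hd
  have hm := gq_mid (T := T) hκ
  have he := (Real.exp_pos (-(κ * T))).le
  have hg := gq_nonneg (κ := κ) (T := T) d
  have hd2 := abs_le.1 hd
  unfold xs xt
  by_cases h1 : d ≤ T + 5
  · by_cases h2 : d' ≤ T + 5
    · rw [if_pos h1, if_pos h2, if_pos h1, if_pos h2, sub_self, abs_zero, add_zero]
      rw [show 1 - gq κ T d - (1 - gq κ T d') = -(gq κ T d - gq κ T d') by ring, abs_neg]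
      exact h
    · have e1 : d = T + 5 := by omega
      have e2 : d' = T + 6 := by omega
      rw [if_pos h1, if_neg h2, if_pos h1, if_neg h2, e1, e2, hm.1, hm.2]
      simp only [sub_self, abs_zero, add_zero]
      positivity
  · by_cases h2 : d' ≤ T + 5
    · have e1 : d' = T + 5 := by omega
      have e2 : d = T + 6 := by omega
      rw [if_neg h1, if_pos h2, if_neg h1, if_pos h2, e1, e2, hm.1, hm.2]
      simp only [sub_self, abs_zero, add_zero]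
      positivity
    · rw [if_neg h1, if_neg h2, if_neg h1, if_neg h2, sub_self, abs_zero, zero_add]
      rw [show 1 - gq κ T d - (1 - gq κ T d') = -(gq κ T d - gq κ T d') by ring, abs_neg]
      exact h

/-- the choice of the width `T = A (B + j) j`, where `B = C j^14` -/
theorem exists_T (N C : ℕ) (hN : 1 ≤ N) : ∃ A : ℕ, 1 ≤ A ∧ ∀ j : ℕ, 1 ≤ j → ∀ κ : ℝ,
    κ = 1 / (4 * N * (((C * j ^ 14 : ℕ) : ℝ) + j)) →
    6 * ((j * (2 * (2 * (A * (C * j ^ 14 + j) * j) + 9) + 1) ^ 2 : ℕ) : ℝ) ^ 2 *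
      (2 * (((C * j ^ 14 : ℕ) : ℝ) + j)) *
      Real.exp (-(κ * ((A * (C * j ^ 14 + j) * j : ℕ) : ℝ))) < 1 := by
  have hN' : (1:ℝ) ≤ N := by exact_mod_cast hN
  obtain ⟨A, hA1, hA⟩ := poly_exp (12 * 529 ^ 2 * ((C:ℝ) + 1) ^ 5 + 1) (by positivity) 4 76
    (4 * N) (by positivity)
  refine ⟨A, hA1, fun j hj κ hκ => ?_⟩
  have hE := hA A le_rfl j hj
  have hA1' : (1:ℝ) ≤ A := by exact_mod_cast hA1
  have hj1 : (1:ℝ) ≤ j := by exact_mod_cast hj
  have hj0 : (0:ℝ) < j := by linarith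
  set B : ℕ := C * j ^ 14 with hB
  have hBj : (B:ℝ) + j ≤ ((C:ℝ) + 1) * (j:ℝ) ^ 14 := by
    have h1 : (j:ℝ) ≤ (j:ℝ) ^ 14 := le_self_pow₀ hj1 (by norm_num)
    have h2 : (B:ℝ) = C * (j:ℝ) ^ 14 := by rw [hB]; push_cast; ring
    rw [h2, add_mul]
    linarith
  have hBj0 : (1:ℝ) ≤ (B:ℝ) + j := by
    have : (0:ℝ) ≤ B := Nat.cast_nonneg B
    linarith
  set T : ℕ := A * (B + j) * j with hT
  have hT' : (T:ℝ) = A * ((B:ℝ) + j) * j := by rw [hT]; push_cast; ring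
  have hT1 : (1:ℝ) ≤ T := by
    rw [hT']
    exact one_le_mul_of_one_le_of_one_le (one_le_mul_of_one_le_of_one_le hA1' hBj0) hj1
  have hT2 : (T:ℝ) ≤ A * ((C:ℝ) + 1) * (j:ℝ) ^ 15 := by
    rw [hT']
    calc (A:ℝ) * ((B:ℝ) + j) * j ≤ (A:ℝ) * (((C:ℝ) + 1) * (j:ℝ) ^ 14) * j := by gcongr
      _ = _ := by ring
  have hκT : κ * T = (A:ℝ) * j / (4 * N) := by
    have hBj' : (B:ℝ) + j ≠ 0 := by positivity
    rw [hκ, hT']
    field_simp
  have h2 : ((2 * (2 * T + 9) + 1 : ℕ) : ℝ) ≤ 23 * T := by push_cast; linarith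
  have h3 : ((j * (2 * (2 * T + 9) + 1) ^ 2 : ℕ) : ℝ) ≤ 529 * j * (T:ℝ) ^ 2 := by
    have : ((j * (2 * (2 * T + 9) + 1) ^ 2 : ℕ) : ℝ) =
        (j:ℝ) * ((2 * (2 * T + 9) + 1 : ℕ) : ℝ) ^ 2 := by push_cast; ring
    rw [this]
    calc (j:ℝ) * ((2 * (2 * T + 9) + 1 : ℕ) : ℝ) ^ 2 ≤ (j:ℝ) * (23 * T) ^ 2 := by gcongr
      _ = _ := by ring
  have h4 : 6 * ((j * (2 * (2 * T + 9) + 1) ^ 2 : ℕ) : ℝ) ^ 2 * (2 * ((B:ℝ) + j)) ≤
      12 * 529 ^ 2 * ((C:ℝ) + 1) ^ 5 * (A:ℝ) ^ 4 * (j:ℝ) ^ 76 := by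
    calc 6 * ((j * (2 * (2 * T + 9) + 1) ^ 2 : ℕ) : ℝ) ^ 2 * (2 * ((B:ℝ) + j))
        ≤ 6 * (529 * j * (A * ((C:ℝ) + 1) * (j:ℝ) ^ 15) ^ 2) ^ 2 *
          (2 * (((C:ℝ) + 1) * (j:ℝ) ^ 14)) := by
          have h5 : ((j * (2 * (2 * T + 9) + 1) ^ 2 : ℕ) : ℝ) ≤
              529 * j * (A * ((C:ℝ) + 1) * (j:ℝ) ^ 15) ^ 2 := by
            refine h3.trans ?_
            gcongr
          gcongr
      _ = _ := by ring
  have h6 : 0 < (A:ℝ) ^ 4 * (j:ℝ) ^ 76 := by positivity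
  rw [Real.exp_neg, ← div_eq_mul_inv, div_lt_one (Real.exp_pos _), hκT]
  refine lt_of_lt_of_le (lt_of_le_of_lt h4 ?_) hE
  have h7 : (12 * 529 ^ 2 * ((C:ℝ) + 1) ^ 5 + 1) * (A:ℝ) ^ 4 * (j:ℝ) ^ 76 =
      12 * 529 ^ 2 * ((C:ℝ) + 1) ^ 5 * (A:ℝ) ^ 4 * (j:ℝ) ^ 76 + (A:ℝ) ^ 4 * (j:ℝ) ^ 76 := by ring
  rw [h7]
  linarith

end Pool.Agent.Slab3D
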