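import Pool.Agent.Dimer3D.BoxEmb

/-!
# Slabs: flows, heights, reference flows (definitions)

Vertices are `(z,x,y)`; the column of a vertex is `(x,y)`.
-/

namespace Pool.Agent.Slab3D

open Pool.Agent.Dimer3D Finset

abbrev V := ℤ × ℤ × ℤ

/-- next vertex in direction `i` (`0` is the direction `z`, `1` is `x`, `2` is `y`) -/
def nx (i : Fin 3) (v : V) : V :=
  match i with
  | 0 => (v.1 + 1, v.2.1, v.2.2)
  | 1 => (v.1, v.2.1 + 1, v.2.2)
  | 2 => (v.1, v.2.1, v.2.2 + 1)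

/-- colour -/
noncomputable def eps (v : V) : ℝ := if Even (v.1 + v.2.1 + v.2.2) then 1 else -1

/-- `F i z x y` is the value of the flow `F` on the edge from `(z,x,y)` to `nx i (z,x,y)` -/
abbrev Flow := Fin 3 → ℤ → ℤ → ℤ → ℝ

/-- divergence -/
noncomputable def dv (F : Flow) (z x y : ℤ) : ℝ :=
  (F 0 z x y - F 0 (z-1) x y) + (F 1 z x y - F 1 z (x-1) y) + (F 2 z x y - F 2 z x (y-1))

/-- the flow of a tiling: `1` unit from the black to the white end of each tile -/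
noncomputable def tf (M : V → V) : Flow := fun i z x y =>
  if M (z,x,y) = nx i (z,x,y) then eps (z,x,y) else 0

noncomputable def boxF (j m n : ℕ) : Finset V := Icc 1 (j:ℤ) ×ˢ (Icc 1 (m:ℤ) ×ˢ Icc 1 (n:ℤ))

/-- the columns `(x,y)` of the domain `D` with lower profile `h` -/
def dom (m n : ℕ) (h : ℤ → ℤ) (x y : ℤ) : Prop := 1 ≤ x ∧ x ≤ m ∧ h x < y ∧ y ≤ n

/-- height function -/
noncomputable def ht (j : ℕ) (φ : Flow) (a b : ℤ) : ℝ := ∑ y ∈ Icc 1 b, ∑ z ∈ Icc 1 (j:ℤ), φ 1 z a y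

/-- divergence free flows in the domain with profile `h` -/
structure Adm (j m n : ℕ) (h : ℤ → ℤ) (φ : Flow) : Prop where
  dv0 : ∀ z x y, dv φ z x y = 0
  z0 : ∀ i z x y, (z < 1 ∨ (j:ℤ) < z) → φ i z x y = 0
  z1 : ∀ z x y, (j:ℤ) ≤ z → φ 0 z x y = 0
  e0 : ∀ z x y, ¬ dom m n h x y → φ 0 z x y = 0
  e1 : ∀ z x y, ¬ (dom m n h x y ∧ dom m n h (x+1) y) → φ 1 z x y = 0
  e2 : ∀ z x y, ¬ (dom m n h x y ∧ dom m n h x (y+1)) → φ 2 z x y = 0

/-- tilings of the box agreeing with `σ` outside the domain -/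
def OK (j m n : ℕ) (σ : V → V) (h : ℤ → ℤ) (M : V → V) : Prop :=
  IsTiling Adj3 (boxF j m n) M ∧ ∀ v ∈ boxF j m n, ¬ dom m n h v.2.1 v.2.2 → M v = σ v

/-- a finite family `R` of tilings agreeing with `σ` outside the domain which together use every
edge that we need -/
structure Ref (N j m n : ℕ) (σ : V → V) (h : ℤ → ℤ) (R : Fin N → V → V) : Prop where
  ok : ∀ i, OK j m n σ h (R i)
  pos1 : ∀ x y, dom m n h x y → dom m n h (x+1) y → ∃ i, R i (1,x,y) = (1,x+1,y)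
  pos2 : ∀ x y, dom m n h x y → dom m n h x (y+1) → ∃ i, R i (1,x,y) = (1,x,y+1)
  pos0 : ∀ z x y, 1 ≤ z → z < (j:ℤ) → dom m n h x y →
    (dom m n h (x-1) y ∨ dom m n h x (y-1)) → ∃ i, R i (z,x,y) = (z+1,x,y)
  hb : ∀ i a b, |ht j (tf σ - tf (R i)) a b| ≤ 1

/-- the reference flow: average of the flows of the tilings `R i` -/
noncomputable def xD {N : ℕ} (R : Fin N → V → V) : Flow := fun i z x y =>
  (∑ k, tf (R k) i z x y) / N

/-- the vertical correction -/
noncomputable def dd (φ : Flow) (w : ℤ → ℤ → ℝ) (z x y : ℤ) : ℝ :=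
  (w x y - w (x-1) y) * φ 1 z (x-1) y + (w x y - w x (y-1)) * φ 2 z x (y-1)

/-- The basic operation: a flow which is `w · φ` up to small corrections (on the horizontal edges
of layer 1 and on the vertical edges), and whose height function is `F`. -/
noncomputable def op (j : ℕ) (φ : Flow) (w F : ℤ → ℤ → ℝ) : Flow := fun i z x y =>
  match i with
  | 0 => w x y * φ 0 z x y +
      (if 1 ≤ z ∧ z < (j:ℤ) then ∑ z' ∈ Icc (z+1) (j:ℤ), dd φ w z' x y else 0)
  | 1 => w x y * φ 1 z x y +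
      (if z = 1 then (F x y - F x (y-1)) - w x y * (ht j φ x y - ht j φ x (y-1)) else 0)
  | 2 => w x y * φ 2 z x y +
      (if z = 1 then -(F x y - F (x-1) y) + w x y * (ht j φ x y - ht j φ (x-1) y) else 0)

end Pool.Agent.Slab3D
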