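import Pool.Agent.Slab3D.HtLemmas

/-!
# Basic facts on the flows of tilings
-/

namespace Pool.Agent.Slab3D

open Pool.Agent.Dimer3D Finset

theorem mem_boxF {j m n : ℕ} {z x y : ℤ} : (z, x, y) ∈ boxF j m n ↔
    (1 ≤ z ∧ z ≤ j) ∧ (1 ≤ x ∧ x ≤ m) ∧ (1 ≤ y ∧ y ≤ n) := by
  simp only [boxF, mem_product, mem_Icc]

theorem eps_cases (v : V) : eps v = 1 ∨ eps v = -1 := by
  unfold eps; split_ifs <;> simp

theorem eps_sq (v : V) : eps v * eps v = 1 := by
  rcases eps_cases v with h | h <;> rw [h] <;> norm_num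

theorem eps_abs (v : V) : |eps v| = 1 := by
  rcases eps_cases v with h | h <;> rw [h] <;> norm_num

theorem eps_ne (v : V) : eps v ≠ 0 := by
  rcases eps_cases v with h | h <;> rw [h] <;> norm_num

theorem eps_pz (z x y : ℤ) : eps (z - 1, x, y) = - eps (z, x, y) := by
  have h : z - 1 + x + y = z + x + y - 1 := by ring
  simp only [eps, h, Int.even_sub_one]
  by_cases h : Even (z + x + y) <;> simp [h]

theorem eps_px (z x y : ℤ) : eps (z, x - 1, y) = - eps (z, x, y) := by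
  have h : z + (x - 1) + y = z + x + y - 1 := by ring
  simp only [eps, h, Int.even_sub_one]
  by_cases h : Even (z + x + y) <;> simp [h]

theorem eps_py (z x y : ℤ) : eps (z, x, y - 1) = - eps (z, x, y) := by
  have h : z + x + (y - 1) = z + x + y - 1 := by ring
  simp only [eps, h, Int.even_sub_one]
  by_cases h : Even (z + x + y) <;> simp [h]

theorem nx_ne (i : Fin 3) (v : V) : nx i v ≠ v := by
  obtain ⟨z, x, y⟩ := v
  fin_cases i <;> simp [nx]

theorem tiling_iff {A : Finset V} {M : V → V} (hM : IsTiling Adj3 A M) {u v : V} (hv : v ∈ A) :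
    M u = v ↔ M v = u := by
  constructor
  · rintro rfl
    by_cases hu : u ∈ A
    · exact hM.inv u hu
    · rw [hM.out u hu, hM.out u hu]
  · rintro rfl
    exact hM.inv v hv

theorem tf_out {A : Finset V} {M : V → V} (hM : IsTiling Adj3 A M) (i : Fin 3) (z x y : ℤ)
    (h : ¬ ((z, x, y) ∈ A ∧ nx i (z, x, y) ∈ A)) : tf M i z x y = 0 := by
  unfold tf
  rw [if_neg]
  intro h1
  apply h
  by_cases hv : (z, x, y) ∈ A
  · exact ⟨hv, h1 ▸ hM.mem _ hv⟩
  · rw [hM.out _ hv] at h1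
    exact absurd h1.symm (nx_ne i _)

theorem tf_abs (M : V → V) (i : Fin 3) (z x y : ℤ) : |tf M i z x y| ≤ 1 := by
  unfold tf
  split_ifs
  · rw [eps_abs]
  · simp

/-- the weight of an edge is `0` or `1` -/
theorem eps_tf (M : V → V) (i : Fin 3) (z x y : ℤ) :
    eps (z, x, y) * tf M i z x y = if M (z,x,y) = nx i (z,x,y) then 1 else 0 := by
  unfold tf
  split_ifs
  · rw [eps_sq]
  · simp

theorem dv_tf {A : Finset V} {M : V → V} (hM : IsTiling Adj3 A M) (z x y : ℤ)
    (hv : (z, x, y) ∈ A) : dv (tf M) z x y = eps (z, x, y) := by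
  have hadj := hM.adj _ hv
  have e0 : M (z - 1, x, y) = (z, x, y) ↔ M (z, x, y) = (z - 1, x, y) := tiling_iff hM hv
  have e1 : M (z, x - 1, y) = (z, x, y) ↔ M (z, x, y) = (z, x - 1, y) := tiling_iff hM hv
  have e2 : M (z, x, y - 1) = (z, x, y) ↔ M (z, x, y) = (z, x, y - 1) := tiling_iff hM hv
  simp only [dv, tf, nx, sub_add_cancel, e0, e1, e2, eps_pz, eps_px, eps_py]
  generalize M (z, x, y) = u at hadj ⊢
  obtain ⟨z', x', y'⟩ := u
  simp only [Prod.mk.injEq]
  simp only [Adj3] at hadj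
  have habs : ∀ a b : ℤ, |a - b| = 1 → (b = a - 1 ∨ b = a + 1) := by
    intro a b h
    rcases abs_eq (zero_le_one' ℤ) |>.1 h with h | h <;> omega
  rcases hadj with ⟨h, rfl, rfl⟩ | ⟨rfl, h, rfl⟩ | ⟨rfl, rfl, h⟩
  · rcases habs _ _ h with rfl | rfl
    · have h1 : ¬ (z - 1 = z + 1) := by omega
      have h2 : ¬ (z - 1 = z) := by omega
      simp [h1, h2]
    · have h1 : ¬ (z + 1 = z - 1) := by omega
      have h2 : ¬ (z + 1 = z) := by omega
      simp [h1, h2]
  · rcases habs _ _ h with rfl | rfl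
    · have h1 : ¬ (x - 1 = x + 1) := by omega
      have h2 : ¬ (x - 1 = x) := by omega
      simp [h1, h2]
    · have h1 : ¬ (x + 1 = x - 1) := by omega
      have h2 : ¬ (x + 1 = x) := by omega
      simp [h1, h2]
  · rcases habs _ _ h with rfl | rfl
    · have h1 : ¬ (y - 1 = y + 1) := by omega
      have h2 : ¬ (y - 1 = y) := by omega
      simp [h1, h2]
    · have h1 : ¬ (y + 1 = y - 1) := by omega
      have h2 : ¬ (y + 1 = y) := by omega
      simp [h1, h2]

theorem dv_tf_out {A : Finset V} {M : V → V} (hM : IsTiling Adj3 A M) (z x y : ℤ)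
    (hv : (z, x, y) ∉ A) : dv (tf M) z x y = 0 := by
  have h0 : ∀ i, tf M i z x y = 0 := fun i => tf_out hM i z x y fun h => hv h.1
  have a0 : tf M 0 (z - 1) x y = 0 := tf_out hM 0 _ _ _ fun h => hv (by simpa [nx] using h.2)
  have a1 : tf M 1 z (x - 1) y = 0 := tf_out hM 1 _ _ _ fun h => hv (by simpa [nx] using h.2)
  have a2 : tf M 2 z x (y - 1) = 0 := tf_out hM 2 _ _ _ fun h => hv (by simpa [nx] using h.2)
  simp [dv, h0, a0, a1, a2]

theorem dv_add (F G : Flow) (z x y : ℤ) : dv (F + G) z x y = dv F z x y + dv G z x y := by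
  simp only [dv, Pi.add_apply]; ring

theorem dv_sub (F G : Flow) (z x y : ℤ) : dv (F - G) z x y = dv F z x y - dv G z x y := by
  simp only [dv, Pi.sub_apply]; ring

theorem dv_smul (c : ℝ) (F : Flow) (z x y : ℤ) : dv (c • F) z x y = c * dv F z x y := by
  simp only [dv, Pi.smul_apply, smul_eq_mul]; ring

theorem ht_add (j : ℕ) (F G : Flow) (a b : ℤ) : ht j (F + G) a b = ht j F a b + ht j G a b := by
  simp only [ht, Pi.add_apply, sum_add_distrib]

theorem ht_sub (j : ℕ) (F G : Flow) (a b : ℤ) : ht j (F - G) a b = ht j F a b - ht j G a b := by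
  simp only [ht, Pi.sub_apply, sum_sub_distrib]

theorem ht_smul (j : ℕ) (c : ℝ) (F : Flow) (a b : ℤ) : ht j (c • F) a b = c * ht j F a b := by
  simp only [ht, Pi.smul_apply, smul_eq_mul, mul_sum]

section OKsec
variable {j m n : ℕ} {σ : V → V} {h : ℤ → ℤ} {M M' : V → V}

/-- tilings which are OK agree on edges with an end outside of the domain -/
theorem OK.tf_eq (hσ : IsTiling Adj3 (boxF j m n) σ) (hM : OK j m n σ h M) (i : Fin 3)
    (z x y : ℤ) (hd : ¬ (dom m n h x y ∧ dom m n h (nx i (z, x, y)).2.1 (nx i (z, x, y)).2.2)) :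
    tf M i z x y = tf σ i z x y := by
  by_cases hb : (z, x, y) ∈ boxF j m n ∧ nx i (z, x, y) ∈ boxF j m n
  · have : M (z, x, y) = nx i (z, x, y) ↔ σ (z, x, y) = nx i (z, x, y) := by
      by_cases h1 : dom m n h x y
      · have h2 : ¬ dom m n h (nx i (z, x, y)).2.1 (nx i (z, x, y)).2.2 := fun h' => hd ⟨h1, h'⟩
        rw [tiling_iff hM.1 hb.2, tiling_iff hσ hb.2, hM.2 _ hb.2 h2]
      · rw [hM.2 _ hb.1 h1]
    simp only [tf, this]
  · rw [tf_out hM.1 i z x y hb, tf_out hσ i z x y hb]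

theorem OK.sub_adm (hσ : IsTiling Adj3 (boxF j m n) σ) (hM : OK j m n σ h M)
    (hM' : OK j m n σ h M') : Adm j m n h (tf M - tf M') := by
  have hout : ∀ i z x y, ¬ ((z, x, y) ∈ boxF j m n ∧ nx i (z, x, y) ∈ boxF j m n) →
      (tf M - tf M') i z x y = 0 := by
    intro i z x y hb
    simp only [Pi.sub_apply, tf_out hM.1 i z x y hb, tf_out hM'.1 i z x y hb, sub_zero]
  have heq : ∀ i z x y,
      ¬ (dom m n h x y ∧ dom m n h (nx i (z, x, y)).2.1 (nx i (z, x, y)).2.2) →
      (tf M - tf M') i z x y = 0 := by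
    intro i z x y hd
    simp only [Pi.sub_apply, hM.tf_eq hσ i z x y hd, hM'.tf_eq hσ i z x y hd, sub_self]
  refine ⟨?_, ?_, ?_, ?_, ?_, ?_⟩
  · intro z x y
    rw [dv_sub]
    by_cases hv : (z, x, y) ∈ boxF j m n
    · rw [dv_tf hM.1 _ _ _ hv, dv_tf hM'.1 _ _ _ hv, sub_self]
    · rw [dv_tf_out hM.1 _ _ _ hv, dv_tf_out hM'.1 _ _ _ hv, sub_self]
  · intro i z x y hz
    apply hout
    rintro ⟨h1, -⟩
    rw [mem_boxF] at h1
    omega
  · intro z x y hz
    apply hout
    rintro ⟨-, h1⟩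
    simp only [nx, mem_boxF] at h1
    omega
  · intro z x y hd
    exact heq 0 z x y fun h' => hd h'.1
  · intro z x y hd
    exact heq 1 z x y hd
  · intro z x y hd
    exact heq 2 z x y hd

end OKsec

section Refsec
variable {j m n N : ℕ} {σ : V → V} {h : ℤ → ℤ} {M M' : V → V} {R : Fin N → V → V}

theorem Adm.sum {ι : Type*} (s : Finset ι) (φ : ι → Flow) (hφ : ∀ k ∈ s, Adm j m n h (φ k))
    (c : ℝ) : Adm j m n h (fun i z x y => (∑ k ∈ s, φ k i z x y) * c) := by
  refine ⟨?_, ?_, ?_, ?_, ?_, ?_⟩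
  · intro z x y
    have : dv (fun i z x y => (∑ k ∈ s, φ k i z x y) * c) z x y =
        (∑ k ∈ s, dv (φ k) z x y) * c := by
      simp only [dv, sum_add_distrib, sum_sub_distrib]
      ring
    rw [this, sum_eq_zero fun k hk => (hφ k hk).dv0 z x y, zero_mul]
  · intro i z x y hz
    show (∑ k ∈ s, φ k i z x y) * c = 0
    rw [sum_eq_zero fun k hk => (hφ k hk).z0 i z x y hz, zero_mul]
  · intro z x y hz
    show (∑ k ∈ s, φ k 0 z x y) * c = 0
    rw [sum_eq_zero fun k hk => (hφ k hk).z1 z x y hz, zero_mul]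
  · intro z x y hz
    show (∑ k ∈ s, φ k 0 z x y) * c = 0
    rw [sum_eq_zero fun k hk => (hφ k hk).e0 z x y hz, zero_mul]
  · intro z x y hz
    show (∑ k ∈ s, φ k 1 z x y) * c = 0
    rw [sum_eq_zero fun k hk => (hφ k hk).e1 z x y hz, zero_mul]
  · intro z x y hz
    show (∑ k ∈ s, φ k 2 z x y) * c = 0
    rw [sum_eq_zero fun k hk => (hφ k hk).e2 z x y hz, zero_mul]

theorem sub_xD_eq (hN : 1 ≤ N) (M : V → V) (R : Fin N → V → V) :
    tf M - xD R = fun i z x y => (∑ k, (tf M - tf (R k)) i z x y) * (N:ℝ)⁻¹ := by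
  have hN' : (N:ℝ) ≠ 0 := by
    have : 0 < N := by omega
    positivity
  funext i z x y
  simp only [Pi.sub_apply, xD, sum_sub_distrib, sum_const, card_univ, Fintype.card_fin,
    nsmul_eq_mul]
  field_simp

theorem Ref.phi_adm (hN : 1 ≤ N) (hσ : IsTiling Adj3 (boxF j m n) σ) (hR : Ref N j m n σ h R)
    (hM : OK j m n σ h M) : Adm j m n h (tf M - xD R) := by
  rw [sub_xD_eq hN]
  exact Adm.sum univ (fun k => tf M - tf (R k)) (fun k _ => hM.sub_adm hσ (hR.ok k)) _

theorem xD_weight (R : Fin N → V → V) (i : Fin 3) (z x y : ℤ) :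
    eps (z, x, y) * xD R i z x y =
      (∑ k, if R k (z,x,y) = nx i (z,x,y) then (1:ℝ) else 0) / N := by
  rw [xD, mul_div_assoc', mul_sum]
  congr 1
  apply sum_congr rfl
  intro k _
  exact eps_tf (R k) i z x y

theorem xD_nonneg (R : Fin N → V → V) (i : Fin 3) (z x y : ℤ) :
    0 ≤ eps (z, x, y) * xD R i z x y := by
  rw [xD_weight]
  apply div_nonneg _ (Nat.cast_nonneg _)
  apply sum_nonneg
  intro k _
  split_ifs <;> norm_num

theorem xD_le_one (R : Fin N → V → V) (i : Fin 3) (z x y : ℤ) :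
    eps (z, x, y) * xD R i z x y ≤ 1 := by
  rw [xD_weight]
  apply div_le_one_of_le₀ _ (Nat.cast_nonneg _)
  calc _ ≤ ∑ k : Fin N, (1:ℝ) := by
        apply sum_le_sum
        intro k _
        split_ifs <;> norm_num
    _ = N := by simp

theorem xD_pos (R : Fin N → V → V) (i : Fin 3) (z x y : ℤ)
    (hp : ∃ k, R k (z,x,y) = nx i (z,x,y)) :
    1 / (N:ℝ) ≤ eps (z, x, y) * xD R i z x y := by
  rw [xD_weight]
  apply div_le_div_of_nonneg_right _ (Nat.cast_nonneg _)
  obtain ⟨k, hk⟩ := hp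
  have := single_le_sum (f := fun k => if R k (z,x,y) = nx i (z,x,y) then (1:ℝ) else 0)
    (s := univ) (fun k _ => by positivity) (mem_univ k)
  simpa only [hk, if_true] using this

theorem phi_abs (M : V → V) (R : Fin N → V → V) (i : Fin 3) (z x y : ℤ) :
    |(tf M - xD R) i z x y| ≤ 1 := by
  have h1 := xD_nonneg R i z x y
  have h2 := xD_le_one R i z x y
  have h3 := eps_tf M i z x y
  have h4 : |(tf M - xD R) i z x y| = |eps (z,x,y) * (tf M - xD R) i z x y| := by
    rw [abs_mul, eps_abs, one_mul]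
  rw [h4, Pi.sub_apply, Pi.sub_apply, Pi.sub_apply, Pi.sub_apply, mul_sub, h3, abs_le]
  split_ifs <;> constructor <;> linarith

end Refsec

end Pool.Agent.Slab3D
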