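import Pool.Agent.Slab3D.Step1

/-!
# Flattening
-/

namespace Pool.Agent.Slab3D

open Pool.Agent.Dimer3D Finset

theorem finite_tilings (A : Finset V) : {M : V → V | IsTiling Adj3 A M}.Finite := by
  have : Finite ↥{M : V → V | IsTiling Adj3 A M} := by
    apply Finite.of_injective (β := A → A) (fun M x => ⟨M.1 x.1, IsTiling.mem M.2 x.1 x.2⟩)
    rintro ⟨M, hM⟩ ⟨M', hM'⟩ hMM
    apply Subtype.ext
    funext v
    by_cases hv : v ∈ A
    · have := congrFun hMM ⟨v, hv⟩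
      exact congrArg Subtype.val this
    · show M v = M' v
      rw [IsTiling.out hM v hv, IsTiling.out hM' v hv]
  exact Set.toFinite _

theorem flat (N : ℕ) (hN : 1 ≤ N) : ∃ C : ℕ, 1 ≤ C ∧ ∀ j : ℕ, 1 ≤ j →
    ∀ (m n : ℕ) (σ : V → V) (h : ℤ → ℤ) (R : Fin N → V → V), (∀ x, 0 ≤ h x) →
      IsTiling Adj3 (boxF j m n) σ → Ref N j m n σ h R → ∀ M, OK j m n σ h M →
      ∃ M', OK j m n σ h M' ∧ Conn Adj3 (C * j ^ 7) (boxF j m n) M M' ∧
        ∀ a b, |ht j (tf M' - xD R) a b| ≤ ((C * j ^ 14 : ℕ) : ℝ) := by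
  obtain ⟨C, hC, hstep⟩ := step1 N hN
  refine ⟨C, hC, ?_⟩
  intro j hj m n σ h R hh hσ hR M hM
  set S : Set (V → V) := {M' | OK j m n σ h M' ∧ Conn Adj3 (C * j ^ 7) (boxF j m n) M M'}
    with hS
  have hfin : S.Finite := by
    exact (finite_tilings (boxF j m n)).subset fun M' hM' => hM'.1.1
  obtain ⟨M', hM'S, hmin⟩ := Set.exists_min_image S (Psi j m n R) hfin
    ⟨M, hM, Relation.ReflTransGen.refl⟩
  refine ⟨M', hM'S.1, hM'S.2, ?_⟩
  by_contra hcon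
  push Not at hcon
  obtain ⟨M'', hM'', hnear, hlt⟩ := hstep j hj m n σ h R hh hσ hR M' hM'S.1 hcon
  have := hmin M'' ⟨hM'', hM'S.2.tail hnear⟩
  linarith

end Pool.Agent.Slab3D
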