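import Pool.Agent.Slab3D.Defs

/-!
# Heights of divergence free flows
-/

namespace Pool.Agent.Slab3D

open Pool.Agent.Dimer3D Finset

variable {j m n : ℕ} {h : ℤ → ℤ} {φ : Flow}

private lemma sum_top (f : ℤ → ℝ) {a b : ℤ} (hab : a ≤ b) :
    ∑ y ∈ Icc a b, f y = ∑ y ∈ Icc a (b-1), f y + f b := by
  have h1 : Icc a b = insert b (Icc a (b-1)) := by
    ext y
    simp only [mem_insert, mem_Icc]
    omega
  rw [h1, sum_insert (by simp), add_comm]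

private lemma sum_tele (g : ℤ → ℝ) (N : ℕ) :
    ∑ z ∈ Icc 1 (N:ℤ), (g z - g (z-1)) = g N - g 0 := by
  induction N with
  | zero => simp
  | succ N ih =>
    rw [sum_top _ (by push_cast; omega), Nat.cast_succ, add_sub_cancel_right, ih]
    ring

private lemma ht_zero_of {a b : ℤ} (hz : ∀ z, ∀ y ∈ Icc 1 b, φ 1 z a y = 0) :
    ht j φ a b = 0 := by
  rw [ht]
  exact sum_eq_zero fun y hy => sum_eq_zero fun z _ => hz z y hy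

private lemma not_dom_nonpos (hh : ∀ x, 0 ≤ h x) (a : ℤ) {b : ℤ} (hb : b ≤ 0) :
    ¬ dom m n h a b := by
  rintro ⟨_, _, h3, _⟩
  have := hh a
  omega

theorem Adm.ht_sub_y (hh : ∀ x, 0 ≤ h x) (hA : Adm j m n h φ) (a b : ℤ) :
    ht j φ a b - ht j φ a (b-1) = ∑ z ∈ Icc 1 (j:ℤ), φ 1 z a b := by
  rcases le_or_gt 1 b with hb | hb
  · rw [ht, ht, sum_top _ hb, add_sub_cancel_left]
  · have h1 : Icc 1 b = (∅ : Finset ℤ) := Icc_eq_empty (by omega)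
    have h2 : Icc 1 (b-1) = (∅ : Finset ℤ) := Icc_eq_empty (by omega)
    rw [ht, ht, h1, h2, sum_empty, sub_zero]
    refine (sum_eq_zero fun z _ => ?_).symm
    exact hA.e1 z a b fun hd => not_dom_nonpos hh a (by omega) hd.1

private lemma Adm.row (hA : Adm j m n h φ) (a y : ℤ) :
    ∑ z ∈ Icc 1 (j:ℤ), φ 1 z a y - ∑ z ∈ Icc 1 (j:ℤ), φ 1 z (a-1) y =
      -(∑ z ∈ Icc 1 (j:ℤ), φ 2 z a y) + ∑ z ∈ Icc 1 (j:ℤ), φ 2 z a (y-1) := by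
  have h1 := sum_tele (fun z => φ 0 z a y) j
  have h2 : φ 0 (j:ℤ) a y = 0 := hA.z1 _ _ _ le_rfl
  have h3 : φ 0 0 a y = 0 := hA.z0 0 0 a y (Or.inl (by norm_num))
  simp only [h2, h3, sub_zero] at h1
  have h4 : ∑ z ∈ Icc 1 (j:ℤ), dv φ z a y = 0 := sum_eq_zero fun z _ => hA.dv0 z a y
  simp only [dv] at h4
  rw [sum_add_distrib, sum_add_distrib, h1, sum_sub_distrib, sum_sub_distrib] at h4
  linarith

theorem Adm.ht_sub_x (hh : ∀ x, 0 ≤ h x) (hA : Adm j m n h φ) (a b : ℤ) :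
    ht j φ a b - ht j φ (a-1) b = - ∑ z ∈ Icc 1 (j:ℤ), φ 2 z a b := by
  rcases le_or_gt 0 b with hb | hb
  · obtain ⟨N, rfl⟩ := Int.eq_ofNat_of_zero_le hb
    rw [ht, ht, ← sum_sub_distrib]
    have h1 : ∀ y ∈ Icc 1 (N:ℤ), (∑ z ∈ Icc 1 (j:ℤ), φ 1 z a y -
        ∑ z ∈ Icc 1 (j:ℤ), φ 1 z (a-1) y) =
        (fun y => -(∑ z ∈ Icc 1 (j:ℤ), φ 2 z a y)) y -
          (fun y => -(∑ z ∈ Icc 1 (j:ℤ), φ 2 z a y)) (y-1) := by
      intro y _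
      rw [hA.row a y]
      ring
    rw [sum_congr rfl h1, sum_tele]
    have h2 : ∑ z ∈ Icc 1 (j:ℤ), φ 2 z a 0 = 0 := sum_eq_zero fun z _ =>
      hA.e2 z a 0 fun hd => not_dom_nonpos hh a le_rfl hd.1
    simp only [h2, neg_zero, sub_zero]
  · have h1 : Icc 1 b = (∅ : Finset ℤ) := Icc_eq_empty (by omega)
    rw [ht, ht, h1, sum_empty, sum_empty, sub_zero]
    have h2 : ∑ z ∈ Icc 1 (j:ℤ), φ 2 z a b = 0 := sum_eq_zero fun z _ =>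
      hA.e2 z a b fun hd => not_dom_nonpos hh a (by omega) hd.1
    rw [h2, neg_zero]

private lemma Adm.ht_top (hh : ∀ x, 0 ≤ h x) (hA : Adm j m n h φ) {c : ℤ} (hc : (n:ℤ) ≤ c)
    (a : ℤ) : ht j φ a c = 0 := by
  rcases le_or_gt 0 a with ha | ha
  · obtain ⟨N, rfl⟩ := Int.eq_ofNat_of_zero_le ha
    clear ha
    show ht j φ (N:ℤ) c = 0
    induction N with
    | zero =>
      refine ht_zero_of fun z y _ => hA.e1 _ _ _ fun hd => ?_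
      have := hd.1.1
      simp at this
    | succ N ih =>
      have h1 := hA.ht_sub_x hh ((N+1 : ℕ) : ℤ) c
      have h2 : ∑ z ∈ Icc 1 (j:ℤ), φ 2 z ((N+1 : ℕ) : ℤ) c = 0 := sum_eq_zero fun z _ =>
        hA.e2 _ _ _ fun hd => by
          have := hd.2.2.2.2
          omega
      have h3 : ((N+1 : ℕ) : ℤ) - 1 = N := by push_cast; ring
      rw [h2, h3, ih] at h1
      linarith
  · refine ht_zero_of fun z y _ => hA.e1 _ _ _ fun hd => ?_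
    have := hd.1.1
    omega

theorem Adm.ht_zero_x (hh : ∀ x, 0 ≤ h x) (hA : Adm j m n h φ) {a b : ℤ}
    (hab : ¬ (dom m n h a b ∧ dom m n h (a+1) b)) : ht j φ a b = 0 ∧ ht j φ a (b-1) = 0 := by
  rcases le_or_gt b n with hb | hb
  · have h1 : ∀ z y, y ≤ b → φ 1 z a y = 0 := by
      intro z y hy
      refine hA.e1 _ _ _ fun hd => hab ?_
      obtain ⟨⟨h1, h2, h3, h4⟩, ⟨h5, h6, h7, h8⟩⟩ := hd
      exact ⟨⟨h1, h2, by omega, hb⟩, ⟨h5, h6, by omega, hb⟩⟩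
    exact ⟨ht_zero_of fun z y hy => h1 z y (mem_Icc.1 hy).2,
      ht_zero_of fun z y hy => h1 z y (by have := (mem_Icc.1 hy).2; omega)⟩
  · exact ⟨hA.ht_top hh (by omega) a, hA.ht_top hh (by omega) a⟩

theorem Adm.ht_zero_y (hh : ∀ x, 0 ≤ h x) (hA : Adm j m n h φ) {a b : ℤ}
    (hab : ¬ (dom m n h a b ∧ dom m n h a (b+1))) : ht j φ a b = 0 ∧ ht j φ (a-1) b = 0 := by
  rcases le_or_gt (b+1) n with hb | hb
  · have h0 : ∀ y, y ≤ b → ¬ dom m n h a y := by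
      intro y hy hd
      obtain ⟨h1, h2, h3, h4⟩ := hd
      exact hab ⟨⟨h1, h2, by omega, by omega⟩, ⟨h1, h2, by omega, hb⟩⟩
    refine ⟨ht_zero_of fun z y hy => hA.e1 _ _ _ fun hd => h0 y (mem_Icc.1 hy).2 hd.1,
      ht_zero_of fun z y hy => hA.e1 _ _ _ fun hd => h0 y (mem_Icc.1 hy).2 ?_⟩
    have := hd.2
    rwa [sub_add_cancel] at this
  · exact ⟨hA.ht_top hh (by omega) a, hA.ht_top hh (by omega) _⟩

private lemma abs_sum_le_j {f : ℤ → ℝ} (hf : ∀ z, |f z| ≤ 1) :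
    |∑ z ∈ Icc 1 (j:ℤ), f z| ≤ j := by
  refine (abs_sum_le_sum_abs _ _).trans ((sum_le_sum fun z _ => hf z).trans ?_)
  simp

theorem Adm.ht_lip_y (hh : ∀ x, 0 ≤ h x) (hA : Adm j m n h φ)
    (h1 : ∀ i z x y, |φ i z x y| ≤ 1) (a b : ℤ) : |ht j φ a b - ht j φ a (b-1)| ≤ j := by
  rw [hA.ht_sub_y hh]
  exact abs_sum_le_j fun z => h1 1 z a b

theorem Adm.ht_lip_x (hh : ∀ x, 0 ≤ h x) (hA : Adm j m n h φ)
    (h1 : ∀ i z x y, |φ i z x y| ≤ 1) (a b : ℤ) : |ht j φ a b - ht j φ (a-1) b| ≤ j := by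
  rw [hA.ht_sub_x hh, abs_neg]
  exact abs_sum_le_j fun z => h1 2 z a b

private lemma sum_ht_row (S : ℤ → ℝ) (N : ℕ) :
    ∑ b ∈ Icc 0 (N:ℤ), ∑ y ∈ Icc 1 b, S y = ∑ y ∈ Icc 1 (N:ℤ), ((N:ℝ) + 1 - y) * S y := by
  induction N with
  | zero => simp
  | succ N ih =>
    have e1 : ((N+1 : ℕ) : ℤ) - 1 = N := by push_cast; ring
    rw [sum_top _ (by push_cast; omega), e1, ih]
    rw [sum_top (a := 1) (b := ((N+1 : ℕ) : ℤ)) (fun y : ℤ => (((N+1 : ℕ):ℝ) + 1 - y) * S y)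
      (by push_cast; omega), e1,
      sum_top (a := 1) (b := ((N+1 : ℕ) : ℤ)) S (by push_cast; omega), e1, ← add_assoc,
      ← sum_add_distrib]
    push_cast
    congr 1
    · exact sum_congr rfl fun y _ => by ring
    · ring

/-- The total height is the signed area. -/
theorem Adm.sum_ht (hh : ∀ x, 0 ≤ h x) (hA : Adm j m n h φ) (y0 : ℝ) :
    ∑ a ∈ Icc 0 (m:ℤ), ∑ b ∈ Icc 0 (n:ℤ), ht j φ a b =
      ∑ v ∈ boxF j m n, (y0 - v.2.2) * φ 1 v.1 v.2.1 v.2.2 := by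
  have h1 : ∀ a, ∑ b ∈ Icc 0 (n:ℤ), ht j φ a b =
      ∑ y ∈ Icc 1 (n:ℤ), (y0 - y) * ∑ z ∈ Icc 1 (j:ℤ), φ 1 z a y := by
    intro a
    have h2 := sum_ht_row (fun y => ∑ z ∈ Icc 1 (j:ℤ), φ 1 z a y) n
    have h3 : ht j φ a n = 0 := hA.ht_top hh le_rfl a
    rw [ht] at h3
    have h4 : ∑ b ∈ Icc 0 (n:ℤ), ht j φ a b =
        ∑ b ∈ Icc 0 (n:ℤ), ∑ y ∈ Icc 1 b, ∑ z ∈ Icc 1 (j:ℤ), φ 1 z a y := rfl
    rw [h4, h2]
    have h5 : ∑ y ∈ Icc 1 (n:ℤ), (y0 - y) * ∑ z ∈ Icc 1 (j:ℤ), φ 1 z a y =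
        ∑ y ∈ Icc 1 (n:ℤ), ((n:ℝ) + 1 - y) * ∑ z ∈ Icc 1 (j:ℤ), φ 1 z a y +
        (y0 - n - 1) * ∑ y ∈ Icc 1 (n:ℤ), ∑ z ∈ Icc 1 (j:ℤ), φ 1 z a y := by
      rw [mul_sum, ← sum_add_distrib]
      exact sum_congr rfl fun y _ => by ring
    rw [h5, h3, mul_zero, add_zero]
  have h0 : ∀ y z, φ 1 z 0 y = 0 := fun y z => hA.e1 _ _ _ fun hd => by
    have := hd.1.1
    omega
  have h2 : Icc 0 (m:ℤ) = insert 0 (Icc 1 (m:ℤ)) := by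
    ext a
    simp only [mem_insert, mem_Icc]
    omega
  rw [h2, sum_insert (by simp), h1 0]
  have h3 : ∑ y ∈ Icc 1 (n:ℤ), (y0 - y) * ∑ z ∈ Icc 1 (j:ℤ), φ 1 z 0 y = 0 := by
    refine sum_eq_zero fun y _ => ?_
    have h5 : ∑ z ∈ Icc 1 (j:ℤ), φ 1 z 0 y = 0 := sum_eq_zero fun z _ => h0 y z
    rw [h5, mul_zero]
  rw [h3, zero_add, boxF, sum_product, sum_congr rfl fun a _ => h1 a]
  have h4 : ∀ z ∈ Icc 1 (j:ℤ), ∑ w ∈ Icc 1 (m:ℤ) ×ˢ Icc 1 (n:ℤ),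
      (y0 - ((z, w) : ℤ × ℤ × ℤ).2.2) * φ 1 ((z, w) : ℤ × ℤ × ℤ).1 ((z, w) : ℤ × ℤ × ℤ).2.1
        ((z, w) : ℤ × ℤ × ℤ).2.2 =
      ∑ a ∈ Icc 1 (m:ℤ), ∑ y ∈ Icc 1 (n:ℤ), (y0 - y) * φ 1 z a y := fun z _ => sum_product _ _ _
  rw [sum_congr rfl h4, sum_comm (s := Icc 1 (j:ℤ)) (t := Icc 1 (m:ℤ))]
  refine sum_congr rfl fun a _ => ?_
  rw [sum_comm (s := Icc 1 (j:ℤ)) (t := Icc 1 (n:ℤ))]
  exact sum_congr rfl fun y _ => mul_sum _ _ _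

end Pool.Agent.Slab3D
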