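import Pool.Agent.Slab3D.Step2B

/-!
# The induction over the domains
-/

namespace Pool.Agent.Slab3D

open Pool.Agent.Dimer3D Finset

theorem near_mono {A : Finset V} {K K' : ℕ} (hK : K ≤ K') {M M' : V → V}
    (h : Near Adj3 K A M M') : Near Adj3 K' A M M' := ⟨h.1, h.2.1, h.2.2.trans hK⟩

theorem conn_mono {A : Finset V} {K K' : ℕ} (hK : K ≤ K') {M M' : V → V}
    (h : Conn Adj3 K A M M') : Conn Adj3 K' A M M' :=
  Relation.ReflTransGen.mono (fun _ _ h' => near_mono hK h') _ _ h

/-- If for a family `P` of profiles there are reference families, and every non-empty domain of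
the family can be made smaller inside a window of radius `1`, all tilings are connected to `σ`. -/
theorem induct (N : ℕ) (hN : 1 ≤ N) : ∃ C : ℕ, ∀ j : ℕ, 1 ≤ j →
    ∀ (m n : ℕ) (σ : V → V), IsTiling Adj3 (boxF j m n) σ → ∀ P : (ℤ → ℤ) → Prop,
      (∀ h, P h → ∀ x, 0 ≤ h x) →
      (∀ h, P h → (∃ x y, dom m n h x y) → ∃ R : Fin N → V → V, Ref N j m n σ h R) →
      (∀ h, P h → (∃ x y, dom m n h x y) → ∃ (h' : ℤ → ℤ) (x0 y0 : ℤ), P h' ∧
        (∀ x y, dom m n h' x y → dom m n h x y) ∧
        (∃ x y, dom m n h x y ∧ ¬ dom m n h' x y) ∧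
        (∀ x y, dom m n h x y → ¬ dom m n h' x y → |x - x0| ≤ 1 ∧ |y - y0| ≤ 1)) →
      ∀ h, P h → ∀ M, OK j m n σ h M → Conn Adj3 (C * j ^ 31) (boxF j m n) M σ := by
  obtain ⟨C1, hC1, hflat⟩ := flat N hN
  obtain ⟨C2, hstep2⟩ := step2 N C1 hN hC1
  refine ⟨max C1 C2, ?_⟩
  intro j hj m n σ hσ P hP0 hPR hPstep
  have hK1 : C1 * j ^ 7 ≤ max C1 C2 * j ^ 31 :=
    Nat.mul_le_mul (le_max_left _ _) (Nat.pow_le_pow_right hj (by norm_num))
  have hK2 : C2 * j ^ 31 ≤ max C1 C2 * j ^ 31 :=
    Nat.mul_le_mul_right _ (le_max_right _ _)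
  classical
  have main : ∀ (c : ℕ) (h : ℤ → ℤ), P h →
      ((Icc 1 (m:ℤ) ×ˢ Icc 1 (n:ℤ)).filter fun p => dom m n h p.1 p.2).card ≤ c →
      ∀ M, OK j m n σ h M → Conn Adj3 (max C1 C2 * j ^ 31) (boxF j m n) M σ := by
    intro c
    induction c with
    | zero =>
      intro h hP hc M hM
      have hno : ∀ x y, ¬ dom m n h x y := by
        intro x y hd
        have h1 := dom_range (hP0 h hP) hd
        have h2 : (x, y) ∈ (Icc 1 (m:ℤ) ×ˢ Icc 1 (n:ℤ)).filter fun p => dom m n h p.1 p.2 := by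
          rw [mem_filter, mem_product, mem_Icc, mem_Icc]
          exact ⟨h1, hd⟩
        have h3 := card_pos.2 ⟨_, h2⟩
        omega
      have : M = σ := by
        funext v
        by_cases hv : v ∈ boxF j m n
        · exact hM.2 v hv (hno _ _)
        · rw [hM.1.out v hv, hσ.out v hv]
      rw [this]
      exact Relation.ReflTransGen.refl
    | succ c ih =>
      intro h hP hc M hM
      by_cases hne : ∃ x y, dom m n h x y
      · obtain ⟨R, hR⟩ := hPR h hP hne
        obtain ⟨M1, hM1, hc1, hflat1⟩ := hflat j hj m n σ h R (hP0 h hP) hσ hR M hM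
        obtain ⟨h', x0, y0, hP', hsub, ⟨x1, y1, hd1, hd1'⟩, hwin⟩ := hPstep h hP hne
        obtain ⟨M2, hM2, hnear, hagree⟩ := hstep2 j hj m n σ h R (hP0 h hP) hσ hR M1 hM1
          hflat1 x0 y0
        have hOK : OK j m n σ h' M2 := by
          refine ⟨hM2.1, fun v hv hd => ?_⟩
          by_cases hdv : dom m n h v.2.1 v.2.2
          · obtain ⟨h3, h4⟩ := hwin _ _ hdv hd
            exact hagree v hv h3 h4
          · exact hM2.2 v hv hdv
        have hlt : ((Icc 1 (m:ℤ) ×ˢ Icc 1 (n:ℤ)).filter fun p => dom m n h' p.1 p.2).card <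
            ((Icc 1 (m:ℤ) ×ˢ Icc 1 (n:ℤ)).filter fun p => dom m n h p.1 p.2).card := by
          apply card_lt_card
          rw [ssubset_iff_of_subset]
          · refine ⟨(x1, y1), ?_, ?_⟩
            · rw [mem_filter, mem_product, mem_Icc, mem_Icc]
              exact ⟨dom_range (hP0 h hP) hd1, hd1⟩
            · rw [mem_filter]
              exact fun h' => hd1' h'.2
          · intro p hp
            rw [mem_filter] at hp ⊢
            exact ⟨hp.1, hsub _ _ hp.2⟩
        have h5 := ih h' hP' (by omega) M2 hOK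
        exact ((conn_mono hK1 hc1).tail (near_mono hK2 hnear)).trans h5
      · have hno : ∀ x y, ¬ dom m n h x y := fun x y hd => hne ⟨x, y, hd⟩
        have : M = σ := by
          funext v
          by_cases hv : v ∈ boxF j m n
          · exact hM.2 v hv (hno _ _)
          · rw [hM.1.out v hv, hσ.out v hv]
        rw [this]
        exact Relation.ReflTransGen.refl
  intro h hP M hM
  exact main _ h hP le_rfl M hM

end Pool.Agent.Slab3D
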