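import Pool.Agent.Slab3D.Cases

/-!
# The slab theorem
-/

namespace Pool.Agent.Slab3D

open Pool.Agent.Dimer3D Finset

/-- any two configurations of the box are joined by swaps of length at most `K` -/
def Good (K j m n : ℕ) : Prop := ∀ τ τ' : Set (Sym2 (ℤ × ℤ × ℤ)),
  IsConfig Adj3 (Box j m n) τ → IsConfig Adj3 (Box j m n) τ' → Joined Adj3 (Box j m n) K τ τ'

theorem adj3_symm : ∀ x y : V, Adj3 x y → Adj3 y x := by
  intro x y h
  unfold Adj3 at h ⊢
  rw [abs_sub_comm y.1, abs_sub_comm y.2.1, abs_sub_comm y.2.2, eq_comm (a := y.1),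
    eq_comm (a := y.2.1), eq_comm (a := y.2.2)]
  exact h

/-- integer colour -/
def sgV (v : V) : ℤ := if (v.1 + v.2.1 + v.2.2) % 2 = 0 then 1 else -1

theorem sgV_adj : ∀ x y : V, Adj3 x y → sgV y = - sgV x := by
  rintro ⟨a, b, c⟩ ⟨a', b', c'⟩ h
  have habs : ∀ a b : ℤ, |a - b| = 1 → (b = a + 1 ∨ a = b + 1) := by
    intro a b h
    rcases abs_eq (zero_le_one' ℤ) |>.1 h with h | h <;> omega
  simp only [Adj3] at h
  simp only [sgV]
  have key : (a + b + c) % 2 = 0 ↔ ¬ ((a' + b' + c') % 2 = 0) := by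
    rcases h with ⟨h1, h2, h3⟩ | ⟨h1, h2, h3⟩ | ⟨h1, h2, h3⟩
    · rcases habs _ _ h1 with h | h <;> omega
    · rcases habs _ _ h2 with h | h <;> omega
    · rcases habs _ _ h3 with h | h <;> omega
  by_cases h1 : (a' + b' + c') % 2 = 0
  · rw [if_pos h1, if_neg (fun h2 => (key.1 h2) h1)]; norm_num
  · rw [if_neg h1, if_pos (key.2 h1)]

theorem sgV_ne (v : V) : sgV v ≠ 0 := by
  unfold sgV; split_ifs <;> norm_num

theorem coe_boxF (j m n : ℕ) : ((boxF j m n : Finset V) : Set V) = Box j m n := by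
  ext ⟨z, x, y⟩
  rw [mem_coe, mem_boxF]
  rfl

theorem good_of_conn {K j m n : ℕ} {σ : V → V}
    (h : ∀ M, IsTiling Adj3 (boxF j m n) M → Conn Adj3 K (boxF j m n) M σ) : Good K j m n := by
  intro τ τ' hτ hτ'
  rw [← coe_boxF] at hτ hτ' ⊢
  obtain ⟨M, hM, rfl⟩ := exists_tiling adj3_symm hτ
  obtain ⟨M', hM', rfl⟩ := exists_tiling adj3_symm hτ'
  exact joined_of_conn sgV_adj sgV_ne ((h M hM).trans (h M' hM').symm)

theorem joined_mono {B : Set V} {K K' : ℕ} (hK : K ≤ K') {τ τ' : Set (Sym2 V)}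
    (h : Joined Adj3 B K τ τ') : Joined Adj3 B K' τ τ' := by
  induction h with
  | refl => exact Relation.ReflTransGen.refl
  | tail _ hbc ih =>
    obtain ⟨h1, h2, k, hk, h3⟩ := hbc
    exact ih.tail ⟨h1, h2, k, hk.trans hK, h3⟩

theorem Good.mono {K K' j m n : ℕ} (hK : K ≤ K') (h : Good K j m n) : Good K' j m n :=
  fun τ τ' h1 h2 => joined_mono hK (h τ τ' h1 h2)

/-- transport of `Good` along a symmetry of the lattice -/
theorem good_map {K j m n j' m' n' : ℕ} (f : V → V) (hf : Function.Injective f)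
    (hadj : ∀ x y, Adj3 (f x) (f y) ↔ Adj3 x y) (hB : f '' Box j m n = Box j' m' n')
    (h : Good K j m n) : Good K j' m' n' := by
  intro τ τ' hτ hτ'
  obtain ⟨hc, hi⟩ := config_pullback hf hadj hB hτ
  obtain ⟨hc', hi'⟩ := config_pullback hf hadj hB hτ'
  rw [← hi, ← hi']
  exact joined_image hf hadj hB (h _ _ hc hc')

/-- exchange of the last two coordinates -/
theorem Good.swap23 {K j m n : ℕ} (h : Good K j m n) : Good K j n m := by
  refine good_map (fun v : V => (v.1, v.2.2, v.2.1)) ?_ ?_ ?_ h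
  · rintro ⟨a, b, c⟩ ⟨a', b', c'⟩ hh
    simp only [Prod.mk.injEq] at hh ⊢
    tauto
  · rintro ⟨a, b, c⟩ ⟨a', b', c'⟩
    simp only [Adj3]
    tauto
  · ext ⟨a, b, c⟩
    constructor
    · rintro ⟨⟨a', b', c'⟩, hv, hh⟩
      simp only [Prod.mk.injEq] at hh
      obtain ⟨rfl, rfl, rfl⟩ := hh
      exact ⟨hv.1, hv.2.2, hv.2.1⟩
    · rintro ⟨h1, h2, h3⟩
      exact ⟨(a, c, b), ⟨h1, h3, h2⟩, rfl⟩

/-- exchange of the first two coordinates -/
theorem Good.swap12 {K j m n : ℕ} (h : Good K j m n) : Good K m j n := by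
  refine good_map (fun v : V => (v.2.1, v.1, v.2.2)) ?_ ?_ ?_ h
  · rintro ⟨a, b, c⟩ ⟨a', b', c'⟩ hh
    simp only [Prod.mk.injEq] at hh ⊢
    tauto
  · rintro ⟨a, b, c⟩ ⟨a', b', c'⟩
    simp only [Adj3]
    tauto
  · ext ⟨a, b, c⟩
    constructor
    · rintro ⟨⟨a', b', c'⟩, hv, hh⟩
      simp only [Prod.mk.injEq] at hh
      obtain ⟨rfl, rfl, rfl⟩ := hh
      exact ⟨hv.2.1, hv.1, hv.2.2⟩
    · rintro ⟨h1, h2, h3⟩
      exact ⟨(b, a, c), ⟨h2, h1, h3⟩, rfl⟩

theorem even_card_of_tiling {A : Finset V} {M : V → V} (hM : IsTiling Adj3 A M) :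
    Even A.card := by
  have h1 : ∑ x ∈ A, (1 : ZMod 2) = 0 := by
    refine sum_involution (fun x _ => M x) ?_ ?_ (fun x hx => hM.mem x hx)
      (fun x hx => hM.inv x hx)
    · intro x _; decide
    · intro x hx _ hcon
      have h2 := sgV_adj _ _ (hM.adj x hx)
      rw [hcon] at h2
      have := sgV_ne x
      omega
  rw [sum_const, nsmul_eq_mul, mul_one] at h1
  exact (ZMod.natCast_eq_zero_iff_even).1 h1

theorem card_boxF (j m n : ℕ) : (boxF j m n).card = j * (m * n) := by
  rw [boxF, card_product, card_product, Int.card_Icc, Int.card_Icc, Int.card_Icc]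
  simp

/-- without an even side there is no configuration -/
theorem good_of_odd {K j m n : ℕ} (h : ¬ (Even j ∨ Even m ∨ Even n)) : Good K j m n := by
  intro τ τ' hτ _
  rw [← coe_boxF] at hτ
  obtain ⟨M, hM, -⟩ := exists_tiling adj3_symm hτ
  have h1 := even_card_of_tiling hM
  rw [card_boxF, Nat.even_mul, Nat.even_mul] at h1
  exact absurd h1 h

/-- a bound by the first side -/
theorem good_first : ∃ C : ℕ, ∀ j m n, Good (C * j ^ 31) j m n := by
  obtain ⟨CP, hP⟩ := caseP
  obtain ⟨CY, hY⟩ := caseY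
  obtain ⟨CZ, hZ⟩ := caseZ
  refine ⟨1 + CP + CY + CZ, fun j m n => ?_⟩
  rcases Nat.lt_or_ge j 1 with h0 | h1
  · -- `j = 0`
    intro τ τ' hτ hτ'
    have hj : j = 0 := by omega
    subst hj
    have hempty : ∀ τ : Set (Sym2 V), IsConfig Adj3 (Box 0 m n) τ → τ = ∅ := by
      intro τ hτ
      ext e
      simp only [Set.mem_empty_iff_false, iff_false]
      intro he
      obtain ⟨x, hx, -⟩ := hτ.1 e he
      have := hx.1
      push_cast at this
      omega
    rw [hempty τ hτ, hempty τ' hτ']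
    exact Relation.ReflTransGen.refl
  rcases Nat.lt_or_ge j 2 with h1' | h2
  · -- `j = 1`
    have hj : j = 1 := by omega
    subst hj
    have key : ∀ m n, Even n → Good ((1 + CP + CY + CZ) * 1 ^ 31) 1 m n := by
      intro m n hn
      by_cases hm : 2 ≤ m
      · exact (good_of_conn fun M hM => hP m n hm hn M hM).mono (by omega)
      · intro τ τ' hτ hτ'
        refine joined_mono ?_ (box_joined 1 m n τ τ' hτ hτ')
        have : (1 * m) ^ 2 ≤ 1 := by
          have : m ≤ 1 := by omega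
          calc (1 * m) ^ 2 ≤ (1 * 1) ^ 2 := by gcongr
            _ = 1 := by norm_num
        omega
    by_cases hn : Even n
    · exact key m n hn
    · by_cases hm : Even m
      · exact (key n m hm).swap23
      · apply good_of_odd
        rintro (h | h | h)
        · exact absurd h (by decide)
        · exact hm h
        · exact hn h
  · by_cases hj : Even j
    · refine (good_of_conn fun M hM => hZ j h1 hj m n M hM).mono ?_
      exact Nat.mul_le_mul_right _ (by omega)
    · have hle : CY * j ^ 31 ≤ (1 + CP + CY + CZ) * j ^ 31 := Nat.mul_le_mul_right _ (by omega)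
      by_cases hn : Even n
      · exact (good_of_conn fun M hM => hY j h2 m n hn M hM).mono hle
      · by_cases hm : Even m
        · exact (Good.swap23 (good_of_conn fun M hM => hY j h2 n m hm M hM)).mono hle
        · apply good_of_odd
          rintro (h | h | h)
          · exact hj h
          · exact hm h
          · exact hn h

/-- **Slab theorem.** Swaps along alternating cycles of length at most `C s^31` suffice, where
`s` is the smallest side of the box and `C` is an absolute constant. -/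
theorem slab : ∃ C : ℕ, ∀ j m n : ℕ, ∀ τ τ' : Set (Sym2 (ℤ × ℤ × ℤ)),
    IsConfig Adj3 (Box j m n) τ → IsConfig Adj3 (Box j m n) τ' →
      Joined Adj3 (Box j m n) (C * (min j (min m n)) ^ 31) τ τ' := by
  obtain ⟨C, hC⟩ := good_first
  refine ⟨C, fun j m n => ?_⟩
  rcases min_choice j (min m n) with h | h
  · rw [h]; exact hC j m n
  · rw [h]
    rcases min_choice m n with h' | h'
    · rw [h']; exact (hC m j n).swap12
    · rw [h']; exact ((hC n j m).swap12).swap23

end Pool.Agent.Slab3D
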