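import Pool.Agent.Slab3D.HtLemmas

/-!
# The basic operation
-/

namespace Pool.Agent.Slab3D

open Pool.Agent.Dimer3D Finset

variable {j m n : ℕ} {h : ℤ → ℤ} {φ : Flow}

/-- the vertical correction -/
private noncomputable def vc (j : ℕ) (φ : Flow) (w : ℤ → ℤ → ℝ) (z x y : ℤ) : ℝ :=
  if 1 ≤ z ∧ z < (j:ℤ) then ∑ z' ∈ Icc (z+1) (j:ℤ), dd φ w z' x y else 0

private theorem op_zero_eq (w F : ℤ → ℤ → ℝ) (z x y : ℤ) :
    op j φ w F 0 z x y = w x y * φ 0 z x y + vc j φ w z x y := rfl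

private theorem op_one_eq (w F : ℤ → ℤ → ℝ) (z x y : ℤ) :
    op j φ w F 1 z x y = w x y * φ 1 z x y +
      (if z = 1 then (F x y - F x (y-1)) - w x y * (ht j φ x y - ht j φ x (y-1)) else 0) := rfl

private theorem op_two_eq (w F : ℤ → ℤ → ℝ) (z x y : ℤ) :
    op j φ w F 2 z x y = w x y * φ 2 z x y +
      (if z = 1 then -(F x y - F (x-1) y) + w x y * (ht j φ x y - ht j φ (x-1) y) else 0) := rfl

private theorem icc_insert_left {a b : ℤ} (hab : a ≤ b) (f : ℤ → ℝ) :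
    ∑ z ∈ Icc a b, f z = f a + ∑ z ∈ Icc (a+1) b, f z := by
  have h1 : Icc a b = insert a (Icc (a+1) b) := by
    ext z
    simp only [mem_insert, mem_Icc]
    omega
  rw [h1, sum_insert (by simp only [mem_Icc]; omega)]

private theorem dd_out (hA : Adm j m n h φ) (w : ℤ → ℤ → ℝ) {z x y : ℤ}
    (hz : z < 1 ∨ (j:ℤ) < z) : dd φ w z x y = 0 := by
  unfold dd
  rw [hA.z0 1 z (x-1) y hz, hA.z0 2 z x (y-1) hz]
  ring

private theorem dd_zero (hA : Adm j m n h φ) (w : ℤ → ℤ → ℝ) {z x y : ℤ}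
    (hd : ¬ (dom m n h x y ∧ (dom m n h (x-1) y ∨ dom m n h x (y-1)))) :
    dd φ w z x y = 0 := by
  unfold dd
  have e1 : φ 1 z (x-1) y = 0 := by
    apply hA.e1
    rintro ⟨ha, hb⟩
    rw [sub_add_cancel] at hb
    exact hd ⟨hb, Or.inl ha⟩
  have e2 : φ 2 z x (y-1) = 0 := by
    apply hA.e2
    rintro ⟨ha, hb⟩
    rw [sub_add_cancel] at hb
    exact hd ⟨hb, Or.inr ha⟩
  rw [e1, e2]
  ring

/-- total of the vertical corrections in a column -/
private theorem sum_dd (hh : ∀ x, 0 ≤ h x) (hA : Adm j m n h φ) (w : ℤ → ℤ → ℝ) (x y : ℤ) :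
    ∑ z ∈ Icc 1 (j:ℤ), dd φ w z x y =
      (w x y - w (x-1) y) * (ht j φ (x-1) y - ht j φ (x-1) (y-1))
        - (w x y - w x (y-1)) * (ht j φ x (y-1) - ht j φ (x-1) (y-1)) := by
  unfold dd
  rw [sum_add_distrib, ← mul_sum, ← mul_sum, hA.ht_sub_y hh (x-1) y, hA.ht_sub_x hh x (y-1)]
  ring

private theorem vc_step (hj : 1 ≤ j) (hA : Adm j m n h φ) (w : ℤ → ℤ → ℝ) (z x y : ℤ) :
    vc j φ w z x y - vc j φ w (z-1) x y =
      (if z = 1 then ∑ z' ∈ Icc 1 (j:ℤ), dd φ w z' x y else 0) - dd φ w z x y := by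
  have hj' : (1:ℤ) ≤ j := by exact_mod_cast hj
  rcases lt_trichotomy z 1 with hz | hz | hz
  · have e1 : vc j φ w z x y = 0 := by
      unfold vc
      rw [if_neg (by omega)]
    have e2 : vc j φ w (z-1) x y = 0 := by
      unfold vc
      rw [if_neg (by omega)]
    rw [e1, e2, if_neg (by omega), dd_out hA w (Or.inl hz)]
  · subst hz
    have e2 : vc j φ w (1-1) x y = 0 := by
      unfold vc
      rw [if_neg (by omega)]
    rw [e2, if_pos rfl, icc_insert_left hj']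
    unfold vc
    by_cases hj1 : (1:ℤ) < j
    · rw [if_pos ⟨le_refl _, hj1⟩]
      ring
    · rw [if_neg (by omega), Icc_eq_empty (by omega : ¬ ((1:ℤ) + 1 ≤ (j:ℤ)))]
      simp
  · rw [if_neg (by omega)]
    by_cases hzj : z ≤ (j:ℤ)
    · have e2 : vc j φ w (z-1) x y = ∑ z' ∈ Icc z (j:ℤ), dd φ w z' x y := by
        unfold vc
        rw [if_pos (by omega), sub_add_cancel]
      rw [e2, icc_insert_left hzj]
      unfold vc
      by_cases hzj' : z < (j:ℤ)
      · rw [if_pos (by omega)]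
        ring
      · rw [if_neg (by omega), Icc_eq_empty (by omega : ¬ (z + 1 ≤ (j:ℤ)))]
        simp
    · have e1 : vc j φ w z x y = 0 := by
        unfold vc
        rw [if_neg (by omega)]
      have e2 : vc j φ w (z-1) x y = 0 := by
        unfold vc
        rw [if_neg (by omega)]
      rw [e1, e2, dd_out hA w (Or.inr (by omega))]

theorem op_adm (hj : 1 ≤ j) (hh : ∀ x, 0 ≤ h x) (hA : Adm j m n h φ) (w F : ℤ → ℤ → ℝ)
    (hFx : ∀ x y, ¬ (dom m n h x y ∧ dom m n h (x+1) y) → F x y = F x (y-1))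
    (hFy : ∀ x y, ¬ (dom m n h x y ∧ dom m n h x (y+1)) → F x y = F (x-1) y) :
    Adm j m n h (op j φ w F) := by
  have hj' : (1:ℤ) ≤ j := by exact_mod_cast hj
  refine ⟨?_, ?_, ?_, ?_, ?_, ?_⟩
  · intro z x y
    have hd := hA.dv0 z x y
    unfold dv at hd ⊢
    have hv := vc_step hj hA w z x y
    have hs := sum_dd hh hA w x y
    rw [op_zero_eq, op_zero_eq, op_one_eq, op_one_eq, op_two_eq, op_two_eq]
    rw [hs] at hv
    by_cases hz : z = 1
    · rw [if_pos hz] at hv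
      rw [if_pos hz, if_pos hz, if_pos hz, if_pos hz]
      unfold dd at hv
      linear_combination w x y * hd + hv
    · rw [if_neg hz] at hv
      rw [if_neg hz, if_neg hz, if_neg hz, if_neg hz]
      unfold dd at hv
      linear_combination w x y * hd + hv
  · intro i z x y hz
    have hz1 : z ≠ 1 := by omega
    fin_cases i
    · show op j φ w F 0 z x y = 0
      rw [op_zero_eq, hA.z0 0 z x y hz]
      unfold vc
      rw [if_neg (by omega)]
      ring
    · show op j φ w F 1 z x y = 0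
      rw [op_one_eq, hA.z0 1 z x y hz, if_neg hz1]
      ring
    · show op j φ w F 2 z x y = 0
      rw [op_two_eq, hA.z0 2 z x y hz, if_neg hz1]
      ring
  · intro z x y hz
    rw [op_zero_eq, hA.z1 z x y hz]
    unfold vc
    rw [if_neg (by omega)]
    ring
  · intro z x y hd
    rw [op_zero_eq, hA.e0 z x y hd]
    unfold vc
    have : ∀ z', dd φ w z' x y = 0 := fun z' => dd_zero hA w (fun hc => hd hc.1)
    simp [this]
  · intro z x y hd
    have h1 := hA.ht_sub_y hh x y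
    have h2 : ∑ z ∈ Icc 1 (j:ℤ), φ 1 z x y = 0 := sum_eq_zero (fun z _ => hA.e1 z x y hd)
    rw [op_one_eq, hA.e1 z x y hd, h1, h2, hFx x y hd]
    simp
  · intro z x y hd
    have h1 := hA.ht_sub_x hh x y
    have h2 : ∑ z ∈ Icc 1 (j:ℤ), φ 2 z x y = 0 := sum_eq_zero (fun z _ => hA.e2 z x y hd)
    rw [op_two_eq, hA.e2 z x y hd, h1, h2, hFy x y hd]
    simp

theorem op_sum_one (hj : 1 ≤ j) (hh : ∀ x, 0 ≤ h x) (hA : Adm j m n h φ) (w F : ℤ → ℤ → ℝ)
    (x y : ℤ) : ∑ z ∈ Icc 1 (j:ℤ), op j φ w F 1 z x y = F x y - F x (y-1) := by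
  have hj' : (1:ℤ) ≤ j := by exact_mod_cast hj
  simp only [op_one_eq]
  rw [sum_add_distrib, ← mul_sum, ← hA.ht_sub_y hh x y, Finset.sum_ite_eq']
  rw [if_pos (by simp only [mem_Icc]; omega)]
  ring

theorem op_ht (hj : 1 ≤ j) (hh : ∀ x, 0 ≤ h x) (hA : Adm j m n h φ) (w F : ℤ → ℤ → ℝ)
    (hF : ∀ x, F x 0 = 0) (a b : ℤ) (hb : 0 ≤ b) : ht j (op j φ w F) a b = F a b := by
  unfold ht
  simp only [op_sum_one hj hh hA w F a]
  obtain ⟨k, rfl⟩ := Int.eq_ofNat_of_zero_le hb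
  induction k with
  | zero => simp [hF]
  | succ k ih =>
    have h1 : Icc (1:ℤ) ((k+1 : ℕ) : ℤ) = insert ((k+1 : ℕ) : ℤ) (Icc 1 (k:ℤ)) := by
      ext z
      simp only [mem_insert, mem_Icc]
      omega
    rw [h1, sum_insert (by simp only [mem_Icc]; omega), ih (by omega)]
    have h2 : (((k+1 : ℕ) : ℤ) - 1) = (k:ℤ) := by push_cast; ring
    rw [h2]
    ring

theorem op_bound0 (hh : ∀ x, 0 ≤ h x) (hA : Adm j m n h φ) (h1 : ∀ i z x y, |φ i z x y| ≤ 1)
    (w F : ℤ → ℤ → ℝ) (z x y : ℤ) :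
    |op j φ w F 0 z x y - w x y * φ 0 z x y| ≤
      j * (|w x y - w (x-1) y| + |w x y - w x (y-1)|) := by
  rw [op_zero_eq, add_sub_cancel_left]
  set B : ℝ := |w x y - w (x-1) y| + |w x y - w x (y-1)| with hB
  have hB0 : 0 ≤ B := by positivity
  have hdd : ∀ z', |dd φ w z' x y| ≤ B := by
    intro z'
    unfold dd
    refine (abs_add_le _ _).trans ?_
    rw [abs_mul, abs_mul]
    have a1 := h1 1 z' (x-1) y
    have a2 := h1 2 z' x (y-1)
    have b1 := abs_nonneg (w x y - w (x-1) y)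
    have b2 := abs_nonneg (w x y - w x (y-1))
    rw [hB]
    nlinarith
  unfold vc
  split_ifs with hz
  · refine (abs_sum_le_sum_abs _ _).trans ?_
    refine (sum_le_card_nsmul _ _ B (fun z' _ => hdd z')).trans ?_
    rw [nsmul_eq_mul]
    apply mul_le_mul_of_nonneg_right _ hB0
    rw [Int.card_Icc]
    have : ((j:ℤ) + 1 - (z+1)).toNat ≤ j := by omega
    exact_mod_cast this
  · rw [abs_zero]
    positivity

/-- the vertical correction vanishes when the column has no left or lower neighbour in the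
domain, and outside the layers `1 ≤ z < j` -/
theorem op_zero0 (hA : Adm j m n h φ) (w F : ℤ → ℤ → ℝ) (z x y : ℤ)
    (hz : ¬ (1 ≤ z ∧ z < (j:ℤ) ∧ dom m n h x y ∧ (dom m n h (x-1) y ∨ dom m n h x (y-1)))) :
    op j φ w F 0 z x y = w x y * φ 0 z x y := by
  rw [op_zero_eq]
  unfold vc
  split_ifs with h1
  · have : ∀ z', dd φ w z' x y = 0 := fun z' => dd_zero hA w (fun hc => hz ⟨h1.1, h1.2, hc⟩)
    simp [this]
  · ring

end Pool.Agent.Slab3D
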