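import Pool.Agent.Slab3D.Defs
import Pool.Agent.Slab3D.Birk

/-!
# Rounding an almost nonnegative fractional tiling to a tiling
-/

namespace Pool.Agent.Slab3D

open Pool.Agent.Dimer3D Finset

/-! ### Elementary facts on `nx`, `eps` -/

/-- previous vertex in direction `i` -/
def round_pr (i : Fin 3) (v : V) : V :=
  match i with
  | 0 => (v.1 - 1, v.2.1, v.2.2)
  | 1 => (v.1, v.2.1 - 1, v.2.2)
  | 2 => (v.1, v.2.1, v.2.2 - 1)

theorem round_nx_eq_iff (i : Fin 3) (u v : V) : v = nx i u ↔ u = round_pr i v := by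
  obtain ⟨u1, u2, u3⟩ := u
  obtain ⟨v1, v2, v3⟩ := v
  fin_cases i <;> simp only [nx, round_pr, Prod.mk.injEq] <;> omega

theorem round_nx_inj (i k : Fin 3) (u : V) (h : nx i u = nx k u) : i = k := by
  obtain ⟨u1, u2, u3⟩ := u
  fin_cases i <;> fin_cases k <;> simp_all [nx]

theorem round_nx_inj' (i k : Fin 3) (u v : V) (h : v = nx i u) (h' : v = nx k u) : i = k :=
  round_nx_inj i k u (h.symm.trans h')

theorem round_nx_anti (i k : Fin 3) (u v : V) (h : v = nx i u) (h' : u = nx k v) : False := by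
  obtain ⟨u1, u2, u3⟩ := u
  obtain ⟨v1, v2, v3⟩ := v
  fin_cases i <;> fin_cases k <;> simp only [nx, Prod.mk.injEq] at h h' <;> omega

theorem round_nx_ne (i : Fin 3) (u : V) : u ≠ nx i u := by
  obtain ⟨u1, u2, u3⟩ := u
  fin_cases i <;> simp [nx]

theorem round_eps_nx (i : Fin 3) (v : V) : eps (nx i v) = - eps v := by
  obtain ⟨v1, v2, v3⟩ := v
  unfold eps
  have key : Even ((nx i (v1, v2, v3)).1 + (nx i (v1, v2, v3)).2.1 + (nx i (v1, v2, v3)).2.2) ↔
      ¬ Even (v1 + v2 + v3) := by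
    fin_cases i <;> simp only [nx] <;> simp only [Int.even_iff] <;> omega
  by_cases h : Even (v1 + v2 + v3)
  · rw [if_neg (by rw [key]; exact fun hh => hh h), if_pos h]
  · rw [if_pos (by rw [key]; exact h), if_neg h]
    norm_num

theorem round_eps_pr (i : Fin 3) (v : V) : eps (round_pr i v) = - eps v := by
  have h := round_eps_nx i (round_pr i v)
  rw [← (round_nx_eq_iff i (round_pr i v) v).2 rfl] at h
  rw [h]
  ring

theorem round_eps_cases (v : V) : eps v = 1 ∨ eps v = -1 := by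
  unfold eps
  split_ifs
  · exact Or.inl rfl
  · exact Or.inr rfl

theorem round_eps_sq (v : V) : eps v * eps v = 1 := by
  rcases round_eps_cases v with h | h <;> rw [h] <;> norm_num

theorem round_adj_iff {u v : V} : Adj3 u v ↔ ∃ i, v = nx i u ∨ u = nx i v := by
  obtain ⟨u1, u2, u3⟩ := u
  obtain ⟨v1, v2, v3⟩ := v
  simp only [Adj3, abs_eq (zero_le_one' ℤ)]
  constructor
  · intro h
    rcases h with ⟨h | h, h2, h3⟩ | ⟨h1, h | h, h3⟩ | ⟨h1, h2, h | h⟩
    · exact ⟨0, Or.inr (by simp only [nx, Prod.mk.injEq]; omega)⟩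
    · exact ⟨0, Or.inl (by simp only [nx, Prod.mk.injEq]; omega)⟩
    · exact ⟨1, Or.inr (by simp only [nx, Prod.mk.injEq]; omega)⟩
    · exact ⟨1, Or.inl (by simp only [nx, Prod.mk.injEq]; omega)⟩
    · exact ⟨2, Or.inr (by simp only [nx, Prod.mk.injEq]; omega)⟩
    · exact ⟨2, Or.inl (by simp only [nx, Prod.mk.injEq]; omega)⟩
  · rintro ⟨i, h | h⟩ <;> fin_cases i <;> simp only [nx, Prod.mk.injEq] at h <;> omega

/-! ### Edge functionals -/

/-- the value on the edge `u, v` of the function on the edges given by `a` -/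
noncomputable def roundE (a : Fin 3 → V → ℝ) (u v : V) : ℝ :=
  ∑ i, ((if v = nx i u then a i u else 0) + (if u = nx i v then a i v else 0))

theorem roundE_symm (a : Fin 3 → V → ℝ) (u v : V) : roundE a u v = roundE a v u := by
  unfold roundE
  exact Finset.sum_congr rfl fun i _ => add_comm _ _

theorem roundE_nx (a : Fin 3 → V → ℝ) (i : Fin 3) (u : V) : roundE a u (nx i u) = a i u := by
  unfold roundE
  rw [Finset.sum_eq_single i]
  · rw [if_pos rfl, if_neg (fun h => round_nx_anti i i u (nx i u) rfl h), add_zero]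
  · intro k _ hk
    rw [if_neg (fun h => hk (round_nx_inj i k u h).symm),
      if_neg (fun h => round_nx_anti i k u (nx i u) rfl h), add_zero]
  · intro h
    exact absurd (Finset.mem_univ i) h

theorem roundE_cases (u v : V) : (∀ a, roundE a u v = 0) ∨
    (∃ i, v = nx i u ∧ ∀ a, roundE a u v = a i u) ∨
    (∃ i, u = nx i v ∧ ∀ a, roundE a u v = a i v) := by
  by_cases h1 : ∃ i, v = nx i u
  · obtain ⟨i, rfl⟩ := h1
    exact Or.inr (Or.inl ⟨i, rfl, fun a => roundE_nx a i u⟩)
  · by_cases h2 : ∃ i, u = nx i v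
    · obtain ⟨i, rfl⟩ := h2
      exact Or.inr (Or.inr ⟨i, rfl, fun a => by rw [roundE_symm]; exact roundE_nx a i v⟩)
    · left
      intro a
      unfold roundE
      apply Finset.sum_eq_zero
      intro i _
      rw [if_neg (fun h => h1 ⟨i, h⟩), if_neg (fun h => h2 ⟨i, h⟩), add_zero]

theorem roundE_map (φ : ℝ → ℝ) (h0 : φ 0 = 0) (a : Fin 3 → V → ℝ) (u v : V) :
    φ (roundE a u v) = roundE (fun i x => φ (a i x)) u v := by
  rcases roundE_cases u v with h | ⟨i, -, h⟩ | ⟨i, -, h⟩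
  · rw [h, h, h0]
  · rw [h, h]
  · rw [h, h]

theorem roundE_mul (a a' : Fin 3 → V → ℝ) (u v : V) :
    roundE a u v * roundE a' u v = roundE (fun i x => a i x * a' i x) u v := by
  rcases roundE_cases u v with h | ⟨i, -, h⟩ | ⟨i, -, h⟩
  · rw [h, h, h, mul_zero]
  · rw [h, h, h]
  · rw [h, h, h]

theorem roundE_sum (I T : Finset V) (a : Fin 3 → V → ℝ) :
    ∑ b ∈ I, ∑ w ∈ T, roundE a b w =
      ∑ i, ((∑ b ∈ I, if nx i b ∈ T then a i b else 0) +
        ∑ w ∈ T, if nx i w ∈ I then a i w else 0) := by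
  unfold roundE
  have h1 : ∀ b ∈ I, (∑ w ∈ T, ∑ i : Fin 3,
      ((if w = nx i b then a i b else 0) + (if b = nx i w then a i w else 0))) =
      ∑ i : Fin 3, ((if nx i b ∈ T then a i b else 0) +
        ∑ w ∈ T, if b = nx i w then a i w else 0) := by
    intro b _
    rw [Finset.sum_comm]
    apply Finset.sum_congr rfl
    intro i _
    rw [Finset.sum_add_distrib, Finset.sum_ite_eq']
  rw [Finset.sum_congr rfl h1, Finset.sum_comm]
  apply Finset.sum_congr rfl
  intro i _
  rw [Finset.sum_add_distrib]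
  congr 1
  rw [Finset.sum_comm]
  apply Finset.sum_congr rfl
  intro w _
  rw [Finset.sum_ite_eq']

/-! ### The index sets -/

section Setup

variable {j m n : ℕ} {M : V → V} {W : Finset V} {G : Flow}

/-- the vertices touched: `W` and its partners -/
noncomputable def roundU (j m n : ℕ) (M : V → V) (W : Finset V) : Finset V :=
  (boxF j m n).filter fun v => v ∈ W ∨ M v ∈ W

noncomputable def roundI (j m n : ℕ) (M : V → V) (W : Finset V) : Finset V :=
  (roundU j m n M W).filter fun v => eps v = 1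

noncomputable def roundT (j m n : ℕ) (M : V → V) (W : Finset V) : Finset V :=
  (roundU j m n M W).filter fun v => eps v = -1

theorem mem_roundU {v : V} : v ∈ roundU j m n M W ↔ v ∈ boxF j m n ∧ (v ∈ W ∨ M v ∈ W) := by
  simp [roundU]

theorem mem_roundI {v : V} : v ∈ roundI j m n M W ↔ v ∈ roundU j m n M W ∧ eps v = 1 := by
  simp [roundI]

theorem mem_roundT {v : V} : v ∈ roundT j m n M W ↔ v ∈ roundU j m n M W ∧ eps v = -1 := by
  simp [roundT]

theorem round_sub (hW : W ⊆ boxF j m n) {v : V} (hv : v ∈ W) : v ∈ roundU j m n M W :=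
  mem_roundU.2 ⟨hW hv, Or.inl hv⟩

theorem round_clU (hM : IsTiling Adj3 (boxF j m n) M) {v : V} (hv : v ∈ roundU j m n M W) :
    M v ∈ roundU j m n M W := by
  rw [mem_roundU] at hv ⊢
  refine ⟨hM.mem v hv.1, ?_⟩
  rw [hM.inv v hv.1]
  exact hv.2.symm

theorem round_eps_M {M : V → V} (hM : IsTiling Adj3 (boxF j m n) M) {v : V}
    (hv : v ∈ boxF j m n) : eps (M v) = - eps v := by
  obtain ⟨i, h | h⟩ := round_adj_iff.1 (hM.adj v hv)
  · rw [h, round_eps_nx]
  · have := round_eps_nx i (M v)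
    rw [← h] at this
    rw [this]
    ring

theorem round_MI (hM : IsTiling Adj3 (boxF j m n) M) {v : V} (hv : v ∈ roundI j m n M W) :
    M v ∈ roundT j m n M W := by
  rw [mem_roundI] at hv
  rw [mem_roundT]
  refine ⟨round_clU hM hv.1, ?_⟩
  rw [round_eps_M hM (mem_roundU.1 hv.1).1, hv.2]

theorem round_MT (hM : IsTiling Adj3 (boxF j m n) M) {v : V} (hv : v ∈ roundT j m n M W) :
    M v ∈ roundI j m n M W := by
  rw [mem_roundT] at hv
  rw [mem_roundI]
  refine ⟨round_clU hM hv.1, ?_⟩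
  rw [round_eps_M hM (mem_roundU.1 hv.1).1, hv.2, neg_neg]

theorem round_IT {v : V} (hv : v ∈ roundU j m n M W) :
    v ∈ roundI j m n M W ∨ v ∈ roundT j m n M W := by
  rcases round_eps_cases v with h | h
  · exact Or.inl (mem_roundI.2 ⟨hv, h⟩)
  · exact Or.inr (mem_roundT.2 ⟨hv, h⟩)

theorem round_disj : Disjoint (roundI j m n M W) (roundT j m n M W) := by
  rw [Finset.disjoint_left]
  intro v h1 h2
  have e1 := (mem_roundI.1 h1).2
  have e2 := (mem_roundT.1 h2).2
  rw [e1] at e2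
  norm_num at e2

theorem round_union : roundI j m n M W ∪ roundT j m n M W = roundU j m n M W := by
  ext v
  rw [Finset.mem_union]
  constructor
  · rintro (h | h)
    · exact (mem_roundI.1 h).1
    · exact (mem_roundT.1 h).1
  · exact round_IT

theorem round_sumU (g : V → ℝ) : ∑ v ∈ roundI j m n M W, g v + ∑ v ∈ roundT j m n M W, g v =
    ∑ v ∈ roundU j m n M W, g v := by
  rw [← round_union, Finset.sum_union round_disj]

theorem roundE_sumU (a : Fin 3 → V → ℝ) :
    ∑ b ∈ roundI j m n M W, ∑ w ∈ roundT j m n M W, roundE a b w =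
      ∑ i, ∑ v ∈ roundU j m n M W, if nx i v ∈ roundU j m n M W then a i v else 0 := by
  rw [roundE_sum]
  apply Finset.sum_congr rfl
  intro i _
  rw [← round_sumU]
  congr 1
  · apply Finset.sum_congr rfl
    intro b hb
    have hb' := (mem_roundI.1 hb).2
    have : nx i b ∈ roundT j m n M W ↔ nx i b ∈ roundU j m n M W := by
      rw [mem_roundT, round_eps_nx, hb']
      simp
    simp only [this]
  · apply Finset.sum_congr rfl
    intro b hb
    have hb' := (mem_roundT.1 hb).2
    have : nx i b ∈ roundI j m n M W ↔ nx i b ∈ roundU j m n M W := by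
      rw [mem_roundI, round_eps_nx, hb']
      simp
    simp only [this]

/-- the flow on an edge leaving `roundU` vanishes -/
theorem round_zero_out (hM : IsTiling Adj3 (boxF j m n) M)
    (hW : W ⊆ boxF j m n)
    (hG : ∀ (i : Fin 3) (v : V), ¬ (v ∈ W ∧ nx i v ∈ W) →
      G i v.1 v.2.1 v.2.2 = tf M i v.1 v.2.1 v.2.2) (i : Fin 3) (v : V)
    (h : ¬ (v ∈ roundU j m n M W ↔ nx i v ∈ roundU j m n M W)) :
    G i v.1 v.2.1 v.2.2 = 0 := by
  rw [hG i v (fun hh => h ⟨fun _ => round_sub hW hh.2, fun _ => round_sub hW hh.1⟩)]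
  unfold tf
  show (if M v = nx i v then eps v else 0) = 0
  rw [if_neg]
  intro hh
  have hvB : v ∈ boxF j m n := by
    by_contra hv
    rw [hM.out v hv] at hh
    exact round_nx_ne i v hh
  apply h
  constructor
  · intro hv
    rw [← hh]
    exact round_clU hM hv
  · intro hv
    have := round_clU hM hv
    rw [← hh, hM.inv v hvB] at this
    exact this

/-- the weight function -/
noncomputable def roundw (G : Flow) (i : Fin 3) (v : V) : ℝ := eps v * G i v.1 v.2.1 v.2.2

theorem round_row (hM : IsTiling Adj3 (boxF j m n) M)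
    (hW : W ⊆ boxF j m n)
    (hdv : ∀ v ∈ boxF j m n, dv G v.1 v.2.1 v.2.2 = eps v)
    (hG : ∀ (i : Fin 3) (v : V), ¬ (v ∈ W ∧ nx i v ∈ W) →
      G i v.1 v.2.1 v.2.2 = tf M i v.1 v.2.1 v.2.2)
    (X : Finset V) (v : V) (hv : v ∈ roundU j m n M W)
    (hX : ∀ u, u ∈ X ↔ u ∈ roundU j m n M W ∧ eps u = - eps v) :
    ∑ u ∈ X, roundE (roundw G) v u = 1 := by
  unfold roundE
  rw [Finset.sum_comm]
  have h1 : ∀ i : Fin 3, (∑ u ∈ X, ((if u = nx i v then roundw G i v else 0) +
      (if v = nx i u then roundw G i u else 0))) =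
      roundw G i v + roundw G i (round_pr i v) := by
    intro i
    rw [Finset.sum_add_distrib, Finset.sum_ite_eq']
    congr 1
    · split_ifs with h
      · rfl
      · rw [hX, round_eps_nx] at h
        have h' : nx i v ∉ roundU j m n M W := fun hh => h ⟨hh, rfl⟩
        unfold roundw
        rw [round_zero_out hM hW hG i v (fun hh => h' (hh.1 hv)), mul_zero]
    · simp only [round_nx_eq_iff]
      rw [Finset.sum_ite_eq']
      split_ifs with h
      · rfl
      · rw [hX, round_eps_pr] at h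
        have h' : round_pr i v ∉ roundU j m n M W := fun hh => h ⟨hh, rfl⟩
        unfold roundw
        have e : v = nx i (round_pr i v) := (round_nx_eq_iff i (round_pr i v) v).2 rfl
        rw [round_zero_out hM hW hG i (round_pr i v) (fun hh => h' (hh.2 (by rw [← e]; exact hv))),
          mul_zero]
  rw [Finset.sum_congr rfl fun i _ => h1 i]
  have h2 := hdv v (mem_roundU.1 hv).1
  unfold dv at h2
  have h3 : ∀ i : Fin 3, roundw G i v + roundw G i (round_pr i v) =
      eps v * (G i v.1 v.2.1 v.2.2 - G i (round_pr i v).1 (round_pr i v).2.1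
        (round_pr i v).2.2) := by
    intro i
    unfold roundw
    rw [round_eps_pr]
    ring
  rw [Finset.sum_congr rfl fun i _ => h3 i, Fin.sum_univ_three]
  simp only [round_pr]
  calc _ = eps v * ((G 0 v.1 v.2.1 v.2.2 - G 0 (v.1 - 1) v.2.1 v.2.2) +
        (G 1 v.1 v.2.1 v.2.2 - G 1 v.1 (v.2.1 - 1) v.2.2) +
        (G 2 v.1 v.2.1 v.2.2 - G 2 v.1 v.2.1 (v.2.2 - 1))) := by ring
    _ = 1 := by rw [h2, round_eps_sq]

/-- sums over the partners -/
theorem round_sum_M (hM : IsTiling Adj3 (boxF j m n) M) (f : V → ℝ) :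
    ∑ b ∈ roundI j m n M W, f (M b) = ∑ w ∈ roundT j m n M W, f w := by
  apply Finset.sum_nbij' M M
  · intro b hb
    exact round_MI hM hb
  · intro b hb
    exact round_MT hM hb
  · intro b hb
    exact hM.inv b (mem_roundU.1 (mem_roundI.1 hb).1).1
  · intro b hb
    exact hM.inv b (mem_roundU.1 (mem_roundT.1 hb).1).1
  · intro b _
    rfl

/-- a weight is `0` or `1` outside `W` -/
theorem round_wt_out
    (hG : ∀ (i : Fin 3) (v : V), ¬ (v ∈ W ∧ nx i v ∈ W) →
      G i v.1 v.2.1 v.2.2 = tf M i v.1 v.2.1 v.2.2) (i : Fin 3) (v : V)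
    (h : ¬ (v ∈ W ∧ nx i v ∈ W)) :
    roundw G i v = if M v = nx i v then 1 else 0 := by
  unfold roundw
  rw [hG i v h]
  show eps v * (if M v = nx i v then eps v else 0) = _
  split_ifs
  · exact round_eps_sq v
  · exact mul_zero _

/-- positive edges not inside `W` are edges of `M` -/
theorem round_pos_out (hM : IsTiling Adj3 (boxF j m n) M)
    (hG : ∀ (i : Fin 3) (v : V), ¬ (v ∈ W ∧ nx i v ∈ W) →
      G i v.1 v.2.1 v.2.2 = tf M i v.1 v.2.1 v.2.2) (u v : V)
    (hpos : 0 < roundE (roundw G) u v) (h : ¬ (u ∈ W ∧ v ∈ W)) : M u = v := by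
  rcases roundE_cases u v with h0 | ⟨i, hi, h0⟩ | ⟨i, hi, h0⟩
  · rw [h0] at hpos
    exact absurd hpos (lt_irrefl _)
  · rw [h0, round_wt_out hG i u (by rw [← hi]; exact h)] at hpos
    split_ifs at hpos with hh
    · rw [hh, hi]
    · exact absurd hpos (lt_irrefl _)
  · rw [h0, round_wt_out hG i v (by rw [← hi]; exact fun hh => h ⟨hh.2, hh.1⟩)] at hpos
    split_ifs at hpos with hh
    · have hvB : v ∈ boxF j m n := by
        by_contra hv
        rw [hM.out v hv] at hh
        exact round_nx_ne i v hh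
      rw [hi, ← hh, hM.inv v hvB]
    · exact absurd hpos (lt_irrefl _)

/-- the cost of an edge -/
noncomputable def roundc (W : Finset V) (c : V → ℝ) (i : Fin 3) (v : V) : ℝ :=
  if i = 1 ∧ v ∈ W then c v * eps v else 0

theorem round_cost_tiling {N : V → V} (hW : W ⊆ boxF j m n)
    (hI : ∀ v ∈ roundI j m n M W, N v ∈ roundT j m n M W)
    (hT : ∀ v ∈ roundT j m n M W, N v ∈ roundI j m n M W)
    (hN : ∀ v ∈ roundU j m n M W, N (N v) = v) (c : V → ℝ) :
    ∑ b ∈ roundI j m n M W, roundE (roundc W c) b (N b) =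
      ∑ v ∈ W, c v * tf N 1 v.1 v.2.1 v.2.2 := by
  have h1 : ∀ b ∈ roundI j m n M W, roundE (roundc W c) b (N b) =
      (if b ∈ W then c b * tf N 1 b.1 b.2.1 b.2.2 else 0) +
      (if N b ∈ W then c (N b) * tf N 1 (N b).1 (N b).2.1 (N b).2.2 else 0) := by
    intro b hb
    have hNN := hN b (mem_roundI.1 hb).1
    unfold roundE
    rw [Fin.sum_univ_three]
    have e1 : tf N 1 b.1 b.2.1 b.2.2 = if N b = nx 1 b then eps b else 0 := rfl
    have e2 : tf N 1 (N b).1 (N b).2.1 (N b).2.2 =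
        if b = nx 1 (N b) then eps (N b) else 0 := by
      have : tf N 1 (N b).1 (N b).2.1 (N b).2.2 =
        if N (N b) = nx 1 (N b) then eps (N b) else 0 := rfl
      rw [this, hNN]
    rw [e1, e2]
    simp only [roundc]
    have z0 : ¬ ((0 : Fin 3) = 1) := by decide
    have z2 : ¬ ((2 : Fin 3) = 1) := by decide
    simp only [z0, z2, false_and, if_false, ite_self, add_zero, zero_add, true_and]
    by_cases hb1 : b ∈ W <;> by_cases hb2 : N b ∈ W <;> simp [hb1, hb2]
  rw [Finset.sum_congr rfl h1, Finset.sum_add_distrib]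
  have h2 : ∑ b ∈ roundI j m n M W,
      (if N b ∈ W then c (N b) * tf N 1 (N b).1 (N b).2.1 (N b).2.2 else 0) =
      ∑ w ∈ roundT j m n M W, (if w ∈ W then c w * tf N 1 w.1 w.2.1 w.2.2 else 0) := by
    apply Finset.sum_nbij' N N
    · exact hI
    · exact hT
    · intro b hb
      exact hN b (mem_roundI.1 hb).1
    · intro b hb
      exact hN b (mem_roundT.1 hb).1
    · intro b _
      rfl
  rw [h2, round_sumU, ← Finset.sum_filter]
  congr 1
  ext v
  rw [Finset.mem_filter]
  exact ⟨fun h => h.2, fun h => ⟨round_sub hW h, h⟩⟩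

theorem round_cost_flow (hM : IsTiling Adj3 (boxF j m n) M)
    (hW : W ⊆ boxF j m n)
    (hG : ∀ (i : Fin 3) (v : V), ¬ (v ∈ W ∧ nx i v ∈ W) →
      G i v.1 v.2.1 v.2.2 = tf M i v.1 v.2.1 v.2.2) (c : V → ℝ) :
    ∑ b ∈ roundI j m n M W, ∑ w ∈ roundT j m n M W,
      roundE (roundw G) b w * roundE (roundc W c) b w =
      ∑ v ∈ W, c v * G 1 v.1 v.2.1 v.2.2 := by
  simp only [roundE_mul]
  rw [roundE_sumU, Fin.sum_univ_three]
  have z0 : ¬ ((0 : Fin 3) = 1) := by decide
  have z2 : ¬ ((2 : Fin 3) = 1) := by decide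
  simp only [roundc, z0, z2, false_and, if_false, mul_zero, ite_self, Finset.sum_const_zero,
    add_zero, zero_add, true_and]
  have h1 : ∀ v ∈ roundU j m n M W, (if nx 1 v ∈ roundU j m n M W then
      roundw G 1 v * (if v ∈ W then c v * eps v else 0) else 0) =
      if v ∈ W then c v * G 1 v.1 v.2.1 v.2.2 else 0 := by
    intro v hv
    by_cases hvW : v ∈ W
    · simp only [hvW, if_true]
      split_ifs with hn
      · unfold roundw
        have := round_eps_sq v
        linear_combination (c v * G 1 v.1 v.2.1 v.2.2) * this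
      · rw [round_zero_out hM hW hG 1 v (fun hh => hn (hh.1 hv)), mul_zero]
    · simp [hvW]
  rw [Finset.sum_congr rfl h1, ← Finset.sum_filter]
  congr 1
  ext v
  rw [Finset.mem_filter]
  exact ⟨fun h => h.2, fun h => ⟨round_sub hW h, h⟩⟩

theorem round_neg (hM : IsTiling Adj3 (boxF j m n) M)
    (hW : W ⊆ boxF j m n)
    (hG : ∀ (i : Fin 3) (v : V), ¬ (v ∈ W ∧ nx i v ∈ W) →
      G i v.1 v.2.1 v.2.2 = tf M i v.1 v.2.1 v.2.2) :
    ∑ b ∈ roundI j m n M W, ∑ w ∈ roundT j m n M W, max 0 (-(roundE (roundw G) b w)) ≤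
      ∑ v ∈ W, ∑ i, max 0 (-(eps v * G i v.1 v.2.1 v.2.2)) := by
  have h0 : ∀ u v, max 0 (-(roundE (roundw G) u v)) =
      roundE (fun i x => max 0 (-(roundw G i x))) u v := fun u v =>
    roundE_map (fun t => max 0 (-t)) (by simp) (roundw G) u v
  simp only [h0]
  rw [roundE_sumU, Finset.sum_comm]
  have h1 : ∀ v ∈ roundU j m n M W, (∑ i, if nx i v ∈ roundU j m n M W then
      max 0 (-(roundw G i v)) else 0) ≤
      if v ∈ W then ∑ i, max 0 (-(eps v * G i v.1 v.2.1 v.2.2)) else 0 := by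
    intro v _
    split_ifs with hvW
    · apply Finset.sum_le_sum
      intro i _
      split_ifs
      · exact le_refl _
      · exact le_max_left _ _
    · apply le_of_eq
      apply Finset.sum_eq_zero
      intro i _
      rw [round_wt_out hG i v (fun hh => hvW hh.1)]
      split_ifs <;> simp
  refine le_trans (Finset.sum_le_sum h1) ?_
  rw [← Finset.sum_filter]
  apply le_of_eq
  congr 1
  ext v
  rw [Finset.mem_filter]
  exact ⟨fun h => h.2, fun h => ⟨round_sub hW h, h⟩⟩

theorem round_card (hM : IsTiling Adj3 (boxF j m n) M) :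
    (roundI j m n M W).card ≤ 2 * W.card := by
  have h1 : roundI j m n M W ⊆ W ∪ W.image M := by
    intro v hv
    obtain ⟨hvB, hv' | hv'⟩ := mem_roundU.1 (mem_roundI.1 hv).1
    · exact Finset.mem_union_left _ hv'
    · exact Finset.mem_union_right _ (Finset.mem_image.2 ⟨M v, hv', hM.inv v hvB⟩)
  calc _ ≤ (W ∪ W.image M).card := Finset.card_le_card h1
    _ ≤ W.card + (W.image M).card := Finset.card_union_le _ _
    _ ≤ W.card + W.card := Nat.add_le_add_left Finset.card_image_le _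
    _ = 2 * W.card := by ring

/-- the matrix -/
noncomputable def roundZ (j m n : ℕ) (M : V → V) (W : Finset V) (G : Flow)
    (b b' : {b // b ∈ roundI j m n M W}) : ℝ := roundE (roundw G) b.1 (M b'.1)

theorem roundZ_row (hM : IsTiling Adj3 (boxF j m n) M)
    (hW : W ⊆ boxF j m n)
    (hdv : ∀ v ∈ boxF j m n, dv G v.1 v.2.1 v.2.2 = eps v)
    (hG : ∀ (i : Fin 3) (v : V), ¬ (v ∈ W ∧ nx i v ∈ W) →
      G i v.1 v.2.1 v.2.2 = tf M i v.1 v.2.1 v.2.2) (b : {b // b ∈ roundI j m n M W}) :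
    ∑ k, roundZ j m n M W G b k = 1 := by
  unfold roundZ
  rw [Finset.sum_coe_sort (roundI j m n M W) (fun k => roundE (roundw G) b.1 (M k)),
    round_sum_M hM (fun w => roundE (roundw G) b.1 w)]
  apply round_row hM hW hdv hG _ _ (mem_roundI.1 b.2).1
  intro u
  rw [mem_roundT, (mem_roundI.1 b.2).2]

theorem roundZ_col (hM : IsTiling Adj3 (boxF j m n) M)
    (hW : W ⊆ boxF j m n)
    (hdv : ∀ v ∈ boxF j m n, dv G v.1 v.2.1 v.2.2 = eps v)
    (hG : ∀ (i : Fin 3) (v : V), ¬ (v ∈ W ∧ nx i v ∈ W) →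
      G i v.1 v.2.1 v.2.2 = tf M i v.1 v.2.1 v.2.2) (k : {b // b ∈ roundI j m n M W}) :
    ∑ b, roundZ j m n M W G b k = 1 := by
  unfold roundZ
  rw [Finset.sum_coe_sort (roundI j m n M W) (fun b => roundE (roundw G) b (M k.1))]
  have hk := round_MI hM k.2
  rw [Finset.sum_congr rfl fun b _ => roundE_symm (roundw G) b (M k.1)]
  apply round_row hM hW hdv hG _ _ (mem_roundT.1 hk).1
  intro u
  rw [mem_roundI, (mem_roundT.1 hk).2, neg_neg]

theorem roundZ_neg (hM : IsTiling Adj3 (boxF j m n) M)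
    (hW : W ⊆ boxF j m n)
    (hG : ∀ (i : Fin 3) (v : V), ¬ (v ∈ W ∧ nx i v ∈ W) →
      G i v.1 v.2.1 v.2.2 = tf M i v.1 v.2.1 v.2.2) :
    ∑ b, ∑ k, max 0 (-(roundZ j m n M W G b k)) ≤
      ∑ v ∈ W, ∑ i, max 0 (-(eps v * G i v.1 v.2.1 v.2.2)) := by
  refine le_trans (le_of_eq ?_) (round_neg hM hW hG)
  unfold roundZ
  rw [← Finset.sum_coe_sort (roundI j m n M W)]
  apply Finset.sum_congr rfl
  intro b _
  rw [Finset.sum_coe_sort (roundI j m n M W)
    (fun k => max 0 (-(roundE (roundw G) b.1 (M k)))),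
    round_sum_M hM (fun w => max 0 (-(roundE (roundw G) b.1 w)))]

/-- the tiling defined by a permutation -/
noncomputable def roundM (j m n : ℕ) (M : V → V) (W : Finset V)
    (hMT : ∀ v, v ∈ roundT j m n M W → M v ∈ roundI j m n M W)
    (π : Equiv.Perm {b // b ∈ roundI j m n M W}) (v : V) : V := by
  classical
  exact if h : v ∈ roundI j m n M W then M (π ⟨v, h⟩).1
    else if h' : v ∈ roundT j m n M W then (π.symm ⟨M v, hMT v h'⟩).1 else M v

theorem roundM_I {hMT : ∀ v, v ∈ roundT j m n M W → M v ∈ roundI j m n M W}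
    (π : Equiv.Perm {b // b ∈ roundI j m n M W}) (b : {b // b ∈ roundI j m n M W}) :
    roundM j m n M W hMT π b.1 = M (π b).1 := by
  unfold roundM
  rw [dif_pos b.2]

theorem roundM_T {hMT : ∀ v, v ∈ roundT j m n M W → M v ∈ roundI j m n M W}
    (π : Equiv.Perm {b // b ∈ roundI j m n M W}) (v : V) (hv : v ∈ roundT j m n M W) :
    roundM j m n M W hMT π v = (π.symm ⟨M v, hMT v hv⟩).1 := by
  unfold roundM
  rw [dif_neg (fun h => Finset.disjoint_left.1 round_disj h hv), dif_pos hv]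

theorem roundM_out {hMT : ∀ v, v ∈ roundT j m n M W → M v ∈ roundI j m n M W}
    (π : Equiv.Perm {b // b ∈ roundI j m n M W}) (v : V) (hv : v ∉ roundU j m n M W) :
    roundM j m n M W hMT π v = M v := by
  unfold roundM
  rw [dif_neg (fun h => hv (mem_roundI.1 h).1), dif_neg (fun h => hv (mem_roundT.1 h).1)]

theorem roundM_mapI (hM : IsTiling Adj3 (boxF j m n) M)
    {hMT : ∀ v, v ∈ roundT j m n M W → M v ∈ roundI j m n M W}
    (π : Equiv.Perm {b // b ∈ roundI j m n M W}) (v : V) (hv : v ∈ roundI j m n M W) :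
    roundM j m n M W hMT π v ∈ roundT j m n M W := by
  rw [roundM_I π ⟨v, hv⟩]
  exact round_MI hM (π ⟨v, hv⟩).2

theorem roundM_mapT
    {hMT : ∀ v, v ∈ roundT j m n M W → M v ∈ roundI j m n M W}
    (π : Equiv.Perm {b // b ∈ roundI j m n M W}) (v : V) (hv : v ∈ roundT j m n M W) :
    roundM j m n M W hMT π v ∈ roundI j m n M W := by
  rw [roundM_T π v hv]
  exact (π.symm _).2

theorem roundM_inv (hM : IsTiling Adj3 (boxF j m n) M)
    {hMT : ∀ v, v ∈ roundT j m n M W → M v ∈ roundI j m n M W}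
    (π : Equiv.Perm {b // b ∈ roundI j m n M W}) (v : V) (hv : v ∈ roundU j m n M W) :
    roundM j m n M W hMT π (roundM j m n M W hMT π v) = v := by
  rcases round_IT hv with h | h
  · have e1 : roundM j m n M W hMT π v = M (π ⟨v, h⟩).1 := roundM_I π ⟨v, h⟩
    have hT := round_MI hM (π ⟨v, h⟩).2
    rw [e1, roundM_T π _ hT]
    have hb : (π ⟨v, h⟩).1 ∈ boxF j m n := (mem_roundU.1 (mem_roundI.1 (π ⟨v, h⟩).2).1).1
    have e2 : (⟨M (M (π ⟨v, h⟩).1), hMT _ hT⟩ : {b // b ∈ roundI j m n M W}) = π ⟨v, h⟩ :=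
      Subtype.ext (hM.inv _ hb)
    rw [e2, Equiv.symm_apply_apply]
  · rw [roundM_T π v h, roundM_I, Equiv.apply_symm_apply]
    exact hM.inv v (mem_roundU.1 hv).1

/-- positivity of the edges used -/
theorem roundM_pos (hM : IsTiling Adj3 (boxF j m n) M)
    {hMT : ∀ v, v ∈ roundT j m n M W → M v ∈ roundI j m n M W}
    (π : Equiv.Perm {b // b ∈ roundI j m n M W})
    (hπ : ∀ b, 0 < roundZ j m n M W G b (π b)) (v : V) (hv : v ∈ roundU j m n M W) :
    0 < roundE (roundw G) v (roundM j m n M W hMT π v) := by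
  rcases round_IT hv with h | h
  · have e1 : roundM j m n M W hMT π v = M (π ⟨v, h⟩).1 := roundM_I π ⟨v, h⟩
    rw [e1]
    exact hπ ⟨v, h⟩
  · rw [roundM_T π v h, roundE_symm]
    have h1 := hπ (π.symm ⟨M v, hMT v h⟩)
    unfold roundZ at h1
    rw [Equiv.apply_symm_apply] at h1
    have h2 : M (M v) = v := hM.inv v (mem_roundU.1 hv).1
    simpa only [h2] using h1

theorem roundM_spec (hM : IsTiling Adj3 (boxF j m n) M)
    (hW : W ⊆ boxF j m n)
    (hG : ∀ (i : Fin 3) (v : V), ¬ (v ∈ W ∧ nx i v ∈ W) →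
      G i v.1 v.2.1 v.2.2 = tf M i v.1 v.2.1 v.2.2)
    {hMT : ∀ v, v ∈ roundT j m n M W → M v ∈ roundI j m n M W}
    (π : Equiv.Perm {b // b ∈ roundI j m n M W})
    (hπ : ∀ b, 0 < roundZ j m n M W G b (π b)) :
    IsTiling Adj3 (boxF j m n) (roundM j m n M W hMT π) ∧
      (∀ (i : Fin 3) (v : V), roundM j m n M W hMT π v = nx i v →
        0 < eps v * G i v.1 v.2.1 v.2.2) ∧
      (∀ v, v ∉ W → roundM j m n M W hMT π v = M v) := by
  have hmapU : ∀ v ∈ roundU j m n M W, roundM j m n M W hMT π v ∈ roundU j m n M W := by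
    intro v hv
    rcases round_IT hv with h | h
    · exact (mem_roundT.1 (roundM_mapI hM π v h)).1
    · exact (mem_roundI.1 (roundM_mapT π v h)).1
  refine ⟨⟨?_, ?_, ?_, ?_⟩, ?_, ?_⟩
  · intro v hv
    by_cases hU : v ∈ roundU j m n M W
    · exact (mem_roundU.1 (hmapU v hU)).1
    · rw [roundM_out π v hU]
      exact hM.mem v hv
  · intro v hv
    by_cases hU : v ∈ roundU j m n M W
    · have hp := roundM_pos hM (hMT := hMT) π hπ v hU
      rcases roundE_cases v (roundM j m n M W hMT π v) with h0 | ⟨i, hi, -⟩ | ⟨i, hi, -⟩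
      · rw [h0] at hp
        exact absurd hp (lt_irrefl _)
      · exact round_adj_iff.2 ⟨i, Or.inl hi⟩
      · exact round_adj_iff.2 ⟨i, Or.inr hi⟩
    · rw [roundM_out π v hU]
      exact hM.adj v hv
  · intro v hv
    by_cases hU : v ∈ roundU j m n M W
    · exact roundM_inv hM π v hU
    · rw [roundM_out π v hU, roundM_out π (M v), hM.inv v hv]
      intro hh
      apply hU
      have := round_clU hM hh
      rwa [hM.inv v hv] at this
  · intro v hv
    rw [roundM_out π v (fun hh => hv (mem_roundU.1 hh).1)]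
    exact hM.out v hv
  · intro i v hi
    by_cases hU : v ∈ roundU j m n M W
    · have hp := roundM_pos hM (hMT := hMT) π hπ v hU
      rw [hi, roundE_nx] at hp
      exact hp
    · rw [roundM_out π v hU] at hi
      have hvW : v ∉ W := fun hh => hU (round_sub hW hh)
      have h1 := round_wt_out hG i v (fun hh => hvW hh.1)
      rw [if_pos hi] at h1
      unfold roundw at h1
      rw [h1]
      exact one_pos
  · intro v hvW
    by_cases hU : v ∈ roundU j m n M W
    · have hp := roundM_pos hM (hMT := hMT) π hπ v hU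
      exact (round_pos_out hM hG v _ hp (fun hh => hvW hh.1)).symm
    · exact roundM_out π v hU

end Setup

/-- `G` is the flow of a fractional tiling (`eps v * G i v` is the weight of the edge
`v, nx i v`) which agrees with the flow of the tiling `M` except on edges inside `W`, and whose
total negative part is at most `η`.  Then there is a tiling `M'` using only edges of positive
weight (hence equal to `M` outside `W`) whose cost is smaller than that of `M`. -/
theorem round_tiling {j m n : ℕ} {M : V → V} (hM : IsTiling Adj3 (boxF j m n) M) (G : Flow)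
    (W : Finset V) (hW : W ⊆ boxF j m n)
    (hdv : ∀ v ∈ boxF j m n, dv G v.1 v.2.1 v.2.2 = eps v)
    (hG : ∀ (i : Fin 3) (v : V), ¬ (v ∈ W ∧ nx i v ∈ W) →
      G i v.1 v.2.1 v.2.2 = tf M i v.1 v.2.1 v.2.2)
    (η : ℝ) (hη : ∑ v ∈ W, ∑ i, max 0 (-(eps v * G i v.1 v.2.1 v.2.2)) ≤ η)
    (N : ℕ) (hN : 2 * W.card ≤ N) (hNη : N * η < 1)
    (c : V → ℝ) (A : ℝ) (hA : 0 ≤ A) (hc : ∀ v ∈ W, |c v| ≤ A)
    (hcost : ∑ v ∈ W, c v * (G 1 v.1 v.2.1 v.2.2 - tf M 1 v.1 v.2.1 v.2.2) <
      - (8 * (N:ℝ)^2 * A * η)) :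
    ∃ M' : V → V, IsTiling Adj3 (boxF j m n) M' ∧
      (∀ (i : Fin 3) (v : V), M' v = nx i v → 0 < eps v * G i v.1 v.2.1 v.2.2) ∧
      (∀ v, v ∉ W → M' v = M v) ∧
      ∑ v ∈ W, c v * (tf M' 1 v.1 v.2.1 v.2.2 - tf M 1 v.1 v.2.1 v.2.2) < 0 := by
  classical
  have hcI : ∀ v, v ∈ roundT j m n M W → M v ∈ roundI j m n M W := fun v hv => round_MT hM hv
  have hMU : ∀ v ∈ roundU j m n M W, M (M v) = v := fun v hv =>
    hM.inv v (mem_roundU.1 hv).1
  have hdiag : ∑ i : {b // b ∈ roundI j m n M W}, roundE (roundc W c) i.1 (M i.1) =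
      ∑ v ∈ W, c v * tf M 1 v.1 v.2.1 v.2.2 := by
    rw [Finset.sum_coe_sort (roundI j m n M W) (fun b => roundE (roundc W c) b (M b))]
    exact round_cost_tiling hW (fun v hv => round_MI hM hv) hcI hMU c
  obtain ⟨π, hπ, hπc⟩ := birk_round (roundZ j m n M W G) (roundZ_row hM hW hdv hG)
    (roundZ_col hM hW hdv hG) η (le_trans (roundZ_neg hM hW hG) hη) N
    (by rw [Fintype.card_coe]; exact le_trans (round_card hM) hN) hNη
    (fun b b' => roundE (roundc W c) b.1 (M b'.1)) A hA (by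
      intro b b'
      have hbd : ∀ i v, |roundc W c i v| ≤ A := by
        intro i v
        unfold roundc
        split_ifs with h
        · rw [abs_mul]
          have : |eps v| = 1 := by
            rcases round_eps_cases v with h' | h' <;> rw [h'] <;> norm_num
          rw [this, mul_one]
          exact hc v h.2
        · rw [abs_zero]
          exact hA
      rcases roundE_cases b.1 (M b'.1) with h0 | ⟨i, -, h0⟩ | ⟨i, -, h0⟩
      · rw [h0, abs_zero]
        exact hA
      · rw [h0]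
        exact hbd _ _
      · rw [h0]
        exact hbd _ _) (by
      have e1 : ∑ b, ∑ k, roundZ j m n M W G b k * roundE (roundc W c) b.1 (M k.1) =
          ∑ v ∈ W, c v * G 1 v.1 v.2.1 v.2.2 := by
        rw [← round_cost_flow hM hW hG c, ← Finset.sum_coe_sort (roundI j m n M W)]
        apply Finset.sum_congr rfl
        intro b _
        unfold roundZ
        rw [Finset.sum_coe_sort (roundI j m n M W)
          (fun k => roundE (roundw G) b.1 (M k) * roundE (roundc W c) b.1 (M k)),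
          round_sum_M hM (fun w => roundE (roundw G) b.1 w * roundE (roundc W c) b.1 w)]
      rw [e1, hdiag]
      have e2 : ∑ v ∈ W, c v * (G 1 v.1 v.2.1 v.2.2 - tf M 1 v.1 v.2.1 v.2.2) =
          ∑ v ∈ W, c v * G 1 v.1 v.2.1 v.2.2 - ∑ v ∈ W, c v * tf M 1 v.1 v.2.1 v.2.2 := by
        rw [← Finset.sum_sub_distrib]
        exact Finset.sum_congr rfl fun v _ => mul_sub _ _ _
      rw [e2] at hcost
      linarith)
  obtain ⟨h1, h2, h3⟩ := roundM_spec hM hW hG (hMT := hcI) π hπ
  refine ⟨roundM j m n M W hcI π, h1, h2, h3, ?_⟩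
  have e3 : ∑ i : {b // b ∈ roundI j m n M W}, roundE (roundc W c) i.1 (M (π i).1) =
      ∑ v ∈ W, c v * tf (roundM j m n M W hcI π) 1 v.1 v.2.1 v.2.2 := by
    rw [← round_cost_tiling (M := M) hW (fun v hv => roundM_mapI hM π v hv)
      (fun v hv => roundM_mapT π v hv) (fun v hv => roundM_inv hM π v hv) c,
      ← Finset.sum_coe_sort (roundI j m n M W)]
    apply Finset.sum_congr rfl
    intro b _
    rw [roundM_I]
  rw [hdiag] at hπc
  rw [e3] at hπc
  have e4 : ∑ v ∈ W, c v * (tf (roundM j m n M W hcI π) 1 v.1 v.2.1 v.2.2 -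
      tf M 1 v.1 v.2.1 v.2.2) =
      ∑ v ∈ W, c v * tf (roundM j m n M W hcI π) 1 v.1 v.2.1 v.2.2 -
        ∑ v ∈ W, c v * tf M 1 v.1 v.2.1 v.2.2 := by
    rw [← Finset.sum_sub_distrib]
    exact Finset.sum_congr rfl fun v _ => mul_sub _ _ _
  rw [e4]
  linarith

/-- the version without cost -/
theorem round_tiling0 {j m n : ℕ} {M : V → V} (hM : IsTiling Adj3 (boxF j m n) M) (G : Flow)
    (W : Finset V) (hW : W ⊆ boxF j m n)
    (hdv : ∀ v ∈ boxF j m n, dv G v.1 v.2.1 v.2.2 = eps v)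
    (hG : ∀ (i : Fin 3) (v : V), ¬ (v ∈ W ∧ nx i v ∈ W) →
      G i v.1 v.2.1 v.2.2 = tf M i v.1 v.2.1 v.2.2)
    (η : ℝ) (hη : ∑ v ∈ W, ∑ i, max 0 (-(eps v * G i v.1 v.2.1 v.2.2)) ≤ η)
    (N : ℕ) (hN : 2 * W.card ≤ N) (hNη : N * η < 1) :
    ∃ M' : V → V, IsTiling Adj3 (boxF j m n) M' ∧
      (∀ (i : Fin 3) (v : V), M' v = nx i v → 0 < eps v * G i v.1 v.2.1 v.2.2) ∧
      (∀ v, v ∉ W → M' v = M v) := by
  classical
  obtain ⟨π, hπ⟩ := birk_round0 (roundZ j m n M W G) (roundZ_row hM hW hdv hG)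
    (roundZ_col hM hW hdv hG) η (le_trans (roundZ_neg hM hW hG) hη) N
    (by rw [Fintype.card_coe]; exact le_trans (round_card hM) hN) hNη
  exact ⟨roundM j m n M W (fun v hv => round_MT hM hv) π,
    roundM_spec hM hW hG π hπ⟩

end Pool.Agent.Slab3D
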