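import Pool.Agent.Slab3D.Step1D

/-!
# Step 1: a tiling with a large height can be changed locally to one with smaller potential
-/

namespace Pool.Agent.Slab3D

open Pool.Agent.Dimer3D Finset

theorem step1 (N : ℕ) (hN : 1 ≤ N) : ∃ C : ℕ, 1 ≤ C ∧ ∀ j : ℕ, 1 ≤ j →
    ∀ (m n : ℕ) (σ : V → V) (h : ℤ → ℤ) (R : Fin N → V → V), (∀ x, 0 ≤ h x) →
      IsTiling Adj3 (boxF j m n) σ → Ref N j m n σ h R → ∀ M, OK j m n σ h M →
      (∃ a b, ((C * j ^ 14 : ℕ) : ℝ) < |ht j (tf M - xD R) a b|) →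
      ∃ M', OK j m n σ h M' ∧ Near Adj3 (C * j ^ 7) (boxF j m n) M M' ∧
        Psi j m n R M' < Psi j m n R M := by
  have hN' : (1:ℝ) ≤ N := by exact_mod_cast hN
  obtain ⟨A, hA1, hAt⟩ := exists_t N hN
  refine ⟨A + 3 * (11 * N * A) ^ 4, by omega, ?_⟩
  intro j hj
  have hj' : (1:ℝ) ≤ j := by exact_mod_cast hj
  obtain ⟨κ, hκ⟩ : ∃ κ : ℝ, κ = 1 / (16 * N * ((j:ℝ) + 1) ^ 2) := ⟨_, rfl⟩
  obtain ⟨θ, hθ⟩ : ∃ θ : ℝ, θ = 1 / (2 * N) := ⟨_, rfl⟩
  have hκ0 : 0 < κ := by rw [hκ]; positivity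
  have hθ0 : 0 ≤ θ := by rw [hθ]; positivity
  obtain ⟨ht2, ht3⟩ := hAt j hj κ hκ
  set t : ℕ := A * j ^ 3 with htt
  set r : ℕ := 2 * N * t + 3 with hr
  set wb : ℕ := j * (2 * r + 1) ^ 2 with hwb
  have hwb' : j * (4 * N * t + 7) ^ 2 = wb := by rw [hwb, hr]; ring
  rw [hwb'] at ht2 ht3
  -- the numerical bounds
  have hj3 : 1 ≤ j ^ 3 := Nat.one_le_pow _ _ hj
  have ht1 : 1 ≤ t := Nat.mul_pos hA1 hj3
  have hr2 : 2 * r + 1 ≤ 11 * N * A * j ^ 3 := by
    have h1 : 1 ≤ N * t := Nat.mul_pos hN ht1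
    have h2 : 11 * N * A * j ^ 3 = 4 * (N * t) + 7 * (N * t) := by rw [htt]; ring
    rw [h2, hr]
    nlinarith
  have hKle : wb ≤ (A + 3 * (11 * N * A) ^ 4) * j ^ 7 := by
    have h1 : wb ≤ j * (11 * N * A * j ^ 3) ^ 2 := by
      rw [hwb]; exact Nat.mul_le_mul_left _ (Nat.pow_le_pow_left hr2 2)
    have h2 : j * (11 * N * A * j ^ 3) ^ 2 = (11 * N * A) ^ 2 * j ^ 7 := by ring
    rw [h2] at h1
    refine h1.trans (Nat.mul_le_mul_right _ ?_)
    have h3 : 1 ≤ 11 * N * A := Nat.mul_pos (by omega) hA1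
    have h4 : (11 * N * A) ^ 2 ≤ (11 * N * A) ^ 4 := Nat.pow_le_pow_right h3 (by norm_num)
    omega
  have hBle : t + 3 * j ^ 2 * (2 * r + 1) ^ 4 ≤ (A + 3 * (11 * N * A) ^ 4) * j ^ 14 := by
    have h1 : 3 * j ^ 2 * (2 * r + 1) ^ 4 ≤ 3 * j ^ 2 * (11 * N * A * j ^ 3) ^ 4 :=
      Nat.mul_le_mul_left _ (Nat.pow_le_pow_left hr2 4)
    have h2 : 3 * j ^ 2 * (11 * N * A * j ^ 3) ^ 4 = 3 * (11 * N * A) ^ 4 * j ^ 14 := by ring
    have h3 : t ≤ A * j ^ 14 := Nat.mul_le_mul_left _ (Nat.pow_le_pow_right hj (by norm_num))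
    rw [add_mul]
    omega
  intro m n σ h R hh hσ hR M hM hbig
  have hA : Adm j m n h (tf M - xD R) := hR.phi_adm hN hσ hM
  obtain ⟨xf, yf, hf, hmax⟩ := exists_max hh hA
  obtain ⟨a0, b0, hab0⟩ := hbig
  set Mx := |ht j (tf M - xD R) xf yf| with hMx
  have hMxbig : t + 3 * (j:ℝ) ^ 2 * (2 * r + 1) ^ 4 < Mx := by
    refine lt_of_le_of_lt ?_ (lt_of_lt_of_le hab0 (hmax _ _))
    exact_mod_cast hBle
  have hc0 : 0 ≤ 3 * (j:ℝ) ^ 2 * (2 * r + 1) ^ 4 := by positivity
  have ht0 : (0:ℝ) ≤ t := Nat.cast_nonneg t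
  have hMt : (t:ℝ) ≤ Mx := by linarith
  obtain ⟨s, hs, hsf⟩ : ∃ s : ℝ, (s = 1 ∨ s = -1) ∧ s * ht j (tf M - xD R) xf yf = Mx := by
    rcases abs_choice (ht j (tf M - xD R) xf yf) with h1 | h1
    · exact ⟨1, Or.inl rfl, by rw [hMx, h1, one_mul]⟩
    · exact ⟨-1, Or.inr rfl, by rw [hMx, h1]; ring⟩
  have hsle : ∀ x y, s * ht j (tf M - xD R) x y ≤ Mx := by
    intro x y
    refine le_trans ?_ (hmax x y)
    refine (le_abs_self _).trans ?_
    rw [abs_mul]
    rcases hs with rfl | rfl <;> simp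
  set c : Flow := capc j (tf M - xD R) κ θ t s Mx xf yf with hc
  have hAc : Adm j m n h c := capc_adm hj hh hA hθ0 hMt
  obtain ⟨lam, hlam⟩ : ∃ lam : ℝ, lam = Real.exp (-(κ * t)) / 4 := ⟨_, rfl⟩
  have hlam0 : 0 < lam := by rw [hlam]; positivity
  have hlamt : lam * Real.exp (κ * t) = 1 / 4 := by
    rw [hlam, div_mul_eq_mul_div, ← Real.exp_add, neg_add_cancel, Real.exp_zero]
  set G : Flow := tf M + lam • c with hG
  set W := win j m n xf yf r with hW
  have hWc : W.card ≤ wb := card_win j m n xf yf r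
  -- vanishing of `c` outside of the window
  have hr2 : (t:ℝ) ≤ θ * (2 * N * t + 2) := by
    rw [hθ]
    have : 1 / (2 * (N:ℝ)) * (2 * N * t + 2) = t + 1 / N := by field_simp
    rw [this]
    have : 0 ≤ 1 / (N:ℝ) := by positivity
    linarith
  have hfar : ∀ (i : Fin 3) (z x y : ℤ), ((r:ℤ) ≤ |x - xf| ∨ (r:ℤ) ≤ |y - yf|) → c i z x y = 0 := by
    intro i z x y hxy
    apply capc_far hθ0 hsle hr2
    have h1 : (2 * N * t + 2 + 1 : ℝ) = ((r : ℤ) : ℝ) := by rw [hr]; push_cast; ring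
    rw [h1]
    rcases hxy with h2 | h2
    · have h3 : (((r:ℤ)):ℝ) ≤ |(x:ℝ) - xf| := by exact_mod_cast h2
      linarith [abs_nonneg ((y:ℝ) - yf)]
    · have h3 : (((r:ℤ)):ℝ) ≤ |(y:ℝ) - yf| := by exact_mod_cast h2
      linarith [abs_nonneg ((x:ℝ) - xf)]
  have hcW : ∀ (i : Fin 3) (z x y : ℤ), ¬ ((z,x,y) ∈ W ∧ nx i (z,x,y) ∈ W) → c i z x y = 0 := by
    intro i z x y hv
    by_cases hb : (z, x, y) ∈ boxF j m n ∧ nx i (z, x, y) ∈ boxF j m n
    · apply hfar
      by_contra hcon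
      push Not at hcon
      apply hv
      rw [hW, mem_win]
      refine ⟨⟨hb.1, hcon.1.le, hcon.2.le⟩, ?_⟩
      have h1 := hb.2
      rw [abs_lt, abs_lt] at hcon
      fin_cases i
      · show (z + 1, x, y) ∈ win j m n xf yf r
        rw [mem_win, abs_le, abs_le]
        refine ⟨h1, ?_, ?_⟩ <;> omega
      · show (z, x + 1, y) ∈ win j m n xf yf r
        rw [mem_win, abs_le, abs_le]
        refine ⟨h1, ?_, ?_⟩ <;> omega
      · show (z, x, y + 1) ∈ win j m n xf yf r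
        rw [mem_win, abs_le, abs_le]
        refine ⟨h1, ?_, ?_⟩ <;> omega
    · exact hAc.out hh i z x y hb
  have hGW : ∀ (i : Fin 3) (v : V), ¬ (v ∈ W ∧ nx i v ∈ W) →
      G i v.1 v.2.1 v.2.2 = tf M i v.1 v.2.1 v.2.2 := by
    rintro i ⟨z, x, y⟩ hv
    simp only [hG, Pi.add_apply, Pi.smul_apply, smul_eq_mul]
    rw [hcW i z x y hv, mul_zero, add_zero]
  have hdv : ∀ v ∈ boxF j m n, dv G v.1 v.2.1 v.2.2 = eps v := by
    rintro ⟨z, x, y⟩ hv
    simp only
    rw [hG, dv_add, dv_smul, dv_tf hM.1 z x y hv, hAc.dv0, mul_zero, add_zero]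
  -- weights
  have hwt : ∀ (i : Fin 3) (z x y : ℤ), -(lam / (4 * N)) ≤ eps (z,x,y) * G i z x y := by
    intro i z x y
    have h1 : eps (z,x,y) * G i z x y = eps (z,x,y) * tf M i z x y +
        lam * (eps (z,x,y) * c i z x y) := by
      simp only [hG, Pi.add_apply, Pi.smul_apply, smul_eq_mul]
      ring
    rw [h1]
    by_cases hne : M (z,x,y) = nx i (z,x,y)
    · have h2 := capc_weight2 (t := t) (Mx := Mx) (xf := xf) (yf := yf) hN hh hσ hR hM hs hj
        hκ hθ i z x y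
      have h3 : zt κ (Dc j (tf M - xD R) θ t s Mx xf yf x y) + 1 ≤ Real.exp (κ * t) := by
        unfold zt
        rw [sub_add_cancel]
        apply Real.exp_le_exp.2
        apply mul_le_mul_of_nonneg_left _ hκ0.le
        apply max_le _ ht0
        have h4 := Dc_le (θ := θ) (t := (t:ℝ)) (xf := xf) (yf := yf) (hsle x y)
        have h5 : 0 ≤ θ * (|(x:ℝ) - xf| + |(y:ℝ) - yf|) := by positivity
        linarith
      rw [eps_tf, if_pos hne]
      have h4 : -(2 * Real.exp (κ * t)) ≤ eps (z,x,y) * c i z x y := by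
        rw [hc]; linarith
      have h5 := mul_le_mul_of_nonneg_left h4 hlam0.le
      have h6 : lam * -(2 * Real.exp (κ * t)) = -(1 / 2) := by
        have : lam * -(2 * Real.exp (κ * t)) = -2 * (lam * Real.exp (κ * t)) := by ring
        rw [this, hlamt]; norm_num
      rw [h6] at h5
      have h7 : 0 ≤ lam / (4 * N) := by positivity
      linarith
    · have h2 := capc_weight1 (xf := xf) (yf := yf) hj hN hh hσ hR hM hs hMt hκ hθ i z x y hne
      rw [eps_tf, if_neg hne, zero_add]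
      have h5 := mul_le_mul_of_nonneg_left h2 hlam0.le
      have h6 : lam * -(1 / (4 * (N:ℝ))) = -(lam / (4 * N)) := by ring
      rw [h6] at h5
      exact h5
  have hη : ∑ v ∈ W, ∑ i, max 0 (-(eps v * G i v.1 v.2.1 v.2.2)) ≤ wb * lam := by
    have h1 : ∀ v ∈ W, ∑ i : Fin 3, max 0 (-(eps v * G i v.1 v.2.1 v.2.2)) ≤ lam := by
      rintro ⟨z, x, y⟩ _
      have h2 : ∀ i : Fin 3, max 0 (-(eps (z,x,y) * G i z x y)) ≤ lam / 4 := by
        intro i
        apply max_le (by positivity)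
        have h3 := hwt i z x y
        have h4 : lam / (4 * N) ≤ lam / 4 := by
          apply div_le_div_of_nonneg_left hlam0.le (by norm_num)
          linarith
        linarith
      rw [Fin.sum_univ_three]
      have a0 := h2 0
      have a1 := h2 1
      have a2 := h2 2
      linarith
    refine (sum_le_card_nsmul _ _ _ h1).trans ?_
    rw [nsmul_eq_mul]
    apply mul_le_mul_of_nonneg_right _ hlam0.le
    exact_mod_cast hWc
  -- total cost
  have hcost : ∑ v ∈ W, (s * ((yf:ℝ) - v.2.2)) * (G 1 v.1 v.2.1 v.2.2 - tf M 1 v.1 v.2.1 v.2.2) ≤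
      -(lam * Th κ t) := by
    have h1 : ∑ v ∈ W, (s * ((yf:ℝ) - v.2.2)) *
        (G 1 v.1 v.2.1 v.2.2 - tf M 1 v.1 v.2.1 v.2.2) =
        lam * (s * ∑ v ∈ boxF j m n, ((yf:ℝ) - v.2.2) * c 1 v.1 v.2.1 v.2.2) := by
      rw [mul_sum, mul_sum]
      have h3 : W ⊆ boxF j m n := filter_subset _ _
      rw [← sum_subset h3]
      · apply sum_congr rfl
        intro v _
        simp only [hG, Pi.add_apply, Pi.smul_apply, smul_eq_mul]
        ring
      · rintro ⟨z, x, y⟩ _ hv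
        have := hcW 1 z x y fun h' => hv h'.1
        simp only
        rw [this]
        ring
    rw [h1, ← hAc.sum_ht hh (yf:ℝ)]
    have h2 : ∑ a ∈ Icc 0 (m:ℤ), ∑ b ∈ Icc 0 (n:ℤ), ht j c a b =
        -s * ∑ a ∈ Icc 0 (m:ℤ), ∑ b ∈ Icc 0 (n:ℤ),
          Th κ (Dc j (tf M - xD R) θ t s Mx xf yf a b) := by
      rw [mul_sum]
      apply sum_congr rfl
      intro a _
      rw [mul_sum]
      apply sum_congr rfl
      intro b hb
      exact capc_ht hj hh hA hθ0 hMt a b (mem_Icc.1 hb).1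
    rw [h2]
    have hs2 : s * s = 1 := by rcases hs with rfl | rfl <;> norm_num
    have h3 : ∀ S : ℝ, lam * (s * (-s * S)) = -(lam * ((s * s) * S)) := fun S => by ring
    rw [h3, hs2, one_mul]
    apply neg_le_neg
    apply mul_le_mul_of_nonneg_left _ hlam0.le
    have h4 : Dc j (tf M - xD R) θ t s Mx xf yf xf yf = t := by
      unfold Dc
      rw [hsf]
      simp
    calc Th κ t = Th κ (Dc j (tf M - xD R) θ t s Mx xf yf xf yf) := by rw [h4]
      _ ≤ ∑ b ∈ Icc 0 (n:ℤ), Th κ (Dc j (tf M - xD R) θ t s Mx xf yf xf b) :=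
        single_le_sum (f := fun b => Th κ (Dc j (tf M - xD R) θ t s Mx xf yf xf b))
          (fun b _ => Th_nonneg hκ0 _) hf.2
      _ ≤ _ := single_le_sum (f := fun a => ∑ b ∈ Icc 0 (n:ℤ),
          Th κ (Dc j (tf M - xD R) θ t s Mx xf yf a b))
          (fun a _ => sum_nonneg fun b _ => Th_nonneg hκ0 _) hf.1
  have hround := round_tiling hM.1 G W (filter_subset _ _) hdv hGW (wb * lam) hη (2 * wb)
    (by omega) (by
      push_cast
      have h1 : 2 * (wb:ℝ) * (wb * lam) = 2 * (wb:ℝ) ^ 2 * lam := by ring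
      rw [h1]
      have h2 := mul_lt_mul_of_pos_right ht3 hlam0
      have h3 : 2 * Real.exp (κ * t) * lam = 1 / 2 := by
        rw [mul_assoc, mul_comm (Real.exp _), hlamt]; norm_num
      rw [h3] at h2
      linarith)
    (fun v => s * ((yf:ℝ) - v.2.2)) r (Nat.cast_nonneg r) (by
      rintro ⟨z, x, y⟩ hv
      rw [hW, mem_win] at hv
      have h1 : |(y:ℝ) - yf| ≤ r := by exact_mod_cast hv.2.2
      simp only
      rw [abs_mul, abs_sub_comm]
      have h4 : |s| = 1 := by rcases hs with rfl | rfl <;> simp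
      rw [h4, one_mul]
      exact h1) (by
      refine lt_of_le_of_lt hcost ?_
      apply neg_lt_neg
      push_cast
      have h1 := mul_lt_mul_of_pos_left ht2 hlam0
      refine lt_of_eq_of_lt ?_ h1
      ring)
  obtain ⟨M', hM', hpos, hMW, hc'⟩ := hround
  -- `M'` is OK
  have hOK' : OK j m n σ h M' := by
    refine ⟨hM', fun v hv hd => ?_⟩
    have key : ∀ (i : Fin 3) (u : V), M' u = nx i u →
        ¬ (dom m n h u.2.1 u.2.2 ∧ dom m n h (nx i u).2.1 (nx i u).2.2) → M u = nx i u := by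
      rintro i ⟨z, x, y⟩ hu hdu
      have h1 := hpos i (z, x, y) hu
      have h2 : c i z x y = 0 := by
        fin_cases i
        · exact hAc.e0 z x y fun h' => hdu ⟨h', h'⟩
        · exact hAc.e1 z x y hdu
        · exact hAc.e2 z x y hdu
      simp only [hG, Pi.add_apply, Pi.smul_apply, smul_eq_mul, h2, mul_zero, add_zero] at h1
      rw [eps_tf] at h1
      by_contra hcon
      rw [if_neg hcon] at h1
      exact lt_irrefl _ h1
    have hMM : M' v = M v := by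
      have hadj : (∃ i, M' v = nx i v) ∨ (∃ i, v = nx i (M' v)) := by
        have h1 := hM'.adj v hv
        obtain ⟨z, x, y⟩ := v
        generalize M' (z, x, y) = u at h1
        obtain ⟨z', x', y'⟩ := u
        have habs : ∀ a b : ℤ, |a - b| = 1 → (b = a + 1 ∨ a = b + 1) := by
          intro a b h
          rcases abs_eq (zero_le_one' ℤ) |>.1 h with h | h <;> omega
        simp only [Adj3] at h1
        rcases h1 with ⟨h1, rfl, rfl⟩ | ⟨rfl, h1, rfl⟩ | ⟨rfl, rfl, h1⟩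
        · rcases habs _ _ h1 with rfl | rfl
          · exact Or.inl ⟨0, rfl⟩
          · exact Or.inr ⟨0, rfl⟩
        · rcases habs _ _ h1 with rfl | rfl
          · exact Or.inl ⟨1, rfl⟩
          · exact Or.inr ⟨1, rfl⟩
        · rcases habs _ _ h1 with rfl | rfl
          · exact Or.inl ⟨2, rfl⟩
          · exact Or.inr ⟨2, rfl⟩
      rcases hadj with ⟨i, hi⟩ | ⟨i, hi⟩
      · rw [hi]
        exact (key i v hi fun h' => hd h'.1).symm
      · have h1 : M' (M' v) = nx i (M' v) := by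
          rw [hM'.inv v hv]; exact hi
        have h2 := key i (M' v) h1 (fun h' => hd (by rw [← hi] at h'; exact h'.2))
        rw [← hi] at h2
        exact ((tiling_iff hM.1 hv).1 h2).symm
    rw [hMM]
    exact hM.2 v hv hd
  refine ⟨M', hOK', ⟨hM.1, hM', ?_⟩, ?_⟩
  · refine le_trans (card_le_card ?_) (hWc.trans hKle)
    intro v hv
    rw [mem_filter] at hv
    by_contra hcon
    exact hv.2 (hMW v hcon).symm
  · apply Psi_drop hh hj hN hσ hR hM hOK' hs (by omega) hsf hMW hc'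
    rw [← hMx]
    linarith

end Pool.Agent.Slab3D
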