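import Pool.Agent.Slab3D.OpLemmas
import Pool.Agent.Slab3D.Facts
import Pool.Agent.Slab3D.Analytic

/-!
# Step 1, part A: the correction flow
-/

namespace Pool.Agent.Slab3D

open Pool.Agent.Dimer3D Finset

section
variable {j m n : ℕ} {h : ℤ → ℤ} {φ : Flow}

theorem dom_range (hh : ∀ x, 0 ≤ h x) {x y : ℤ} (hd : dom m n h x y) :
    (1 ≤ x ∧ x ≤ m) ∧ (1 ≤ y ∧ y ≤ n) := by
  obtain ⟨h1, h2, h3, h4⟩ := hd
  have := hh x
  exact ⟨⟨h1, h2⟩, by omega, h4⟩

theorem Adm.out (hh : ∀ x, 0 ≤ h x) (hA : Adm j m n h φ) (i : Fin 3) (z x y : ℤ)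
    (hb : ¬ ((z, x, y) ∈ boxF j m n ∧ nx i (z, x, y) ∈ boxF j m n)) : φ i z x y = 0 := by
  by_cases hz : z < 1 ∨ (j:ℤ) < z
  · exact hA.z0 i z x y hz
  · push Not at hz
    fin_cases i
    · show φ 0 z x y = 0
      by_cases hz1 : (j:ℤ) ≤ z
      · exact hA.z1 z x y hz1
      · apply hA.e0
        intro hd
        have h1 := dom_range hh hd
        apply hb
        simp only [nx, mem_boxF]
        refine ⟨⟨hz, h1.1, h1.2⟩, ⟨⟨?_, ?_⟩, h1.1, h1.2⟩⟩ <;> omega
    · show φ 1 z x y = 0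
      apply hA.e1
      rintro ⟨hd, hd'⟩
      have h1 := dom_range hh hd
      have h2 := dom_range hh hd'
      apply hb
      simp only [nx, mem_boxF]
      exact ⟨⟨hz, h1.1, h1.2⟩, hz, h2.1, h2.2⟩
    · show φ 2 z x y = 0
      apply hA.e2
      rintro ⟨hd, hd'⟩
      have h1 := dom_range hh hd
      have h2 := dom_range hh hd'
      apply hb
      simp only [nx, mem_boxF]
      exact ⟨⟨hz, h1.1, h1.2⟩, hz, h2.1, h2.2⟩

/-- lipschitz functions on `ℤ` -/
theorem lip_int {f : ℤ → ℝ} {J : ℝ} (hf : ∀ x, |f x - f (x - 1)| ≤ J) (a b : ℤ) :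
    |f a - f b| ≤ J * |(a:ℝ) - b| := by
  have key : ∀ (k : ℕ) (b : ℤ), |f (b + k) - f b| ≤ J * k := by
    intro k
    induction k with
    | zero => intro b; simp
    | succ k ih =>
      intro b
      have h1 := hf (b + (k + 1 : ℕ))
      have e : b + ((k + 1 : ℕ) : ℤ) - 1 = b + k := by push_cast; ring
      rw [e] at h1
      have h2 := ih b
      have h3 := abs_add_le (f (b + (k + 1 : ℕ)) - f (b + k)) (f (b + k) - f b)
      rw [sub_add_sub_cancel] at h3
      push_cast at h3 h1 ⊢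
      linarith
  rcases le_total b a with hab | hab
  · obtain ⟨k, hk⟩ := Int.eq_ofNat_of_zero_le (sub_nonneg.2 hab)
    have e : a = b + k := by omega
    rw [e]
    have h1 := key k b
    have h2 : |((b + (k:ℤ) : ℤ) : ℝ) - b| = k := by
      push_cast; rw [add_sub_cancel_left, abs_of_nonneg (Nat.cast_nonneg k)]
    rw [h2]; exact h1
  · obtain ⟨k, hk⟩ := Int.eq_ofNat_of_zero_le (sub_nonneg.2 hab)
    have e : b = a + k := by omega
    rw [e, abs_sub_comm]
    have h1 := key k a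
    have h2 : |(a:ℝ) - ((a + (k:ℤ) : ℤ) : ℝ)| = k := by
      push_cast
      rw [sub_add_cancel_left, abs_neg, abs_of_nonneg (Nat.cast_nonneg k)]
    rw [h2]; exact h1

theorem Adm.ht_lip (hh : ∀ x, 0 ≤ h x) (hA : Adm j m n h φ)
    (h1 : ∀ i z x y, |φ i z x y| ≤ 1) (a b a' b' : ℤ) :
    |ht j φ a b - ht j φ a' b'| ≤ j * (|(a:ℝ) - a'| + |(b:ℝ) - b'|) := by
  have e1 := lip_int (f := fun x => ht j φ x b) (J := j) (fun x => hA.ht_lip_x hh h1 x b) a a'
  have e2 := lip_int (f := fun y => ht j φ a' y) (J := j) (fun y => hA.ht_lip_y hh h1 a' y) b b'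
  have e3 := abs_add_le (ht j φ a b - ht j φ a' b) (ht j φ a' b - ht j φ a' b')
  rw [sub_add_sub_cancel] at e3
  linarith

end

/-- the scalar computation behind the bounds of the corrections -/
theorem corr_bound {κ Λ θ s H H' D D' δ : ℝ} (hκ : 0 < κ) (hΛ : 0 ≤ Λ) (h1 : κ * Λ ≤ 1)
    (hs : s = 1 ∨ s = -1) (hD : D' - D = s * (H' - H) - δ) (hδ : |δ| ≤ θ)
    (hab : |D' - D| ≤ Λ) :
    |(-s * Th κ D - (-s * Th κ D')) - (-zt κ D) * (H - H')| ≤
      θ * zt κ D + 2 * κ * Λ ^ 2 * (zt κ D + 1) := by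
  have h2 := Th_taylor hκ hΛ h1 hab
  have h3 := zt_nonneg hκ D
  set r := Th κ D' - Th κ D - zt κ D * (D' - D) with hr
  have h4 : (-s * Th κ D - (-s * Th κ D')) - (-zt κ D) * (H - H') =
      -(s * δ * zt κ D) + s * r := by
    rw [hr, hD]
    rcases hs with rfl | rfl <;> ring
  rw [h4]
  have h5 : |s| = 1 := by rcases hs with rfl | rfl <;> simp
  calc _ ≤ |-(s * δ * zt κ D)| + |s * r| := abs_add_le _ _
    _ = |δ| * zt κ D + |r| := by
      rw [abs_neg, abs_mul, abs_mul, abs_mul, h5, one_mul, one_mul, abs_of_nonneg h3]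
    _ ≤ _ := by
      apply add_le_add _ h2
      exact mul_le_mul_of_nonneg_right hδ h3

end Pool.Agent.Slab3D
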