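import Pool.Agent.Slab3D.Step1A

/-!
# Step 1, part B: the cap
-/

namespace Pool.Agent.Slab3D

open Pool.Agent.Dimer3D Finset

/-- the cap function around the maximum `(xf,yf)` of the height -/
noncomputable def Dc (j : ℕ) (φ : Flow) (θ t s Mx : ℝ) (xf yf x y : ℤ) : ℝ :=
  s * ht j φ x y - Mx + t - θ * (|(x:ℝ) - xf| + |(y:ℝ) - yf|)

section
variable {j m n : ℕ} {h : ℤ → ℤ} {φ : Flow} {θ t s Mx κ : ℝ} {xf yf : ℤ}

theorem Dc_le {x y : ℤ} (hM : s * ht j φ x y ≤ Mx) :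
    Dc j φ θ t s Mx xf yf x y ≤ t - θ * (|(x:ℝ) - xf| + |(y:ℝ) - yf|) := by
  unfold Dc; linarith

theorem Dc_x (hh : ∀ x, 0 ≤ h x) (hA : Adm j m n h φ) (h1 : ∀ i z x y, |φ i z x y| ≤ 1)
    (hθ : 0 ≤ θ) (hθ1 : θ ≤ 1) (hs : s = 1 ∨ s = -1) (x y : ℤ) :
    ∃ δ, Dc j φ θ t s Mx xf yf (x-1) y - Dc j φ θ t s Mx xf yf x y =
      s * (ht j φ (x-1) y - ht j φ x y) - δ ∧ |δ| ≤ θ ∧
      |Dc j φ θ t s Mx xf yf (x-1) y - Dc j φ θ t s Mx xf yf x y| ≤ (j:ℝ) + 1 := by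
  refine ⟨θ * (|((x-1 : ℤ):ℝ) - xf| - |(x:ℝ) - xf|), by unfold Dc; ring, ?_, ?_⟩
  · rw [abs_mul, abs_of_nonneg hθ]
    have h2 : |(|((x-1 : ℤ):ℝ) - xf| - |(x:ℝ) - xf|)| ≤ 1 := by
      refine (abs_abs_sub_abs_le_abs_sub _ _).trans ?_
      push_cast
      rw [show (x:ℝ) - 1 - xf - (x - xf) = -1 by ring]
      norm_num
    nlinarith
  · have h2 : |(|((x-1 : ℤ):ℝ) - xf| - |(x:ℝ) - xf|)| ≤ 1 := by
      refine (abs_abs_sub_abs_le_abs_sub _ _).trans ?_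
      push_cast
      rw [show (x:ℝ) - 1 - xf - (x - xf) = -1 by ring]
      norm_num
    have h3 := hA.ht_lip_x hh h1 x y
    have h4 : |s| = 1 := by rcases hs with rfl | rfl <;> simp
    have h5 : Dc j φ θ t s Mx xf yf (x-1) y - Dc j φ θ t s Mx xf yf x y =
      s * (ht j φ (x-1) y - ht j φ x y) + -(θ * (|((x-1 : ℤ):ℝ) - xf| - |(x:ℝ) - xf|)) := by
      unfold Dc; ring
    rw [h5]
    refine (abs_add_le _ _).trans ?_
    rw [abs_mul, h4, one_mul, abs_neg, abs_mul, abs_of_nonneg hθ, abs_sub_comm (ht j φ (x-1) y)]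
    nlinarith [abs_nonneg (|((x-1 : ℤ):ℝ) - xf| - |(x:ℝ) - xf|)]

theorem Dc_y (hh : ∀ x, 0 ≤ h x) (hA : Adm j m n h φ) (h1 : ∀ i z x y, |φ i z x y| ≤ 1)
    (hθ : 0 ≤ θ) (hθ1 : θ ≤ 1) (hs : s = 1 ∨ s = -1) (x y : ℤ) :
    ∃ δ, Dc j φ θ t s Mx xf yf x (y-1) - Dc j φ θ t s Mx xf yf x y =
      s * (ht j φ x (y-1) - ht j φ x y) - δ ∧ |δ| ≤ θ ∧
      |Dc j φ θ t s Mx xf yf x (y-1) - Dc j φ θ t s Mx xf yf x y| ≤ (j:ℝ) + 1 := by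
  have h2 : |(|((y-1 : ℤ):ℝ) - yf| - |(y:ℝ) - yf|)| ≤ 1 := by
    refine (abs_abs_sub_abs_le_abs_sub _ _).trans ?_
    push_cast
    rw [show (y:ℝ) - 1 - yf - (y - yf) = -1 by ring]
    norm_num
  refine ⟨θ * (|((y-1 : ℤ):ℝ) - yf| - |(y:ℝ) - yf|), by unfold Dc; ring, ?_, ?_⟩
  · rw [abs_mul, abs_of_nonneg hθ]
    nlinarith
  · have h3 := hA.ht_lip_y hh h1 x y
    have h4 : |s| = 1 := by rcases hs with rfl | rfl <;> simp
    have h5 : Dc j φ θ t s Mx xf yf x (y-1) - Dc j φ θ t s Mx xf yf x y =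
      s * (ht j φ x (y-1) - ht j φ x y) + -(θ * (|((y-1 : ℤ):ℝ) - yf| - |(y:ℝ) - yf|)) := by
      unfold Dc; ring
    rw [h5]
    refine (abs_add_le _ _).trans ?_
    rw [abs_mul, h4, one_mul, abs_neg, abs_mul, abs_of_nonneg hθ, abs_sub_comm (ht j φ x (y-1))]
    nlinarith [abs_nonneg (|((y-1 : ℤ):ℝ) - yf| - |(y:ℝ) - yf|)]

/-- the correction flow of the cap -/
noncomputable def capc (j : ℕ) (φ : Flow) (κ θ t s Mx : ℝ) (xf yf : ℤ) : Flow :=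
  op j φ (fun x y => - zt κ (Dc j φ θ t s Mx xf yf x y))
    (fun x y => - s * Th κ (Dc j φ θ t s Mx xf yf x y))

theorem capc_corr (hh : ∀ x, 0 ≤ h x) (hA : Adm j m n h φ)
    (h1 : ∀ i z x y, |φ i z x y| ≤ 1) (hκ : 0 < κ) (hθ : 0 ≤ θ) (hθ1 : θ ≤ 1)
    (hκΛ : κ * ((j:ℝ) + 1) ≤ 1) (hs : s = 1 ∨ s = -1) (i : Fin 3) (z x y : ℤ) :
    |capc j φ κ θ t s Mx xf yf i z x y - (- zt κ (Dc j φ θ t s Mx xf yf x y)) * φ i z x y| ≤
      θ * zt κ (Dc j φ θ t s Mx xf yf x y) +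
        4 * κ * ((j:ℝ) + 1) ^ 2 * (zt κ (Dc j φ θ t s Mx xf yf x y) + 1) := by
  have hj0 : (0:ℝ) ≤ j := Nat.cast_nonneg j
  have hΛ : (0:ℝ) ≤ (j:ℝ) + 1 := by positivity
  obtain ⟨δx, hx1, hx2, hx3⟩ := Dc_x (t := t) (Mx := Mx) (xf := xf) (yf := yf) hh hA h1 hθ hθ1 hs x y
  obtain ⟨δy, hy1, hy2, hy3⟩ := Dc_y (t := t) (Mx := Mx) (xf := xf) (yf := yf) hh hA h1 hθ hθ1 hs x y
  have hz := zt_nonneg hκ (Dc j φ θ t s Mx xf yf x y)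
  have hbig : 0 ≤ θ * zt κ (Dc j φ θ t s Mx xf yf x y) +
        4 * κ * ((j:ℝ) + 1) ^ 2 * (zt κ (Dc j φ θ t s Mx xf yf x y) + 1) := by positivity
  have hle : θ * zt κ (Dc j φ θ t s Mx xf yf x y) +
        2 * κ * ((j:ℝ) + 1) ^ 2 * (zt κ (Dc j φ θ t s Mx xf yf x y) + 1) ≤
      θ * zt κ (Dc j φ θ t s Mx xf yf x y) +
        4 * κ * ((j:ℝ) + 1) ^ 2 * (zt κ (Dc j φ θ t s Mx xf yf x y) + 1) := by
    have : 0 ≤ κ * ((j:ℝ) + 1) ^ 2 * (zt κ (Dc j φ θ t s Mx xf yf x y) + 1) := by positivity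
    linarith
  fin_cases i
  · show |capc j φ κ θ t s Mx xf yf 0 z x y -
      (- zt κ (Dc j φ θ t s Mx xf yf x y)) * φ 0 z x y| ≤ _
    refine (op_bound0 hh hA h1 _ _ z x y).trans ?_
    have e1 := zt_lip hκ hΛ hκΛ hx3
    have e2 := zt_lip hκ hΛ hκΛ hy3
    have e3 : |-zt κ (Dc j φ θ t s Mx xf yf x y) - -zt κ (Dc j φ θ t s Mx xf yf (x-1) y)| =
      |zt κ (Dc j φ θ t s Mx xf yf (x-1) y) - zt κ (Dc j φ θ t s Mx xf yf x y)| := by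
      congr 1; ring
    have e4 : |-zt κ (Dc j φ θ t s Mx xf yf x y) - -zt κ (Dc j φ θ t s Mx xf yf x (y-1))| =
      |zt κ (Dc j φ θ t s Mx xf yf x (y-1)) - zt κ (Dc j φ θ t s Mx xf yf x y)| := by
      congr 1; ring
    rw [e3, e4]
    have e5 : (j:ℝ) * (|zt κ (Dc j φ θ t s Mx xf yf (x-1) y) - zt κ (Dc j φ θ t s Mx xf yf x y)| +
        |zt κ (Dc j φ θ t s Mx xf yf x (y-1)) - zt κ (Dc j φ θ t s Mx xf yf x y)|) ≤
        ((j:ℝ) + 1) * (2 * (2 * κ * ((j:ℝ) + 1) * (zt κ (Dc j φ θ t s Mx xf yf x y) + 1))) := by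
      apply mul_le_mul (by linarith) (by linarith) (by positivity) hΛ
    refine e5.trans ?_
    have : 0 ≤ θ * zt κ (Dc j φ θ t s Mx xf yf x y) := by positivity
    nlinarith
  · show |capc j φ κ θ t s Mx xf yf 1 z x y -
      (- zt κ (Dc j φ θ t s Mx xf yf x y)) * φ 1 z x y| ≤ _
    simp only [capc, op]
    by_cases hz1 : z = 1
    · rw [if_pos hz1]
      have h3 := corr_bound hκ hΛ hκΛ hs hy1 hy2 hy3
      rw [add_sub_cancel_left]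
      exact h3.trans hle
    · rw [if_neg hz1, add_zero, sub_self, abs_zero]
      exact hbig
  · show |capc j φ κ θ t s Mx xf yf 2 z x y -
      (- zt κ (Dc j φ θ t s Mx xf yf x y)) * φ 2 z x y| ≤ _
    simp only [capc, op]
    by_cases hz1 : z = 1
    · rw [if_pos hz1]
      have h3 := corr_bound hκ hΛ hκΛ hs hx1 hx2 hx3
      rw [add_sub_cancel_left]
      rw [← abs_neg] at h3
      refine le_trans (le_of_eq ?_) (h3.trans hle)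
      congr 1
      ring
    · rw [if_neg hz1, add_zero, sub_self, abs_zero]
      exact hbig

/-- the cap vanishes where the height is `0` -/
theorem Dc_nonpos_of_zero (hθ : 0 ≤ θ) (hMt : t ≤ Mx) {x y : ℤ} (h0 : ht j φ x y = 0) :
    Dc j φ θ t s Mx xf yf x y ≤ 0 := by
  unfold Dc
  rw [h0, mul_zero]
  have : 0 ≤ θ * (|(x:ℝ) - xf| + |(y:ℝ) - yf|) := by positivity
  linarith

theorem capc_adm (hj : 1 ≤ j) (hh : ∀ x, 0 ≤ h x) (hA : Adm j m n h φ)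
    (hθ : 0 ≤ θ) (hMt : t ≤ Mx) : Adm j m n h (capc j φ κ θ t s Mx xf yf) := by
  apply op_adm hj hh hA
  · intro x y hd
    obtain ⟨h1, h2⟩ := hA.ht_zero_x hh hd
    rw [Th_zero (Dc_nonpos_of_zero hθ hMt h1), Th_zero (Dc_nonpos_of_zero hθ hMt h2)]
  · intro x y hd
    obtain ⟨h1, h2⟩ := hA.ht_zero_y hh hd
    rw [Th_zero (Dc_nonpos_of_zero hθ hMt h1), Th_zero (Dc_nonpos_of_zero hθ hMt h2)]

theorem capc_ht (hj : 1 ≤ j) (hh : ∀ x, 0 ≤ h x) (hA : Adm j m n h φ)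
    (hθ : 0 ≤ θ) (hMt : t ≤ Mx) (a b : ℤ) (hb : 0 ≤ b) :
    ht j (capc j φ κ θ t s Mx xf yf) a b = - s * Th κ (Dc j φ θ t s Mx xf yf a b) := by
  apply op_ht hj hh hA _ _ _ a b hb
  intro x
  have h0 : ht j φ x 0 = 0 := by simp [ht]
  rw [Th_zero (Dc_nonpos_of_zero hθ hMt h0), mul_zero]

/-- the cap vanishes far from its centre -/
theorem Dc_nonpos_far (hθ : 0 ≤ θ) (hM : ∀ x y, s * ht j φ x y ≤ Mx) {x y : ℤ} {r : ℝ}
    (hr : t ≤ θ * r) (hfar : r ≤ |(x:ℝ) - xf| + |(y:ℝ) - yf|) :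
    Dc j φ θ t s Mx xf yf x y ≤ 0 := by
  have h1 := Dc_le (θ := θ) (t := t) (xf := xf) (yf := yf) (hM x y)
  have h2 := mul_le_mul_of_nonneg_left hfar hθ
  linarith

theorem capc_far (hθ : 0 ≤ θ) (hM : ∀ x y, s * ht j φ x y ≤ Mx) {x y : ℤ} {r : ℝ}
    (hr : t ≤ θ * r) (hfar : r + 1 ≤ |(x:ℝ) - xf| + |(y:ℝ) - yf|) (i : Fin 3) (z : ℤ) :
    capc j φ κ θ t s Mx xf yf i z x y = 0 := by
  have h0 : Dc j φ θ t s Mx xf yf x y ≤ 0 := Dc_nonpos_far hθ hM hr (by linarith)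
  have hx : Dc j φ θ t s Mx xf yf (x-1) y ≤ 0 := by
    apply Dc_nonpos_far hθ hM hr
    have h2 := abs_sub_abs_le_abs_sub ((x:ℝ) - xf) (((x-1 : ℤ):ℝ) - xf)
    have h3 : |(x:ℝ) - xf - (((x-1 : ℤ):ℝ) - xf)| = 1 := by
      push_cast
      rw [show (x:ℝ) - xf - (x - 1 - xf) = 1 by ring, abs_one]
    rw [h3] at h2
    linarith
  have hy : Dc j φ θ t s Mx xf yf x (y-1) ≤ 0 := by
    apply Dc_nonpos_far hθ hM hr
    have h2 := abs_sub_abs_le_abs_sub ((y:ℝ) - yf) (((y-1 : ℤ):ℝ) - yf)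
    have h3 : |(y:ℝ) - yf - (((y-1 : ℤ):ℝ) - yf)| = 1 := by
      push_cast
      rw [show (y:ℝ) - yf - (y - 1 - yf) = 1 by ring, abs_one]
    rw [h3] at h2
    linarith
  fin_cases i <;> simp [capc, op, dd, zt_zero h0, zt_zero hx, zt_zero hy, Th_zero h0,
    Th_zero hx, Th_zero hy]

end

end Pool.Agent.Slab3D
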