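import Pool.Agent.Slab3D.Step1B
import Pool.Agent.Slab3D.Round

/-!
# Step 1, part C: windows, weights, change of the potential
-/

namespace Pool.Agent.Slab3D

open Pool.Agent.Dimer3D Finset

/-- sum of the squares of the heights -/
noncomputable def Psi (j m n : ℕ) {N : ℕ} (R : Fin N → V → V) (M : V → V) : ℝ :=
  ∑ a ∈ Icc 0 (m:ℤ), ∑ b ∈ Icc 0 (n:ℤ), (ht j (tf M - xD R) a b) ^ 2

/-- the window of radius `r` around the column `(xf,yf)` -/
noncomputable def win (j m n : ℕ) (xf yf : ℤ) (r : ℕ) : Finset V :=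
  (boxF j m n).filter fun v => |v.2.1 - xf| ≤ r ∧ |v.2.2 - yf| ≤ r

theorem mem_win {j m n : ℕ} {xf yf : ℤ} {r : ℕ} {z x y : ℤ} : (z,x,y) ∈ win j m n xf yf r ↔
    (z,x,y) ∈ boxF j m n ∧ |x - xf| ≤ r ∧ |y - yf| ≤ r := by
  simp only [win, mem_filter]

theorem card_win (j m n : ℕ) (xf yf : ℤ) (r : ℕ) :
    (win j m n xf yf r).card ≤ j * (2 * r + 1) ^ 2 := by
  have h1 : win j m n xf yf r ⊆
      Icc 1 (j:ℤ) ×ˢ (Icc (xf - r) (xf + r) ×ˢ Icc (yf - r) (yf + r)) := by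
    rintro ⟨z, x, y⟩ hv
    rw [mem_win, mem_boxF, abs_le, abs_le] at hv
    simp only [mem_product, mem_Icc]
    omega
  refine (card_le_card h1).trans (le_of_eq ?_)
  rw [card_product, card_product, Int.card_Icc, Int.card_Icc, Int.card_Icc]
  have e1 : ((j:ℤ) + 1 - 1).toNat = j := by omega
  have e2 : (xf + r + 1 - (xf - r)).toNat = 2 * r + 1 := by omega
  have e3 : (yf + r + 1 - (yf - r)).toNat = 2 * r + 1 := by omega
  rw [e1, e2, e3]
  ring

section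
variable {j m n N : ℕ} {σ M M' : V → V} {h : ℤ → ℤ} {R : Fin N → V → V}
  {t s Mx : ℝ} {xf yf : ℤ}

/-- weights on the edges which are not tiles -/
theorem capc_weight1 (hj : 1 ≤ j) (hN : 1 ≤ N) (hh : ∀ x, 0 ≤ h x)
    (hσ : IsTiling Adj3 (boxF j m n) σ) (hR : Ref N j m n σ h R) (hM : OK j m n σ h M)
    (hs : s = 1 ∨ s = -1) (hMt : t ≤ Mx) {κ θ : ℝ}
    (hκ : κ = 1 / (16 * N * ((j:ℝ) + 1) ^ 2)) (hθ : θ = 1 / (2 * N)) (i : Fin 3) (z x y : ℤ)
    (hne : M (z,x,y) ≠ nx i (z,x,y)) :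
    -(1 / (4 * (N:ℝ))) ≤ eps (z,x,y) * capc j (tf M - xD R) κ θ t s Mx xf yf i z x y := by
  have hN' : (1:ℝ) ≤ N := by exact_mod_cast hN
  have hN0 : (0:ℝ) < N := by linarith
  have hj' : (1:ℝ) ≤ j := by exact_mod_cast hj
  have hκ0 : 0 < κ := by rw [hκ]; positivity
  have hθ0 : 0 ≤ θ := by rw [hθ]; positivity
  have hθ1 : θ ≤ 1 := by
    rw [hθ, div_le_one (by positivity)]; linarith
  have hκ4 : 4 * κ * ((j:ℝ) + 1) ^ 2 = 1 / (4 * N) := by
    rw [hκ]; field_simp; ring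
  have hκΛ : κ * ((j:ℝ) + 1) ≤ 1 := by
    have : κ * ((j:ℝ) + 1) * ((j:ℝ) + 1) * 16 = 1 / N := by
      rw [hκ]; field_simp
    have h1N : 1 / (N:ℝ) ≤ 1 := by rw [div_le_one hN0]; exact hN'
    have h2 : 0 < κ * ((j:ℝ) + 1) := by positivity
    nlinarith
  have hA : Adm j m n h (tf M - xD R) := hR.phi_adm hN hσ hM
  have hAc : Adm j m n h (capc j (tf M - xD R) κ θ t s Mx xf yf) :=
    capc_adm hj hh hA hθ0 hMt
  have hφ : (tf M - xD R) i z x y = - xD R i z x y := by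
    simp only [Pi.sub_apply, tf, if_neg hne, zero_sub]
  have hcorr := capc_corr (t := t) (Mx := Mx) (xf := xf) (yf := yf) hh hA
    (fun i z x y => phi_abs M R i z x y) hκ0 hθ0 hθ1 hκΛ hs i z x y
  rw [hκ4, hφ] at hcorr
  have hz := zt_nonneg hκ0 (Dc j (tf M - xD R) θ t s Mx xf yf x y)
  set ζ := zt κ (Dc j (tf M - xD R) θ t s Mx xf yf x y) with hζ
  have hX := xD_nonneg R i z x y
  have h4N : 0 ≤ 1 / (4 * (N:ℝ)) := by positivity
  -- case of a positive reference weight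
  have hcase1 : (∃ k, R k (z,x,y) = nx i (z,x,y)) →
      -(1 / (4 * (N:ℝ))) ≤ eps (z,x,y) * capc j (tf M - xD R) κ θ t s Mx xf yf i z x y := by
    intro hk
    have h1 := xD_pos R i z x y hk
    have h2 : eps (z,x,y) * capc j (tf M - xD R) κ θ t s Mx xf yf i z x y =
        eps (z,x,y) * (capc j (tf M - xD R) κ θ t s Mx xf yf i z x y - -ζ * -xD R i z x y) +
        ζ * (eps (z,x,y) * xD R i z x y) := by ring
    have h3 : -|eps (z,x,y) * (capc j (tf M - xD R) κ θ t s Mx xf yf i z x y -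
        -ζ * -xD R i z x y)| ≤ eps (z,x,y) * (capc j (tf M - xD R) κ θ t s Mx xf yf i z x y -
        -ζ * -xD R i z x y) := neg_abs_le _
    rw [abs_mul, eps_abs, one_mul] at h3
    have h5 : ζ * (1 / (N:ℝ)) ≤ ζ * (eps (z,x,y) * xD R i z x y) :=
      mul_le_mul_of_nonneg_left h1 hz
    rw [h2]
    have e1 : 1 / (N:ℝ) = 4 * (1 / (4 * N)) := by field_simp
    have e2 : 1 / (2 * (N:ℝ)) = 2 * (1 / (4 * N)) := by field_simp; norm_num
    rw [e1] at h5
    have e3 : θ * ζ = 2 * (1 / (4 * N)) * ζ := by rw [hθ, e2]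
    rw [e3] at hcorr
    have h6 : 0 ≤ ζ * (1 / (4 * (N:ℝ))) := mul_nonneg hz h4N
    nlinarith
  -- case of no correction
  have hcase2 : capc j (tf M - xD R) κ θ t s Mx xf yf i z x y = -ζ * -xD R i z x y →
      -(1 / (4 * (N:ℝ))) ≤ eps (z,x,y) * capc j (tf M - xD R) κ θ t s Mx xf yf i z x y := by
    intro hk
    rw [hk]
    have : 0 ≤ ζ * (eps (z,x,y) * xD R i z x y) := mul_nonneg hz hX
    linarith
  -- case of a vanishing flow
  have hcase3 : capc j (tf M - xD R) κ θ t s Mx xf yf i z x y = 0 →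
      -(1 / (4 * (N:ℝ))) ≤ eps (z,x,y) * capc j (tf M - xD R) κ θ t s Mx xf yf i z x y := by
    intro hk
    rw [hk]
    linarith
  rw [← hφ] at hcase2
  fin_cases i
  · by_cases hc : 1 ≤ z ∧ z < (j:ℤ) ∧ dom m n h x y ∧ (dom m n h (x-1) y ∨ dom m n h x (y-1))
    · exact hcase1 (hR.pos0 z x y hc.1 hc.2.1 hc.2.2.1 hc.2.2.2)
    · exact hcase2 (op_zero0 hA _ _ z x y hc)
  · by_cases hz1 : z = 1
    · by_cases hd : dom m n h x y ∧ dom m n h (x+1) y
      · apply hcase1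
        rw [hz1]
        exact hR.pos1 x y hd.1 hd.2
      · exact hcase3 (hAc.e1 z x y hd)
    · apply hcase2
      show capc j (tf M - xD R) κ θ t s Mx xf yf 1 z x y = _
      simp only [capc, op, if_neg hz1, add_zero]
      rfl
  · by_cases hz1 : z = 1
    · by_cases hd : dom m n h x y ∧ dom m n h x (y+1)
      · apply hcase1
        rw [hz1]
        exact hR.pos2 x y hd.1 hd.2
      · exact hcase3 (hAc.e2 z x y hd)
    · apply hcase2
      show capc j (tf M - xD R) κ θ t s Mx xf yf 2 z x y = _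
      simp only [capc, op, if_neg hz1, add_zero]
      rfl

/-- weights on the tiles -/
theorem capc_weight2 (hN : 1 ≤ N) (hh : ∀ x, 0 ≤ h x)
    (hσ : IsTiling Adj3 (boxF j m n) σ) (hR : Ref N j m n σ h R) (hM : OK j m n σ h M)
    (hs : s = 1 ∨ s = -1) {κ θ : ℝ} (hj : 1 ≤ j)
    (hκ : κ = 1 / (16 * N * ((j:ℝ) + 1) ^ 2)) (hθ : θ = 1 / (2 * N)) (i : Fin 3) (z x y : ℤ) :
    -(2 * (zt κ (Dc j (tf M - xD R) θ t s Mx xf yf x y) + 1)) ≤
      eps (z,x,y) * capc j (tf M - xD R) κ θ t s Mx xf yf i z x y := by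
  have hN' : (1:ℝ) ≤ N := by exact_mod_cast hN
  have hN0 : (0:ℝ) < N := by linarith
  have hj' : (1:ℝ) ≤ j := by exact_mod_cast hj
  have hκ0 : 0 < κ := by rw [hκ]; positivity
  have hθ0 : 0 ≤ θ := by rw [hθ]; positivity
  have hθ1 : θ ≤ 1 / 2 := by
    rw [hθ, div_le_div_iff₀ (by positivity) (by positivity)]; linarith
  have hκ4 : 4 * κ * ((j:ℝ) + 1) ^ 2 ≤ 1 / 4 := by
    have : 4 * κ * ((j:ℝ) + 1) ^ 2 = 1 / (4 * N) := by
      rw [hκ]; field_simp; ring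
    rw [this, div_le_div_iff₀ (by positivity) (by positivity)]; linarith
  have hκΛ : κ * ((j:ℝ) + 1) ≤ 1 := by
    have h2 : 0 < κ * ((j:ℝ) + 1) := by positivity
    nlinarith
  have hA : Adm j m n h (tf M - xD R) := hR.phi_adm hN hσ hM
  have hcorr := capc_corr (t := t) (Mx := Mx) (xf := xf) (yf := yf) hh hA
    (fun i z x y => phi_abs M R i z x y) hκ0 hθ0 (by linarith) hκΛ hs i z x y
  have hz := zt_nonneg hκ0 (Dc j (tf M - xD R) θ t s Mx xf yf x y)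
  set ζ := zt κ (Dc j (tf M - xD R) θ t s Mx xf yf x y) with hζ
  set φ0 := (tf M - xD R) i z x y with hφ0
  set C := capc j (tf M - xD R) κ θ t s Mx xf yf i z x y with hC
  have h1 : |φ0| ≤ 1 := phi_abs M R i z x y
  have h2 : |C| ≤ ζ + (θ * ζ + 4 * κ * ((j:ℝ) + 1) ^ 2 * (ζ + 1)) := by
    have h3 : C = (-ζ) * φ0 + (C - (-ζ) * φ0) := by ring
    rw [h3]
    refine (abs_add_le _ _).trans ?_
    apply add_le_add _ hcorr
    rw [abs_mul, abs_neg, abs_of_nonneg hz]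
    nlinarith
  have h3 : |eps (z,x,y) * C| = |C| := by rw [abs_mul, eps_abs, one_mul]
  have h4 := neg_abs_le (eps (z,x,y) * C)
  rw [h3] at h4
  have h5 : θ * ζ ≤ 1 / 2 * ζ := mul_le_mul_of_nonneg_right hθ1 hz
  have h6 : 4 * κ * ((j:ℝ) + 1) ^ 2 * (ζ + 1) ≤ 1 / 4 * (ζ + 1) :=
    mul_le_mul_of_nonneg_right hκ4 (by linarith)
  linarith

end

end Pool.Agent.Slab3D
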