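import Pool.Agent.Slab3D.Step1C

/-!
# Step 1, part D: a large height can be reduced locally
-/

namespace Pool.Agent.Slab3D

open Pool.Agent.Dimer3D Finset

section
variable {j m n N : ℕ} {σ M M' : V → V} {h : ℤ → ℤ} {R : Fin N → V → V}

theorem ht_out (hh : ∀ x, 0 ≤ h x) {φ : Flow} (hA : Adm j m n h φ) {a b : ℤ}
    (hab : ¬ (0 ≤ a ∧ a ≤ m ∧ 0 ≤ b ∧ b ≤ n)) : ht j φ a b = 0 := by
  by_cases hd : dom m n h a b ∧ dom m n h (a+1) b
  · have := dom_range hh hd.1
    exact absurd (by omega) hab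
  · exact (hA.ht_zero_x hh hd).1

theorem exists_max (hh : ∀ x, 0 ≤ h x) {φ : Flow} (hA : Adm j m n h φ) :
    ∃ xf yf : ℤ, (xf ∈ Icc 0 (m:ℤ) ∧ yf ∈ Icc 0 (n:ℤ)) ∧
      ∀ a b, |ht j φ a b| ≤ |ht j φ xf yf| := by
  obtain ⟨⟨xf, yf⟩, hf, hmax⟩ := exists_max_image (Icc 0 (m:ℤ) ×ˢ Icc 0 (n:ℤ))
    (fun p => |ht j φ p.1 p.2|) ⟨(0, 0), by simp⟩
  rw [mem_product] at hf
  refine ⟨xf, yf, hf, fun a b => ?_⟩
  by_cases hab : 0 ≤ a ∧ a ≤ m ∧ 0 ≤ b ∧ b ≤ n
  · exact hmax (a, b) (by simp only [mem_product, mem_Icc]; omega)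
  · rw [ht_out hh hA hab, abs_zero]
    exact abs_nonneg _

theorem tf_int (M : V → V) (i : Fin 3) (z x y : ℤ) : ∃ k : ℤ, tf M i z x y = k := by
  unfold tf eps
  split_ifs
  · exact ⟨1, by simp⟩
  · exact ⟨-1, by simp⟩
  · exact ⟨0, by simp⟩

theorem tf_sub_abs (M M' : V → V) (i : Fin 3) (z x y : ℤ) : |(tf M' - tf M) i z x y| ≤ 1 := by
  simp only [Pi.sub_apply, tf]
  split_ifs <;> simp [eps_abs]

/-- the height of the difference of two tilings which agree outside a window -/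
theorem ht_window (hh : ∀ x, 0 ≤ h x) {ψ : Flow} (hA : Adm j m n h ψ) {xf yf : ℤ} {r : ℕ}
    (hψ : ∀ z x y, (z,x,y) ∉ win j m n xf yf r → ψ 1 z x y = 0) {a b : ℤ}
    (hab : ¬ (|a - xf| ≤ r ∧ |b - yf| ≤ r)) : ht j ψ a b = 0 := by
  by_cases ha : |a - xf| ≤ r
  · have hb : ¬ |b - yf| ≤ r := fun h' => hab ⟨ha, h'⟩
    rw [abs_le] at hb
    by_cases hb1 : b < yf - r
    · unfold ht
      apply sum_eq_zero
      intro y hy
      apply sum_eq_zero
      intro z _
      apply hψ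
      rw [mem_win, abs_le (a := y - yf)]
      rw [mem_Icc] at hy
      omega
    · -- `b > yf + r`
      have hb2 : yf + r < b := by omega
      have key : ∀ k : ℕ, ht j ψ a (b + k) = ht j ψ a b := by
        intro k
        induction k with
        | zero => simp
        | succ k ih =>
          have h1 := hA.ht_sub_y hh a (b + (k + 1 : ℕ))
          have e : b + ((k + 1 : ℕ) : ℤ) - 1 = b + k := by push_cast; ring
          rw [e, ih, sum_eq_zero] at h1
          · linarith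
          · intro z _
            apply hψ
            rw [mem_win, abs_le (a := b + ((k + 1 : ℕ) : ℤ) - yf)]
            push_cast
            omega
      rw [← key (n + b.natAbs + 1)]
      apply ht_out hh hA
      omega
  · unfold ht
    apply sum_eq_zero
    intro y _
    apply sum_eq_zero
    intro z _
    apply hψ
    rw [mem_win]
    tauto

/-- the change of the potential -/
theorem Psi_drop (hh : ∀ x, 0 ≤ h x) (hj : 1 ≤ j) (hN : 1 ≤ N)
    (hσ : IsTiling Adj3 (boxF j m n) σ)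
    (hR : Ref N j m n σ h R) (hM : OK j m n σ h M) (hM' : OK j m n σ h M')
    {xf yf : ℤ} {r : ℕ} {s : ℝ} (hs : s = 1 ∨ s = -1) (hr : 1 ≤ r)
    (hsf : s * ht j (tf M - xD R) xf yf = |ht j (tf M - xD R) xf yf|)
    (hW : ∀ v, v ∉ win j m n xf yf r → M' v = M v)
    (hcost : ∑ v ∈ win j m n xf yf r, (s * (yf - v.2.2)) *
      (tf M' 1 v.1 v.2.1 v.2.2 - tf M 1 v.1 v.2.1 v.2.2) < 0)
    (hbig : 3 * (j:ℝ) ^ 2 * (2 * r + 1) ^ 4 < 2 * |ht j (tf M - xD R) xf yf|) :
    Psi j m n R M' < Psi j m n R M := by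
  have hj' : (1:ℝ) ≤ j := by exact_mod_cast hj
  have hr' : (1:ℝ) ≤ r := by exact_mod_cast hr
  set H := ht j (tf M - xD R) with hH
  have hA : Adm j m n h (tf M - xD R) := hR.phi_adm hN hσ hM
  have hAψ : Adm j m n h (tf M' - tf M) := hM'.sub_adm hσ hM
  set w := ht j (tf M' - tf M) with hw
  have hψ : ∀ z x y, (z,x,y) ∉ win j m n xf yf r → (tf M' - tf M) 1 z x y = 0 := by
    intro z x y hv
    simp only [Pi.sub_apply, tf, hW _ hv, sub_self]
  have hw0 : ∀ a b, ¬ (|a - xf| ≤ r ∧ |b - yf| ≤ r) → w a b = 0 := fun a b hab =>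
    ht_window hh hAψ hψ hab
  -- bound of `w`
  have hwb : ∀ a b, |w a b| ≤ j * (2 * r + 1) := by
    intro a b
    by_cases hab : |a - xf| ≤ r ∧ |b - yf| ≤ r
    · have h1 := lip_int (f := fun x => w x b) (J := j)
        (fun x => hAψ.ht_lip_x hh (fun i z x y => tf_sub_abs M M' i z x y) x b) a (xf + r + 1)
      have h2 : w (xf + r + 1) b = 0 := by
        apply hw0
        rintro ⟨h3, -⟩
        rw [abs_le] at h3
        omega
      beta_reduce at h1
      rw [h2, sub_zero] at h1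
      refine h1.trans ?_
      apply mul_le_mul_of_nonneg_left _ (by positivity)
      have h3 := hab.1
      rw [abs_le] at h3
      have h4 : ((a:ℝ)) - ((xf + r + 1 : ℤ) : ℝ) ≤ 0 := by
        have : a - (xf + r + 1) ≤ 0 := by omega
        exact_mod_cast this
      rw [abs_of_nonpos h4]
      have : -(a - (xf + r + 1)) ≤ (2 * r + 1 : ℤ) := by omega
      exact_mod_cast this
    · rw [hw0 a b hab, abs_zero]
      positivity
  -- the total of `w`
  have htot : s * ∑ a ∈ Icc 0 (m:ℤ), ∑ b ∈ Icc 0 (n:ℤ), w a b ≤ -1 := by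
    have h1 := hAψ.sum_ht hh (yf:ℝ)
    have h2 : ∑ v ∈ win j m n xf yf r, (s * (yf - v.2.2)) *
        (tf M' 1 v.1 v.2.1 v.2.2 - tf M 1 v.1 v.2.1 v.2.2) =
        s * ∑ v ∈ boxF j m n, ((yf:ℝ) - v.2.2) * (tf M' - tf M) 1 v.1 v.2.1 v.2.2 := by
      rw [mul_sum]
      have h3 : win j m n xf yf r ⊆ boxF j m n := filter_subset _ _
      rw [← sum_subset h3]
      · apply sum_congr rfl
        intro v _
        simp only [Pi.sub_apply]
        ring
      · rintro ⟨z, x, y⟩ _ hv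
        simp only
        rw [hψ z x y hv]
        ring
    rw [hw, h1, ← h2]
    -- integrality
    obtain ⟨k, hk⟩ : ∃ k : ℤ, ∑ v ∈ win j m n xf yf r, (s * (yf - v.2.2)) *
        (tf M' 1 v.1 v.2.1 v.2.2 - tf M 1 v.1 v.2.1 v.2.2) = k := by
      have h4 : ∀ v : V, ∃ k : ℤ, (s * ((yf:ℝ) - v.2.2)) *
          (tf M' 1 v.1 v.2.1 v.2.2 - tf M 1 v.1 v.2.1 v.2.2) = k := by
        intro v
        obtain ⟨k1, hk1⟩ := tf_int M' 1 v.1 v.2.1 v.2.2
        obtain ⟨k2, hk2⟩ := tf_int M 1 v.1 v.2.1 v.2.2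
        rcases hs with hs | hs
        · exact ⟨(yf - v.2.2) * (k1 - k2), by rw [hk1, hk2, hs]; push_cast; ring⟩
        · exact ⟨-(yf - v.2.2) * (k1 - k2), by rw [hk1, hk2, hs]; push_cast; ring⟩
      choose f hf using h4
      exact ⟨∑ v ∈ win j m n xf yf r, f v, by push_cast; exact sum_congr rfl fun v _ => hf v⟩
    rw [hk] at hcost ⊢
    have : k ≤ -1 := by
      have : k < 0 := by exact_mod_cast hcost
      omega
    exact_mod_cast this
  -- pointwise
  have hHM' : ∀ a b, ht j (tf M' - xD R) a b = H a b + w a b := by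
    intro a b
    rw [hH, hw, ← ht_add]
    congr 1
    abel
  set Mx := |H xf yf| with hMx
  have hs2 : s * s = 1 := by rcases hs with rfl | rfl <;> norm_num
  set C1 : ℝ := 2 * (j * (r + r)) * (j * (2 * r + 1)) + (j * (2 * r + 1)) ^ 2 with hC1
  have hC1pos : 0 ≤ C1 := by rw [hC1]; positivity
  have hpt : ∀ a b, (H a b + w a b) ^ 2 - H a b ^ 2 ≤
      2 * Mx * (s * w a b) + (if |a - xf| ≤ r ∧ |b - yf| ≤ r then C1 else 0) := by
    intro a b
    split_ifs with hab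
    · have h1 := hA.ht_lip hh (fun i z x y => phi_abs M R i z x y) a b xf yf
      have h2 : |(a:ℝ) - xf| ≤ r := by exact_mod_cast hab.1
      have h3 : |(b:ℝ) - yf| ≤ r := by exact_mod_cast hab.2
      have h4 : |H a b - H xf yf| ≤ j * (r + r) := by
        refine h1.trans ?_
        apply mul_le_mul_of_nonneg_left _ (by positivity)
        linarith
      have h5 := hwb a b
      have h6 : H xf yf = s * Mx := by
        have : s * (s * H xf yf) = s * Mx := by rw [hsf]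
        rw [← this, ← mul_assoc, hs2, one_mul]
      have h7 : (H a b + w a b) ^ 2 - H a b ^ 2 =
          2 * Mx * (s * w a b) + (2 * ((H a b - H xf yf) * w a b) + w a b ^ 2) := by
        rw [h6]; ring
      rw [h7]
      apply add_le_add_right
      have h8 : (H a b - H xf yf) * w a b ≤ (j * (r + r)) * (j * (2 * r + 1)) := by
        refine (le_abs_self _).trans ?_
        rw [abs_mul]
        exact mul_le_mul h4 h5 (abs_nonneg _) (by positivity)
      have h9 : w a b ^ 2 ≤ (j * (2 * r + 1)) ^ 2 := by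
        rw [← sq_abs]
        exact pow_le_pow_left₀ (abs_nonneg _) h5 2
      rw [hC1]
      linarith
    · rw [hw0 a b hab]
      simp
  -- sum
  have hsum : Psi j m n R M' - Psi j m n R M ≤
      2 * Mx * (s * ∑ a ∈ Icc 0 (m:ℤ), ∑ b ∈ Icc 0 (n:ℤ), w a b) +
      ∑ p ∈ Icc 0 (m:ℤ) ×ˢ Icc 0 (n:ℤ), if |p.1 - xf| ≤ r ∧ |p.2 - yf| ≤ r then C1 else 0 := by
    unfold Psi
    rw [sum_product, mul_sum, mul_sum, ← sum_sub_distrib, ← sum_add_distrib]
    apply sum_le_sum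
    intro a _
    rw [mul_sum, mul_sum, ← sum_sub_distrib, ← sum_add_distrib]
    apply sum_le_sum
    intro b _
    rw [hHM']
    exact hpt a b
  have hcount : (∑ p ∈ Icc 0 (m:ℤ) ×ˢ Icc 0 (n:ℤ),
      if |p.1 - xf| ≤ r ∧ |p.2 - yf| ≤ r then C1 else 0) ≤ (2 * r + 1) ^ 2 * C1 := by
    rw [← sum_filter, sum_const, nsmul_eq_mul]
    apply mul_le_mul_of_nonneg_right _ hC1pos
    have h1 : ((Icc 0 (m:ℤ) ×ˢ Icc 0 (n:ℤ)).filter
        fun p : ℤ × ℤ => |p.1 - xf| ≤ r ∧ |p.2 - yf| ≤ r) ⊆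
        Icc (xf - r) (xf + r) ×ˢ Icc (yf - r) (yf + r) := by
      rintro ⟨a, b⟩ hp
      rw [mem_filter] at hp
      have h2 := hp.2
      simp only [abs_le] at h2
      simp only [mem_product, mem_Icc]
      omega
    have h2 := card_le_card h1
    rw [card_product, Int.card_Icc, Int.card_Icc] at h2
    have e2 : (xf + r + 1 - (xf - r)).toNat = 2 * r + 1 := by omega
    have e3 : (yf + r + 1 - (yf - r)).toNat = 2 * r + 1 := by omega
    rw [e2, e3] at h2
    calc _ ≤ (((2 * r + 1) * (2 * r + 1) : ℕ) : ℝ) := by exact_mod_cast h2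
      _ = _ := by push_cast; ring
  have hMx0 : 0 ≤ Mx := abs_nonneg _
  have h10 : 2 * Mx * (s * ∑ a ∈ Icc 0 (m:ℤ), ∑ b ∈ Icc 0 (n:ℤ), w a b) ≤ 2 * Mx * (-1) :=
    mul_le_mul_of_nonneg_left htot (by positivity)
  have h11 : (2 * (r:ℝ) + 1) ^ 2 * C1 ≤ 3 * (j:ℝ) ^ 2 * (2 * r + 1) ^ 4 := by
    have h12 : C1 ≤ 3 * (j:ℝ) ^ 2 * (2 * r + 1) ^ 2 := by
      rw [hC1]
      have h13 : (j:ℝ) * (r + r) ≤ j * (2 * r + 1) :=
        mul_le_mul_of_nonneg_left (by linarith) (by positivity)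
      have h14 : (j:ℝ) * (r + r) * (j * (2 * r + 1)) ≤ j * (2 * r + 1) * (j * (2 * r + 1)) :=
        mul_le_mul_of_nonneg_right h13 (by positivity)
      nlinarith
    calc (2 * (r:ℝ) + 1) ^ 2 * C1 ≤ (2 * (r:ℝ) + 1) ^ 2 * (3 * (j:ℝ) ^ 2 * (2 * r + 1) ^ 2) := by
          gcongr
      _ = _ := by ring
  linarith

end

end Pool.Agent.Slab3D
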