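import Pool.Agent.Slab3D.Cutoff
import Pool.Agent.Slab3D.Flat

/-!
# Step 2: a flat tiling can be made equal to `σ` near a given column
-/

namespace Pool.Agent.Slab3D

open Pool.Agent.Dimer3D Finset

/-- distance of columns -/
def ds (x0 y0 x y : ℤ) : ℤ := max |x - x0| |y - y0|

theorem ds_x (x0 y0 x y : ℤ) : |ds x0 y0 x y - ds x0 y0 (x-1) y| ≤ 1 := by
  unfold ds
  rcases abs_cases (x - x0) with h1 | h1 <;> rcases abs_cases (x - 1 - x0) with h2 | h2 <;>
    rcases max_cases |x - x0| |y - y0| with h3 | h3 <;>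
    rcases max_cases |x - 1 - x0| |y - y0| with h4 | h4 <;> rw [abs_le] <;> constructor <;> omega

theorem ds_y (x0 y0 x y : ℤ) : |ds x0 y0 x y - ds x0 y0 x (y-1)| ≤ 1 := by
  unfold ds
  rcases abs_cases (y - y0) with h1 | h1 <;> rcases abs_cases (y - 1 - y0) with h2 | h2 <;>
    rcases max_cases |x - x0| |y - y0| with h3 | h3 <;>
    rcases max_cases |x - x0| |y - 1 - y0| with h4 | h4 <;> rw [abs_le] <;> constructor <;> omega

/-- the cut-off flow -/
noncomputable def cut (j : ℕ) (φ : Flow) (ξ : ℤ → ℝ) (x0 y0 : ℤ) : Flow :=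
  op j φ (fun x y => ξ (ds x0 y0 x y)) (fun x y => ξ (ds x0 y0 x y) * ht j φ x y)

section
variable {j m n : ℕ} {h : ℤ → ℤ} {φ : Flow} {ξ : ℤ → ℝ} {x0 y0 : ℤ}

theorem cut_adm (hj : 1 ≤ j) (hh : ∀ x, 0 ≤ h x) (hA : Adm j m n h φ) :
    Adm j m n h (cut j φ ξ x0 y0) := by
  apply op_adm hj hh hA
  · intro x y hd
    obtain ⟨h1, h2⟩ := hA.ht_zero_x hh hd
    rw [h1, h2, mul_zero, mul_zero]
  · intro x y hd
    obtain ⟨h1, h2⟩ := hA.ht_zero_y hh hd
    rw [h1, h2, mul_zero, mul_zero]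

theorem cut_corr (hh : ∀ x, 0 ≤ h x) (hA : Adm j m n h φ)
    (h1 : ∀ i z x y, |φ i z x y| ≤ 1) {B : ℝ} (hB : ∀ a b, |ht j φ a b| ≤ B)
    (i : Fin 3) (z x y : ℤ) :
    |cut j φ ξ x0 y0 i z x y - ξ (ds x0 y0 x y) * φ i z x y| ≤
      (B + j) * (|ξ (ds x0 y0 x y) - ξ (ds x0 y0 (x-1) y)| +
        |ξ (ds x0 y0 x y) - ξ (ds x0 y0 x (y-1))|) := by
  have hB0 : 0 ≤ B := (abs_nonneg _).trans (hB 0 0)
  have hj0 : (0:ℝ) ≤ j := Nat.cast_nonneg j
  have e1 := abs_nonneg (ξ (ds x0 y0 x y) - ξ (ds x0 y0 (x-1) y))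
  have e2 := abs_nonneg (ξ (ds x0 y0 x y) - ξ (ds x0 y0 x (y-1)))
  have hbig : 0 ≤ (B + j) * (|ξ (ds x0 y0 x y) - ξ (ds x0 y0 (x-1) y)| +
        |ξ (ds x0 y0 x y) - ξ (ds x0 y0 x (y-1))|) := by positivity
  fin_cases i
  · refine (op_bound0 hh hA h1 _ _ z x y).trans ?_
    apply mul_le_mul_of_nonneg_right _ (by positivity)
    linarith
  · show |cut j φ ξ x0 y0 1 z x y - ξ (ds x0 y0 x y) * φ 1 z x y| ≤ _
    simp only [cut, op]
    by_cases hz1 : z = 1
    · rw [if_pos hz1, add_sub_cancel_left]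
      have e3 : ξ (ds x0 y0 x y) * ht j φ x y - ξ (ds x0 y0 x (y-1)) * ht j φ x (y-1) -
          ξ (ds x0 y0 x y) * (ht j φ x y - ht j φ x (y-1)) =
          (ξ (ds x0 y0 x y) - ξ (ds x0 y0 x (y-1))) * ht j φ x (y-1) := by ring
      rw [e3, abs_mul]
      have e4 := mul_le_mul_of_nonneg_left (hB x (y-1)) e2
      refine e4.trans ?_
      nlinarith [mul_nonneg hB0 e1, mul_nonneg hj0 e1, mul_nonneg hj0 e2]
    · rw [if_neg hz1, add_zero, sub_self, abs_zero]
      exact hbig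
  · show |cut j φ ξ x0 y0 2 z x y - ξ (ds x0 y0 x y) * φ 2 z x y| ≤ _
    simp only [cut, op]
    by_cases hz1 : z = 1
    · rw [if_pos hz1, add_sub_cancel_left]
      have e3 : -(ξ (ds x0 y0 x y) * ht j φ x y - ξ (ds x0 y0 (x-1) y) * ht j φ (x-1) y) +
          ξ (ds x0 y0 x y) * (ht j φ x y - ht j φ (x-1) y) =
          -((ξ (ds x0 y0 x y) - ξ (ds x0 y0 (x-1) y)) * ht j φ (x-1) y) := by ring
      rw [e3, abs_neg, abs_mul]
      have e4 := mul_le_mul_of_nonneg_left (hB (x-1) y) e1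
      refine e4.trans ?_
      nlinarith [mul_nonneg hB0 e2, mul_nonneg hj0 e1, mul_nonneg hj0 e2]
    · rw [if_neg hz1, add_zero, sub_self, abs_zero]
      exact hbig

/-- where `ξ` is locally constant, the cut-off flow is a multiple of `φ` -/
theorem cut_const (hh : ∀ x, 0 ≤ h x) (hA : Adm j m n h φ)
    (h1 : ∀ i z x y, |φ i z x y| ≤ 1) {B : ℝ} (hB : ∀ a b, |ht j φ a b| ≤ B) {c : ℝ}
    (i : Fin 3) (z x y : ℤ) (hc : ξ (ds x0 y0 x y) = c) (hcx : ξ (ds x0 y0 (x-1) y) = c)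
    (hcy : ξ (ds x0 y0 x (y-1)) = c) : cut j φ ξ x0 y0 i z x y = c * φ i z x y := by
  have h2 := cut_corr (ξ := ξ) (x0 := x0) (y0 := y0) hh hA h1 hB i z x y
  rw [hc, hcx, hcy, sub_self, abs_zero, add_zero, mul_zero] at h2
  exact sub_eq_zero.1 (abs_nonpos_iff.1 h2)

end

section
variable {j m n N : ℕ} {σ M : V → V} {h : ℤ → ℤ} {R : Fin N → V → V} {x0 y0 : ℤ}

/-- `σ` itself is flat -/
theorem ht_sigma (hN : 1 ≤ N) (hR : Ref N j m n σ h R) (a b : ℤ) :
    |ht j (tf σ - xD R) a b| ≤ 1 := by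
  have hN' : (1:ℝ) ≤ N := by exact_mod_cast hN
  have h1 : ht j (tf σ - xD R) a b = (∑ k, ht j (tf σ - tf (R k)) a b) * (N:ℝ)⁻¹ := by
    rw [sub_xD_eq hN]
    simp only [ht, ← sum_mul]
    congr 1
    rw [sum_comm (s := univ)]
    apply sum_congr rfl
    intro y _
    rw [sum_comm]
  rw [h1, abs_mul, abs_of_nonneg (by positivity : 0 ≤ (N:ℝ)⁻¹), ← div_eq_mul_inv,
    div_le_one (by linarith)]
  refine (abs_sum_le_sum_abs _ _).trans ?_
  calc ∑ k, |ht j (tf σ - tf (R k)) a b| ≤ ∑ k : Fin N, (1:ℝ) :=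
        sum_le_sum fun k _ => hR.hb k a b
    _ = N := by simp

theorem cut_weight (hj : 1 ≤ j) (hN : 1 ≤ N) (hh : ∀ x, 0 ≤ h x)
    (hσ : IsTiling Adj3 (boxF j m n) σ) (hR : Ref N j m n σ h R) (hM : OK j m n σ h M)
    {B : ℝ} (hB1 : 1 ≤ B) (hB : ∀ a b, |ht j (tf M - xD R) a b| ≤ B) {κ : ℝ} {T : ℕ}
    (hκ : κ = 1 / (4 * N * (B + j))) (i : Fin 3) (z x y : ℤ) :
    -(2 * (B + j) * Real.exp (-(κ * T))) ≤ eps (z,x,y) * (xD R i z x y +
      cut j (tf σ - xD R) (xs κ T) x0 y0 i z x y +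
      cut j (tf M - xD R) (xt κ T) x0 y0 i z x y) := by
  have hN' : (1:ℝ) ≤ N := by exact_mod_cast hN
  have hN0 : (0:ℝ) < N := by linarith
  have hj' : (1:ℝ) ≤ j := by exact_mod_cast hj
  have hκ0 : 0 < κ := by rw [hκ]; positivity
  have hκ1 : κ ≤ 1 := by
    rw [hκ, div_le_one (by positivity)]
    nlinarith [mul_le_mul hN' hj' zero_le_one (by positivity)]
  have hκB : 2 * (B + j) * (2 * κ) = 1 / N := by
    rw [hκ]; field_simp; ring
  have hσOK : OK j m n σ h σ := ⟨hσ, fun _ _ _ => rfl⟩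
  have hA : Adm j m n h (tf M - xD R) := hR.phi_adm hN hσ hM
  have hA' : Adm j m n h (tf σ - xD R) := hR.phi_adm hN hσ hσOK
  have hB' : ∀ a b, |ht j (tf σ - xD R) a b| ≤ B := fun a b => (ht_sigma hN hR a b).trans hB1
  have hc1 := cut_corr (ξ := xs κ T) (x0 := x0) (y0 := y0) hh hA'
    (fun i z x y => phi_abs σ R i z x y) hB' i z x y
  have hc2 := cut_corr (ξ := xt κ T) (x0 := x0) (y0 := y0) hh hA
    (fun i z x y => phi_abs M R i z x y) hB i z x y
  have hlx := cut_lip (T := T) hκ0.le hκ1 (ds_x x0 y0 x y)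
  have hly := cut_lip (T := T) hκ0.le hκ1 (ds_y x0 y0 x y)
  have hX := xD_nonneg R i z x y
  have hs0 := xs_nonneg (κ := κ) (T := T) (ds x0 y0 x y)
  have ht0 := xt_nonneg (κ := κ) (T := T) (ds x0 y0 x y)
  have hst := xs_add_xt (κ := κ) (T := T) (ds x0 y0 x y)
  have hg0 := gq_nonneg (κ := κ) (T := T) (ds x0 y0 x y)
  have heσ : 0 ≤ eps (z,x,y) * tf σ i z x y := by rw [eps_tf]; split_ifs <;> norm_num
  have heM : 0 ≤ eps (z,x,y) * tf M i z x y := by rw [eps_tf]; split_ifs <;> norm_num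
  have hE := (Real.exp_pos (-(κ * T))).le
  have hBj : 0 ≤ B + j := by linarith
  have hbd : 0 ≤ 2 * (B + j) * Real.exp (-(κ * T)) := by positivity
  set s := xs κ T (ds x0 y0 x y) with hs
  set τ := xt κ T (ds x0 y0 x y) with hτ
  set g := gq κ T (ds x0 y0 x y) with hg
  set A := cut j (tf σ - xD R) (xs κ T) x0 y0 i z x y with hAdef
  set C := cut j (tf M - xD R) (xt κ T) x0 y0 i z x y with hCdef
  set X := xD R i z x y with hXdef
  have hφσ : (tf σ - xD R) i z x y = tf σ i z x y - X := rfl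
  have hφM : (tf M - xD R) i z x y = tf M i z x y - X := rfl
  rw [hφσ] at hc1
  rw [hφM] at hc2
  set e := eps (z,x,y) with he
  have heabs : |e| = 1 := eps_abs _
  -- the main identity
  have hid : e * (X + A + C) = g * (e * X) + s * (e * tf σ i z x y) + τ * (e * tf M i z x y) +
      e * (A - s * (tf σ i z x y - X)) + e * (C - τ * (tf M i z x y - X)) := by
    have : g = 1 - s - τ := by linarith
    rw [this]; ring
  have hcase1 : (∃ k, R k (z,x,y) = nx i (z,x,y)) →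
      -(2 * (B + j) * Real.exp (-(κ * T))) ≤ e * (X + A + C) := by
    intro hk
    have h1 := xD_pos R i z x y hk
    rw [← he, ← hXdef] at h1
    have k1 : -|e * (A - s * (tf σ i z x y - X))| ≤ e * (A - s * (tf σ i z x y - X)) :=
      neg_abs_le _
    have k2 : -|e * (C - τ * (tf M i z x y - X))| ≤ e * (C - τ * (tf M i z x y - X)) :=
      neg_abs_le _
    rw [abs_mul, heabs, one_mul] at k1 k2
    have k3 : (B + j) * (|s - xs κ T (ds x0 y0 (x-1) y)| + |s - xs κ T (ds x0 y0 x (y-1))|) +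
        (B + j) * (|τ - xt κ T (ds x0 y0 (x-1) y)| + |τ - xt κ T (ds x0 y0 x (y-1))|) ≤
        (B + j) * (2 * (2 * κ * g + Real.exp (-(κ * T)))) := by
      rw [← mul_add]
      apply mul_le_mul_of_nonneg_left _ hBj
      linarith
    have k4 : (B + j) * (2 * (2 * κ * g + Real.exp (-(κ * T)))) =
        g * (1 / N) + 2 * (B + j) * Real.exp (-(κ * T)) := by
      rw [← hκB]; ring
    have k5 : g * (1 / (N:ℝ)) ≤ g * (e * X) := mul_le_mul_of_nonneg_left h1 hg0
    have k6 : 0 ≤ s * (e * tf σ i z x y) := mul_nonneg hs0 heσ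
    have k7 : 0 ≤ τ * (e * tf M i z x y) := mul_nonneg ht0 heM
    rw [hid]
    linarith
  have hcase2 : A = s * (tf σ i z x y - X) → C = τ * (tf M i z x y - X) →
      -(2 * (B + j) * Real.exp (-(κ * T))) ≤ e * (X + A + C) := by
    intro h1 h2
    rw [hid, h1, h2]
    have k5 : 0 ≤ g * (e * X) := mul_nonneg hg0 hX
    have k6 : 0 ≤ s * (e * tf σ i z x y) := mul_nonneg hs0 heσ
    have k7 : 0 ≤ τ * (e * tf M i z x y) := mul_nonneg ht0 heM
    simp only [sub_self, mul_zero, add_zero]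
    linarith
  have hcase3 : A = 0 → C = 0 →
      -(2 * (B + j) * Real.exp (-(κ * T))) ≤ e * (X + A + C) := by
    intro h1 h2
    rw [h1, h2, add_zero, add_zero]
    linarith
  have hAc : Adm j m n h (cut j (tf σ - xD R) (xs κ T) x0 y0) := cut_adm hj hh hA'
  have hCc : Adm j m n h (cut j (tf M - xD R) (xt κ T) x0 y0) := cut_adm hj hh hA
  fin_cases i
  · by_cases hc : 1 ≤ z ∧ z < (j:ℤ) ∧ dom m n h x y ∧ (dom m n h (x-1) y ∨ dom m n h x (y-1))
    · exact hcase1 (hR.pos0 z x y hc.1 hc.2.1 hc.2.2.1 hc.2.2.2)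
    · exact hcase2 (op_zero0 hA' _ _ z x y hc) (op_zero0 hA _ _ z x y hc)
  · by_cases hz1 : z = 1
    · by_cases hd : dom m n h x y ∧ dom m n h (x+1) y
      · apply hcase1
        rw [hz1]
        exact hR.pos1 x y hd.1 hd.2
      · exact hcase3 (hAc.e1 z x y hd) (hCc.e1 z x y hd)
    · apply hcase2
      · show cut j (tf σ - xD R) (xs κ T) x0 y0 1 z x y = _
        simp only [cut, op, if_neg hz1, add_zero]
        rfl
      · show cut j (tf M - xD R) (xt κ T) x0 y0 1 z x y = _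
        simp only [cut, op, if_neg hz1, add_zero]
        rfl
  · by_cases hz1 : z = 1
    · by_cases hd : dom m n h x y ∧ dom m n h x (y+1)
      · apply hcase1
        rw [hz1]
        exact hR.pos2 x y hd.1 hd.2
      · exact hcase3 (hAc.e2 z x y hd) (hCc.e2 z x y hd)
    · apply hcase2
      · show cut j (tf σ - xD R) (xs κ T) x0 y0 2 z x y = _
        simp only [cut, op, if_neg hz1, add_zero]
        rfl
      · show cut j (tf M - xD R) (xt κ T) x0 y0 2 z x y = _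
        simp only [cut, op, if_neg hz1, add_zero]
        rfl

end

end Pool.Agent.Slab3D
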