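import Pool.Agent.Slab3D.Step2

/-!
# Step 2: a flat tiling can be made equal to `σ` near a given column (end)
-/

namespace Pool.Agent.Slab3D

open Pool.Agent.Dimer3D Finset

theorem adj_cases {A : Finset V} {M : V → V} (hM : IsTiling Adj3 A M) {v : V} (hv : v ∈ A) :
    (∃ i, M v = nx i v) ∨ (∃ i, v = nx i (M v)) := by
  have h1 := hM.adj v hv
  obtain ⟨z, x, y⟩ := v
  generalize M (z, x, y) = u at h1
  obtain ⟨z', x', y'⟩ := u
  have habs : ∀ a b : ℤ, |a - b| = 1 → (b = a + 1 ∨ a = b + 1) := by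
    intro a b h
    rcases abs_eq (zero_le_one' ℤ) |>.1 h with h | h <;> omega
  simp only [Adj3] at h1
  rcases h1 with ⟨h1, rfl, rfl⟩ | ⟨rfl, h1, rfl⟩ | ⟨rfl, rfl, h1⟩
  · rcases habs _ _ h1 with rfl | rfl
    · exact Or.inl ⟨0, rfl⟩
    · exact Or.inr ⟨0, rfl⟩
  · rcases habs _ _ h1 with rfl | rfl
    · exact Or.inl ⟨1, rfl⟩
    · exact Or.inr ⟨1, rfl⟩
  · rcases habs _ _ h1 with rfl | rfl
    · exact Or.inl ⟨2, rfl⟩
    · exact Or.inr ⟨2, rfl⟩

/-- two tilings agree at `v` if the tile of the first one at `v` is a tile of the second one -/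
theorem agree_of {A : Finset V} {M τ : V → V} (hM : IsTiling Adj3 A M) (hτ : IsTiling Adj3 A τ)
    {v : V} (hv : v ∈ A)
    (key : ∀ (i : Fin 3) (u : V), M u = nx i u → (u = v ∨ nx i u = v) → τ u = nx i u) :
    M v = τ v := by
  rcases adj_cases hM hv with ⟨i, hi⟩ | ⟨i, hi⟩
  · rw [hi, key i v hi (Or.inl rfl)]
  · have h1 : M (M v) = nx i (M v) := by rw [hM.inv v hv]; exact hi
    have h2 := key i (M v) h1 (Or.inr hi.symm)
    rw [← hi] at h2
    exact ((tiling_iff hτ hv).1 h2).symm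

theorem Adm.add {j m n : ℕ} {h : ℤ → ℤ} {φ ψ : Flow} (h1 : Adm j m n h φ)
    (h2 : Adm j m n h ψ) : Adm j m n h (φ + ψ) := by
  refine ⟨?_, ?_, ?_, ?_, ?_, ?_⟩
  · intro z x y; rw [dv_add, h1.dv0, h2.dv0, add_zero]
  · intro i z x y hz; simp only [Pi.add_apply, h1.z0 i z x y hz, h2.z0 i z x y hz, add_zero]
  · intro z x y hz; simp only [Pi.add_apply, h1.z1 z x y hz, h2.z1 z x y hz, add_zero]
  · intro z x y hz; simp only [Pi.add_apply, h1.e0 z x y hz, h2.e0 z x y hz, add_zero]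
  · intro z x y hz; simp only [Pi.add_apply, h1.e1 z x y hz, h2.e1 z x y hz, add_zero]
  · intro z x y hz; simp only [Pi.add_apply, h1.e2 z x y hz, h2.e2 z x y hz, add_zero]

theorem Adm.sub {j m n : ℕ} {h : ℤ → ℤ} {φ ψ : Flow} (h1 : Adm j m n h φ)
    (h2 : Adm j m n h ψ) : Adm j m n h (φ - ψ) := by
  refine ⟨?_, ?_, ?_, ?_, ?_, ?_⟩
  · intro z x y; rw [dv_sub, h1.dv0, h2.dv0, sub_zero]
  · intro i z x y hz; simp only [Pi.sub_apply, h1.z0 i z x y hz, h2.z0 i z x y hz, sub_zero]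
  · intro z x y hz; simp only [Pi.sub_apply, h1.z1 z x y hz, h2.z1 z x y hz, sub_zero]
  · intro z x y hz; simp only [Pi.sub_apply, h1.e0 z x y hz, h2.e0 z x y hz, sub_zero]
  · intro z x y hz; simp only [Pi.sub_apply, h1.e1 z x y hz, h2.e1 z x y hz, sub_zero]
  · intro z x y hz; simp only [Pi.sub_apply, h1.e2 z x y hz, h2.e2 z x y hz, sub_zero]

theorem step2 (N C : ℕ) (hN : 1 ≤ N) (hC : 1 ≤ C) : ∃ C' : ℕ, ∀ j : ℕ, 1 ≤ j →
    ∀ (m n : ℕ) (σ : V → V) (h : ℤ → ℤ) (R : Fin N → V → V), (∀ x, 0 ≤ h x) →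
      IsTiling Adj3 (boxF j m n) σ → Ref N j m n σ h R → ∀ M, OK j m n σ h M →
      (∀ a b, |ht j (tf M - xD R) a b| ≤ ((C * j ^ 14 : ℕ) : ℝ)) → ∀ x0 y0 : ℤ,
      ∃ M', OK j m n σ h M' ∧ Near Adj3 (C' * j ^ 31) (boxF j m n) M M' ∧
        ∀ v ∈ boxF j m n, |v.2.1 - x0| ≤ 1 → |v.2.2 - y0| ≤ 1 → M' v = σ v := by
  have hN' : (1:ℝ) ≤ N := by exact_mod_cast hN
  obtain ⟨A, hA1, hAT⟩ := exists_T N C hN
  refine ⟨(23 * A * (C + 1)) ^ 2, ?_⟩
  intro j hj
  have hj' : (1:ℝ) ≤ j := by exact_mod_cast hj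
  have hBn : 1 ≤ C * j ^ 14 := Nat.mul_pos hC (Nat.one_le_pow _ _ hj)
  obtain ⟨B, hBdef⟩ : ∃ B : ℝ, B = ((C * j ^ 14 : ℕ) : ℝ) := ⟨_, rfl⟩
  have hB1 : 1 ≤ B := by rw [hBdef]; exact_mod_cast hBn
  rw [← hBdef]
  have hBj : 0 < B + j := by linarith
  obtain ⟨κ, hκ⟩ : ∃ κ : ℝ, κ = 1 / (4 * N * (B + j)) := ⟨_, rfl⟩
  have hκ0 : 0 < κ := by rw [hκ]; positivity
  have hT := hAT j hj κ (by rw [hκ, hBdef])
  rw [← hBdef] at hT
  set T : ℕ := A * (C * j ^ 14 + j) * j with hTdef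
  set r : ℕ := 2 * T + 9 with hr
  set wb : ℕ := j * (2 * r + 1) ^ 2 with hwb
  have hKle : wb ≤ (23 * A * (C + 1)) ^ 2 * j ^ 31 := by
    have hT1 : 1 ≤ T := Nat.mul_pos (Nat.mul_pos hA1 (by omega)) hj
    have h1 : 2 * r + 1 ≤ 23 * T := by omega
    have h2 : T ≤ A * (C + 1) * j ^ 15 := by
      have h3 : C * j ^ 14 + j ≤ (C + 1) * j ^ 14 := by
        have : j ≤ j ^ 14 := Nat.le_self_pow (by norm_num) j
        rw [add_mul]; omega
      calc T ≤ A * ((C + 1) * j ^ 14) * j := by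
            rw [hTdef]; exact Nat.mul_le_mul_right _ (Nat.mul_le_mul_left _ h3)
        _ = _ := by ring
    have h4 : 2 * r + 1 ≤ 23 * (A * (C + 1) * j ^ 15) := by omega
    calc wb ≤ j * (23 * (A * (C + 1) * j ^ 15)) ^ 2 := by
          rw [hwb]; exact Nat.mul_le_mul_left _ (Nat.pow_le_pow_left h4 2)
      _ = _ := by ring
  intro m n σ h R hh hσ hR M hM hB x0 y0
  have hσOK : OK j m n σ h σ := ⟨hσ, fun _ _ _ => rfl⟩
  have hA : Adm j m n h (tf M - xD R) := hR.phi_adm hN hσ hM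
  have hA' : Adm j m n h (tf σ - xD R) := hR.phi_adm hN hσ hσOK
  have hB' : ∀ a b, |ht j (tf σ - xD R) a b| ≤ B := fun a b => (ht_sigma hN hR a b).trans hB1
  set A : Flow := cut j (tf σ - xD R) (xs κ T) x0 y0 with hAdef
  set C : Flow := cut j (tf M - xD R) (xt κ T) x0 y0 with hCdef
  have hAc : Adm j m n h A := cut_adm hj hh hA'
  have hCc : Adm j m n h C := cut_adm hj hh hA
  set E : Flow := A + C - (tf M - xD R) with hE
  have hEa : Adm j m n h E := (hAc.add hCc).sub hA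
  set G : Flow := tf M + E with hG
  have hGZ : ∀ i z x y, G i z x y = xD R i z x y + A i z x y + C i z x y := by
    intro i z x y
    simp only [hG, hE, Pi.add_apply, Pi.sub_apply]
    ring
  set W := win j m n x0 y0 r with hW
  have hWc : W.card ≤ wb := card_win j m n x0 y0 r
  -- distances
  have hdsx : ∀ x y, ds x0 y0 x y - 1 ≤ ds x0 y0 (x-1) y ∧ ds x0 y0 (x-1) y ≤ ds x0 y0 x y + 1 := by
    intro x y
    have := abs_le.1 (ds_x x0 y0 x y)
    constructor <;> omega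
  have hdsy : ∀ x y, ds x0 y0 x y - 1 ≤ ds x0 y0 x (y-1) ∧ ds x0 y0 x (y-1) ≤ ds x0 y0 x y + 1 := by
    intro x y
    have := abs_le.1 (ds_y x0 y0 x y)
    constructor <;> omega
  have hfar : ∀ (i : Fin 3) (z x y : ℤ), (2 * (T:ℤ) + 8 ≤ ds x0 y0 x y) → E i z x y = 0 := by
    intro i z x y hd
    have f1 := xs_far (κ := κ) (T := T) (d := ds x0 y0 x y) (by omega)
    have f2 := xs_far (κ := κ) (T := T) (d := ds x0 y0 (x-1) y) (by have := (hdsx x y).1; omega)
    have f3 := xs_far (κ := κ) (T := T) (d := ds x0 y0 x (y-1)) (by have := (hdsy x y).1; omega)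
    have a1 : A i z x y = 0 * (tf σ - xD R) i z x y :=
      cut_const hh hA' (fun i z x y => phi_abs σ R i z x y) hB' i z x y f1.1 f2.1 f3.1
    have c1 : C i z x y = 1 * (tf M - xD R) i z x y :=
      cut_const hh hA (fun i z x y => phi_abs M R i z x y) hB i z x y f1.2 f2.2 f3.2
    show A i z x y + C i z x y - (tf M - xD R) i z x y = 0
    rw [a1, c1]
    ring
  have hnear : ∀ (i : Fin 3) (z x y : ℤ), (ds x0 y0 x y ≤ 3) →
      G i z x y = tf σ i z x y := by
    intro i z x y hd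
    have f1 := xs_near (κ := κ) (T := T) (d := ds x0 y0 x y) (by omega)
    have f2 := xs_near (κ := κ) (T := T) (d := ds x0 y0 (x-1) y) (by have := (hdsx x y).2; omega)
    have f3 := xs_near (κ := κ) (T := T) (d := ds x0 y0 x (y-1)) (by have := (hdsy x y).2; omega)
    have a1 : A i z x y = 1 * (tf σ - xD R) i z x y :=
      cut_const hh hA' (fun i z x y => phi_abs σ R i z x y) hB' i z x y f1.1 f2.1 f3.1
    have c1 : C i z x y = 0 * (tf M - xD R) i z x y :=
      cut_const hh hA (fun i z x y => phi_abs M R i z x y) hB i z x y f1.2 f2.2 f3.2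
    rw [hGZ, a1, c1]
    simp only [Pi.sub_apply]
    ring
  have hEW : ∀ (i : Fin 3) (z x y : ℤ), ¬ ((z,x,y) ∈ W ∧ nx i (z,x,y) ∈ W) → E i z x y = 0 := by
    intro i z x y hv
    by_cases hb : (z, x, y) ∈ boxF j m n ∧ nx i (z, x, y) ∈ boxF j m n
    · apply hfar
      by_contra hcon
      push Not at hcon
      unfold ds at hcon
      rw [max_lt_iff, abs_lt, abs_lt] at hcon
      apply hv
      rw [hW, mem_win, abs_le, abs_le]
      refine ⟨⟨hb.1, by omega, by omega⟩, ?_⟩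
      have h1 := hb.2
      fin_cases i
      · show (z + 1, x, y) ∈ win j m n x0 y0 r
        rw [mem_win, abs_le, abs_le]
        refine ⟨h1, ?_, ?_⟩ <;> omega
      · show (z, x + 1, y) ∈ win j m n x0 y0 r
        rw [mem_win, abs_le, abs_le]
        refine ⟨h1, ?_, ?_⟩ <;> omega
      · show (z, x, y + 1) ∈ win j m n x0 y0 r
        rw [mem_win, abs_le, abs_le]
        refine ⟨h1, ?_, ?_⟩ <;> omega
    · exact hEa.out hh i z x y hb
  have hGW : ∀ (i : Fin 3) (v : V), ¬ (v ∈ W ∧ nx i v ∈ W) →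
      G i v.1 v.2.1 v.2.2 = tf M i v.1 v.2.1 v.2.2 := by
    rintro i ⟨z, x, y⟩ hv
    simp only [hG, Pi.add_apply]
    rw [hEW i z x y hv, add_zero]
  have hdv : ∀ v ∈ boxF j m n, dv G v.1 v.2.1 v.2.2 = eps v := by
    rintro ⟨z, x, y⟩ hv
    simp only
    rw [hG, dv_add, dv_tf hM.1 z x y hv, hEa.dv0, add_zero]
  set η0 := 2 * (B + j) * Real.exp (-(κ * T)) with hη0
  have hη0pos : 0 ≤ η0 := by positivity
  have hη : ∑ v ∈ W, ∑ i, max 0 (-(eps v * G i v.1 v.2.1 v.2.2)) ≤ wb * (3 * η0) := by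
    have h1 : ∀ v ∈ W, ∑ i : Fin 3, max 0 (-(eps v * G i v.1 v.2.1 v.2.2)) ≤ 3 * η0 := by
      rintro ⟨z, x, y⟩ _
      have h2 : ∀ i : Fin 3, max 0 (-(eps (z,x,y) * G i z x y)) ≤ η0 := by
        intro i
        apply max_le hη0pos
        have h3 := cut_weight (x0 := x0) (y0 := y0) (T := T) hj hN hh hσ hR hM hB1 hB hκ i z x y
        rw [hGZ]
        linarith
      rw [Fin.sum_univ_three]
      have a0 := h2 0
      have a1 := h2 1
      have a2 := h2 2
      linarith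
    refine (sum_le_card_nsmul _ _ _ h1).trans ?_
    rw [nsmul_eq_mul]
    apply mul_le_mul_of_nonneg_right _ (by positivity)
    exact_mod_cast hWc
  obtain ⟨M', hM', hpos, hMW⟩ := round_tiling0 hM.1 G W (filter_subset _ _) hdv hGW
    (wb * (3 * η0)) hη (2 * wb) (by omega) (by
      push_cast
      refine lt_of_eq_of_lt ?_ hT
      rw [hη0, hwb, hr]
      push_cast
      ring)
  have hposM : ∀ (τ : V → V) (i : Fin 3) (u : V), M' u = nx i u →
      G i u.1 u.2.1 u.2.2 = tf τ i u.1 u.2.1 u.2.2 → τ u = nx i u := by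
    rintro τ i ⟨z, x, y⟩ hu hGu
    have h1 := hpos i (z, x, y) hu
    simp only at h1 hGu
    rw [hGu, eps_tf] at h1
    by_contra hcon
    rw [if_neg hcon] at h1
    exact lt_irrefl _ h1
  have hOK' : OK j m n σ h M' := by
    refine ⟨hM', fun v hv hd => ?_⟩
    rw [← hM.2 v hv hd]
    apply agree_of hM' hM.1 hv
    rintro i ⟨z, x, y⟩ hu huv
    apply hposM M i _ hu
    have hdu : ¬ (dom m n h x y ∧
        dom m n h (nx i (z, x, y)).2.1 (nx i (z, x, y)).2.2) := by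
      rintro ⟨h1, h2⟩
      rcases huv with huv | huv
      · rw [← huv] at hd; exact hd h1
      · rw [← huv] at hd; exact hd h2
    have h2 : E i z x y = 0 := by
      fin_cases i
      · exact hEa.e0 z x y fun h' => hdu ⟨h', h'⟩
      · exact hEa.e1 z x y hdu
      · exact hEa.e2 z x y hdu
    simp only [hG, Pi.add_apply, h2, add_zero]
  refine ⟨M', hOK', ⟨hM.1, hM', ?_⟩, ?_⟩
  · refine le_trans (card_le_card ?_) (hWc.trans hKle)
    intro v hv
    rw [mem_filter] at hv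
    by_contra hcon
    exact hv.2 (hMW v hcon).symm
  · intro v hv hvx hvy
    apply agree_of hM' hσ hv
    rintro i ⟨z, x, y⟩ hu huv
    apply hposM σ i _ hu
    apply hnear
    have hv3 : (z, x, y) = v ∨ nx i (z, x, y) = v := huv
    show max |x - x0| |y - y0| ≤ 3
    rw [abs_le] at hvx hvy
    apply max_le <;> rw [abs_le]
    · rcases hv3 with hv3 | hv3
      · rw [← hv3] at hvx
        have hvx' : -1 ≤ x - x0 ∧ x - x0 ≤ 1 := hvx
        constructor <;> omega
      · rw [← hv3] at hvx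
        fin_cases i <;> simp only [nx] at hvx <;> constructor <;> omega
    · rcases hv3 with hv3 | hv3
      · rw [← hv3] at hvy
        have hvy' : -1 ≤ y - y0 ∧ y - y0 ≤ 1 := hvy
        constructor <;> omega
      · rw [← hv3] at hvy
        fin_cases i <;> simp only [nx] at hvy <;> constructor <;> omega

end Pool.Agent.Slab3D
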